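import Mathlib

/-!
# The zeta argument `S(t)` and its iterated antiderivatives `S_n(t)`: definitions

Everything here is stated in terms of Mathlib only.
-/

set_option autoImplicit false

namespace Pool.Agent.X111.BF

open Complex Filter Topology Set MeasureTheory

/-- The path `2 → 2 + i t → 1/2 + i t`, parametrised by `x ∈ [0, t + 3/2]`. -/
noncomputable def path (t x : ℝ) : ℂ :=
  if x ≤ t then 2 + x * I else ((2 - (x - t) : ℝ) : ℂ) + t * I

/-- `θ` is the value at `1/2 + i t` of the argument of zeta obtained by continuous variation along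
the path, starting from `arg ζ(2) = 0`. -/
def IsArg (t θ : ℝ) : Prop :=
  ∃ φ : ℝ → ℝ, ContinuousOn φ (Icc 0 (t + 3 / 2)) ∧ φ 0 = 0 ∧ φ (t + 3 / 2) = θ ∧
    ∀ x ∈ Icc 0 (t + 3 / 2),
      riemannZeta (path t x) = (‖riemannZeta (path t x)‖ : ℂ) * Complex.exp (φ x * I)

open Classical in
/-- `(1/π) arg ζ(1/2 + i t)` (by continuous variation). -/
noncomputable def S0 (t : ℝ) : ℝ := if h : ∃ θ, IsArg t θ then h.choose / Real.pi else 0

/-- `t` is not the ordinate of a zero of zeta. -/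
def NotOrd (t : ℝ) : Prop := ∀ σ : ℝ, riemannZeta ((σ : ℂ) + t * I) ≠ 0

open Classical in
/-- The function `S(t)`: the average of the left and right limits at ordinates of zeros. -/
noncomputable def S (t : ℝ) : ℝ :=
  if NotOrd t then S0 t else (limUnder (𝓝[<] t) S0 + limUnder (𝓝[>] t) S0) / 2

/-- `J n σ` is the `n`-fold iterated integral of `log |ζ|` over `[σ, ∞)`. -/
noncomputable def J : ℕ → ℝ → ℝ
  | 0 => fun x => Real.log ‖riemannZeta (x : ℂ)‖
  | (n + 1) => fun σ => ∫ u in Ioi σ, J n u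

/-- The constants `δ_n`: `δ_{2k} = (-1)^{k-1} / ((2k)! 2^{2k})` and
`δ_{2k-1} = ((-1)^{k-1} / π) ∫_{1/2}^∞ ⋯ ∫ log |ζ|` (`2k - 1` integrals), for `k ≥ 1`. -/
noncomputable def delta (n : ℕ) : ℝ :=
  if Even n then -(-1) ^ (n / 2) / (n.factorial * 2 ^ n) else (-1) ^ (n / 2) / Real.pi * J n (1 / 2)

/-- The iterated antiderivatives `S_0 = S`, `S_n(t) = ∫_0^t S_{n-1} + δ_n`. -/
noncomputable def Sn : ℕ → ℝ → ℝ
  | 0 => S
  | (n + 1) => fun t => (∫ τ in (0:ℝ)..t, Sn n τ) + delta (n + 1)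

/-- `M_k = max_{[0,1]} B_k`. -/
noncomputable def maxB (k : ℕ) : ℝ := sSup (bernoulliFun k '' Icc 0 1)

/-- `m_k = min_{[0,1]} B_k`. -/
noncomputable def minB (k : ℕ) : ℝ := sInf (bernoulliFun k '' Icc 0 1)

/-- `A_n^- = π^n M_{n+1} / (2 (n+1)!)`. -/
noncomputable def Aminus (n : ℕ) : ℝ := Real.pi ^ n * maxB (n + 1) / (2 * (n + 1).factorial)

/-- `A_n^+ = -π^n m_{n+1} / (2 (n+1)!)`. -/
noncomputable def Aplus (n : ℕ) : ℝ := -(Real.pi ^ n * minB (n + 1)) / (2 * (n + 1).factorial)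

/-- `Λ_n(t) = log t / (log log t)^{n+1}`. -/
noncomputable def LamN (n : ℕ) (t : ℝ) : ℝ := Real.log t / Real.log (Real.log t) ^ (n + 1)

end Pool.Agent.X111.BF
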