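import Pool.Agent.X111.BF.Zet12

set_option autoImplicit false

namespace Pool.Agent.X111.BF

open Complex Filter Topology Set MeasureTheory

/-! ### Extremal points of the Bernoulli polynomials -/

lemma bern_odd_zero {n : ℕ} (hn : Even n) (h2 : 2 ≤ n) :
    bernoulliFun (n + 1) 0 = 0 ∧ bernoulliFun (n + 1) 1 = 0 := by
  have h1 : bernoulliFun (n + 1) 1 = bernoulliFun (n + 1) 0 :=
    bernoulliFun_endpoints_eq_of_ne_one (by omega)
  have h3 : bernoulliFun (n + 1) (1 - 0) = (-1) ^ (n + 1) * bernoulliFun (n + 1) 0 :=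
    bernoulliFun_eval_one_sub
  rw [sub_zero, hn.add_one.neg_one_pow, h1] at h3
  have : bernoulliFun (n + 1) 0 = 0 := by linarith
  exact ⟨this, by rw [h1, this]⟩

lemma bern_nonzero (k : ℕ) : ¬ ∀ x ∈ Ioo (0:ℝ) 1, bernoulliFun k x = 0 := by
  induction k with
  | zero =>
    intro h
    have := h (1 / 2) ⟨by norm_num, by norm_num⟩
    simp at this
  | succ k ih =>
    intro h
    apply ih
    intro x hx
    have h1 : bernoulliFun (k + 1) =ᶠ[𝓝 x] fun _ => (0:ℝ) := by
      filter_upwards [isOpen_Ioo.mem_nhds hx] with y hy using h y hy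
    have h2 := (hasDerivAt_bernoulliFun (k + 1) x).congr_of_eventuallyEq h1.symm
    have h3 := h2.unique (hasDerivAt_const x (0:ℝ))
    rw [Nat.add_sub_cancel] at h3
    rcases mul_eq_zero.1 h3 with h4 | h4
    · exfalso
      have : ((k + 1 : ℕ) : ℝ) ≠ 0 := by exact_mod_cast Nat.succ_ne_zero k
      exact this h4
    · exact h4

lemma exists_par {n : ℕ} (hn : Even n) (h2 : 2 ≤ n) : ∃ α : ℝ, Par n α ∧
    ∀ x ∈ Icc (0:ℝ) 1, bernoulliFun (n + 1) α ≤ bernoulliFun (n + 1) x := by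
  obtain ⟨z0, z1⟩ := bern_odd_zero hn h2
  obtain ⟨α, hα, hmin⟩ := (isCompact_Icc (a := (0:ℝ)) (b := 1)).exists_isMinOn ⟨0, by simp⟩
    (continuous_bernoulliFun (n + 1)).continuousOn
  have hmin' : ∀ x ∈ Icc (0:ℝ) 1, bernoulliFun (n + 1) α ≤ bernoulliFun (n + 1) x := fun x hx =>
    hmin hx
  have hneg : bernoulliFun (n + 1) α < 0 := by
    by_contra hcon
    have h0 : 0 ≤ bernoulliFun (n + 1) α := not_lt.1 hcon
    apply bern_nonzero (n + 1)
    intro x hx
    have h3 := hmin' x ⟨hx.1.le, hx.2.le⟩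
    have h4 := hmin' (1 - x) ⟨by linarith [hx.2], by linarith [hx.1]⟩
    rw [bernoulliFun_eval_one_sub, hn.add_one.neg_one_pow] at h4
    linarith
  have hα0 : α ≠ 0 := by
    rintro rfl
    rw [z0] at hneg
    exact lt_irrefl _ hneg
  have hα1 : α ≠ 1 := by
    rintro rfl
    rw [z1] at hneg
    exact lt_irrefl _ hneg
  have hmem : α ∈ Ioo (0:ℝ) 1 := ⟨lt_of_le_of_ne hα.1 (Ne.symm hα0), lt_of_le_of_ne hα.2 hα1⟩
  refine ⟨α, ⟨hn, h2, hmem, ?_⟩, hmin'⟩
  have hloc : IsLocalMin (bernoulliFun (n + 1)) α := by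
    filter_upwards [isOpen_Ioo.mem_nhds hmem] with y hy using hmin' y ⟨hy.1.le, hy.2.le⟩
  have h5 := hloc.hasDerivAt_eq_zero (hasDerivAt_bernoulliFun (n + 1) α)
  rw [Nat.add_sub_cancel] at h5
  rcases mul_eq_zero.1 h5 with h4 | h4
  · exfalso
    have : ((n + 1 : ℕ) : ℝ) ≠ 0 := by exact_mod_cast Nat.succ_ne_zero n
    exact this h4
  · exact h4

/-! ### The asymptotic inequality -/

theorem asymp (hRH : RiemannHypothesis) {n : ℕ} {α : ℝ} (h : Par n α) {s : ℝ} (hs : |s| = 1)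
    (hD : ∀ x, 0 ≤ s * (Dc n α x).re) {ε : ℝ} (hε : 0 < ε) : ∀ᶠ t : ℝ in atTop,
    s * Sn n t ≤ (Real.pi ^ n * (s * (-(bernoulliFun (n + 1) α))) / (2 * (n + 1).factorial) + ε) *
      LamN n t := by
  obtain ⟨C, hC0, hC⟩ := shifted_ineq hRH h hs hD
  obtain ⟨k, hk⟩ : ∃ k, n = k + 2 := ⟨n - 2, by have := h.two; omega⟩
  obtain ⟨C', hC'0, hC'⟩ := shift_cost hRH k
  set κ : ℝ := s * (-(bernoulliFun (n + 1) α) / (n + 1).factorial) with hκ
  have hκV : Real.pi ^ n * (s * (-(bernoulliFun (n + 1) α))) / (2 * (n + 1).factorial) =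
      Real.pi ^ n * κ / 2 := by
    rw [hκ]
    have : ((n + 1).factorial : ℝ) ≠ 0 := by exact_mod_cast Nat.factorial_ne_zero _
    field_simp
  rw [hκV]
  -- choice of δ
  obtain ⟨δ, hδ0, hδ1, hδ⟩ : ∃ δ : ℝ, 0 < δ ∧ δ < 1 / 2 ∧
      (1 / 2) * (Real.pi / (1 - δ)) ^ (n + 1) * κ / Real.pi < Real.pi ^ n * κ / 2 + ε := by
    have hc : Tendsto (fun δ : ℝ => (1 / 2) * (Real.pi / (1 - δ)) ^ (n + 1) * κ / Real.pi) (𝓝[>] 0)
        (𝓝 ((1 / 2) * (Real.pi / (1 - 0)) ^ (n + 1) * κ / Real.pi)) := by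
      have h1 : ContinuousAt (fun δ : ℝ => (1 / 2) * (Real.pi / (1 - δ)) ^ (n + 1) * κ / Real.pi) 0 := by
        have h2 : ContinuousAt (fun δ : ℝ => Real.pi / (1 - δ)) 0 :=
          continuousAt_const.div (by fun_prop) (by norm_num)
        exact ((continuousAt_const.mul (h2.pow _)).mul continuousAt_const).div_const _
      exact h1.tendsto.mono_left nhdsWithin_le_nhds
    have hv : (1 / 2) * (Real.pi / (1 - 0)) ^ (n + 1) * κ / Real.pi < Real.pi ^ n * κ / 2 + ε := by
      have : (1 / 2) * (Real.pi / (1 - 0)) ^ (n + 1) * κ / Real.pi = Real.pi ^ n * κ / 2 := by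
        have := Real.pi_ne_zero
        rw [sub_zero, div_one, pow_succ]
        field_simp
      rw [this]
      linarith
    have h3 := (hc.eventually (gt_mem_nhds hv)).and (Ioo_mem_nhdsGT (show (0:ℝ) < 1 / 2 by norm_num))
    obtain ⟨δ, h4, h5⟩ := h3.exists
    exact ⟨δ, h5.1, h5.2, h4⟩
  have hd1 : 0 < 1 - δ := by linarith
  -- the normalised right-hand side
  set Rt : ℝ → ℝ := fun t => ((Real.log (3 * t / 2) / 2 + C) / Real.log t * ((Real.pi / (1 - δ)) ^ (n + 1)) * κ +
    (C + C') * (Real.log (Real.log t) ^ (n + 1) / Real.log t ^ δ)) / Real.pi with hRt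
  have hlogat : Tendsto Real.log atTop atTop := Real.tendsto_log_atTop
  have hll : Tendsto (fun t : ℝ => Real.log (Real.log t)) atTop atTop := hlogat.comp hlogat
  have hlim : Tendsto Rt atTop (𝓝 ((1 / 2) * (Real.pi / (1 - δ)) ^ (n + 1) * κ / Real.pi)) := by
    have l1 : Tendsto (fun t : ℝ => (Real.log (3 * t / 2) / 2 + C) / Real.log t) atTop (𝓝 (1 / 2)) := by
      have l2 : Tendsto (fun t : ℝ => 1 / 2 + (Real.log (3 / 2) / 2 + C) / Real.log t) atTop
          (𝓝 (1 / 2 + 0)) := (hlogat.const_div_atTop _).const_add _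
      rw [add_zero] at l2
      refine l2.congr' ?_
      filter_upwards [eventually_gt_atTop 1] with t ht
      have h1 : 0 < Real.log t := Real.log_pos ht
      have h2 : Real.log (3 * t / 2) = Real.log (3 / 2) + Real.log t := by
        rw [← Real.log_mul (by norm_num) (by linarith)]
        congr 1
        ring
      rw [h2]
      field_simp
      ring
    have l3 : Tendsto (fun t : ℝ => Real.log (Real.log t) ^ (n + 1) / Real.log t ^ δ) atTop (𝓝 0) := by
      have l4 := (isLittleO_log_rpow_rpow_atTop ((n + 1 : ℕ) : ℝ) hδ0).tendsto_div_nhds_zero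
      refine (l4.comp hlogat).congr' ?_
      filter_upwards [hll.eventually_ge_atTop 0] with t ht
      simp only [Function.comp_apply]
      rw [Real.rpow_natCast]
    have l5 := (((l1.mul_const ((Real.pi / (1 - δ)) ^ (n + 1))).mul_const κ).add
      (l3.const_mul (C + C'))).div_const Real.pi
    rw [mul_zero, add_zero] at l5
    exact l5
  have hev := hlim.eventually (gt_mem_nhds hδ)
  have hΔev := hll.eventually_ge_atTop (Real.pi / (1 - δ))
  have hLev := hlogat.eventually_ge_atTop 1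
  filter_upwards [hev, hΔev, hLev, eventually_ge_atTop 4] with t h1 h2 h3 h4
  set L := Real.log t with hL
  set l := Real.log L with hl
  have hL0 : 0 < L := by linarith
  have hl0 : 0 < l := lt_of_lt_of_le (by positivity) h2
  have ht0 : 0 < t := by linarith
  set Δ : ℝ := (1 - δ) * l / Real.pi with hΔ
  have hpi := Real.pi_pos
  have hΔ1 : 1 ≤ Δ := by
    rw [hΔ, one_le_div hpi]
    rw [div_le_iff₀ hd1] at h2
    linarith
  have hmain := hC t Δ h4 hΔ1
  have hcost := hC' t (1 / t) (by linarith) (by positivity)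
  rw [← hk] at hcost
  have hexp : Real.exp (Real.pi * Δ) = L ^ (1 - δ) := by
    rw [hΔ, mul_div_cancel₀ _ hpi.ne', Real.rpow_def_of_pos hL0, mul_comm]
  rw [hexp] at hmain
  have hinv : (1 / Δ) ^ (n + 1) = (Real.pi / (1 - δ)) ^ (n + 1) / l ^ (n + 1) := by
    rw [← div_pow]
    congr 1
    rw [hΔ]
    field_simp
  rw [hinv] at hmain
  have hmm : mm n (1 / t) t = (I ^ n * F n (((1 / 2 : ℝ) : ℂ) + ((1 / t : ℝ) : ℂ) + t * I)).im := rfl
  rw [← hmm] at hmain
  -- the cost of the shift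
  have hc2 : C' * L * (1 / t) ≤ C' * L ^ (1 - δ) := by
    rw [mul_assoc]
    apply mul_le_mul_of_nonneg_left _ hC'0.le
    rw [mul_one_div, div_le_iff₀ ht0]
    have e1 : L = L ^ (1 - δ) * L ^ δ := by
      rw [← Real.rpow_add hL0]
      norm_num
    have e2 : L ^ δ ≤ t := by
      calc L ^ δ ≤ L ^ (1:ℝ) := Real.rpow_le_rpow_of_exponent_le h3 (by linarith)
        _ = L := Real.rpow_one L
        _ ≤ t := by
          have := Real.log_le_sub_one_of_pos ht0
          linarith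
    calc L = L ^ (1 - δ) * L ^ δ := e1
      _ ≤ L ^ (1 - δ) * t := by
        apply mul_le_mul_of_nonneg_left e2
        exact Real.rpow_nonneg hL0.le _
  have hSn : Real.pi * (s * Sn n t) ≤ s * mm n (1 / t) t + C' * L ^ (1 - δ) := by
    have h5 : |s * (mm n (1 / t) t - Real.pi * Sn n t)| ≤ C' * L ^ (1 - δ) := by
      rw [abs_mul, hs, one_mul]
      exact hcost.trans hc2
    have h6 := (abs_le.1 h5).1
    have h7 : s * (mm n (1 / t) t - Real.pi * Sn n t) = s * mm n (1 / t) t - Real.pi * (s * Sn n t) := by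
      ring
    rw [h7] at h6
    linarith
  have hΛ : 0 < LamN n t := by
    unfold LamN
    rw [← hL, ← hl]
    positivity
  have hfin : Real.pi * (s * Sn n t) ≤ Real.pi * (Rt t * LamN n t) := by
    refine hSn.trans ?_
    have e3 : Real.pi * (Rt t * LamN n t) = (Real.log (3 * t / 2) / 2 + C) *
        ((Real.pi / (1 - δ)) ^ (n + 1) / l ^ (n + 1)) * κ + (C + C') * L ^ (1 - δ) := by
      have e4 : L ^ (1 - δ) = L / L ^ δ := by
        rw [Real.rpow_sub hL0, Real.rpow_one]
      have e5 : 0 < L ^ δ := Real.rpow_pos_of_pos hL0 _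
      simp only [hRt, LamN]
      rw [← hL, ← hl, e4]
      field_simp
    rw [e3]
    linarith
  have h8 : s * Sn n t ≤ Rt t * LamN n t := le_of_mul_le_mul_left hfin hpi
  refine h8.trans ?_
  exact mul_le_mul_of_nonneg_right h1.le hΛ.le

end Pool.Agent.X111.BF
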