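import Mathlib

/-!
# Euler-Maclaurin for the trigamma sum, with the periodic Bernoulli function
-/

set_option autoImplicit false

namespace Pool.Agent.X111.BF

open Complex MeasureTheory Set Filter Topology Finset

/-- the centred periodic Bernoulli function -/
noncomputable def W (m : ℕ) (β u : ℝ) : ℝ :=
  bernoulliFun m (Int.fract (u + β)) - bernoulliFun m β

lemma W_periodic (m : ℕ) (β u : ℝ) : W m β (u + 1) = W m β u := by
  unfold W
  rw [show u + 1 + β = (u + β) + 1 by ring, Int.fract_add_one]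

lemma W_measurable (m : ℕ) (β : ℝ) : Measurable (W m β) := by
  unfold W
  exact ((continuous_bernoulliFun m).measurable.comp
    (measurable_fract.comp (measurable_id.add_const β))).sub_const _

lemma W_bound (m : ℕ) (β : ℝ) : ∃ C : ℝ, 0 < C ∧ ∀ u, |W m β u| ≤ C := by
  obtain ⟨C, hC⟩ := (isCompact_Icc (a := (0:ℝ)) (b := 1)).exists_bound_of_continuousOn
    (continuous_bernoulliFun m).continuousOn
  refine ⟨|C| + |bernoulliFun m β| + 1, by positivity, fun u => ?_⟩
  have h := hC (Int.fract (u + β)) ⟨Int.fract_nonneg _, (Int.fract_lt_one _).le⟩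
  unfold W
  rw [Real.norm_eq_abs] at h
  calc |bernoulliFun m (Int.fract (u + β)) - bernoulliFun m β|
      ≤ |bernoulliFun m (Int.fract (u + β))| + |bernoulliFun m β| := abs_sub _ _
    _ ≤ |C| + |bernoulliFun m β| + 1 := by linarith [le_abs_self C]

lemma Q_deriv (m : ℕ) (c : ℝ) (y : ℂ) (u : ℝ) (h : y + u ≠ 0) :
    HasDerivAt (fun u : ℝ => ∑ j ∈ range (m + 1), (bernoulliFun j (u + c) : ℂ) *
      ((y + u) ^ (j + 1))⁻¹) (-((m + 1) * (bernoulliFun m (u + c) : ℂ) * ((y + u) ^ (m + 2))⁻¹)) u := by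
  have hp : ∀ k : ℕ, HasDerivAt (fun u : ℝ => ((y + u) ^ (k + 1))⁻¹)
      (-((k + 1 : ℕ) : ℂ) * ((y + u) ^ (k + 2))⁻¹) u := by
    intro k
    have h1 : HasDerivAt (fun u : ℝ => (y + (u : ℂ))) 1 u := by
      simpa using (Complex.ofRealCLM.hasDerivAt (x := u)).const_add y
    have h2 := (h1.pow (k + 1)).fun_inv (pow_ne_zero _ h)
    refine h2.congr_deriv ?_
    simp only [Pi.pow_apply, Nat.add_sub_cancel, mul_one]
    field_simp
    ring
  have hb : ∀ k : ℕ, HasDerivAt (fun u : ℝ => (bernoulliFun k (u + c) : ℂ))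
      ((k : ℂ) * (bernoulliFun (k - 1) (u + c) : ℂ)) u := by
    intro k
    have h1 := (hasDerivAt_bernoulliFun k (u + c)).comp_add_const u c
    have h2 := h1.ofReal_comp
    simpa using h2
  induction m with
  | zero =>
    have := (hb 0).mul (hp 0)
    refine (this.congr_deriv ?_).congr_of_eventuallyEq ?_
    · simp
    · refine Eventually.of_forall fun v => ?_
      simp
  | succ m ih =>
    have := ih.add ((hb (m + 1)).mul (hp (m + 1)))
    refine (this.congr_deriv ?_).congr_of_eventuallyEq ?_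
    · simp
      ring
    · refine Eventually.of_forall fun v => ?_
      simp only [Pi.add_apply, Pi.mul_apply]
      rw [Finset.sum_range_succ _ (m + 1)]

lemma Q_int (m : ℕ) (c a b : ℝ) (y : ℂ) (h : ∀ u ∈ uIcc a b, y + (u : ℂ) ≠ 0) :
    ((m : ℂ) + 1) * ∫ u in a..b, (bernoulliFun m (u + c) : ℂ) / (y + u) ^ (m + 2) =
      ∑ j ∈ range (m + 1), (bernoulliFun j (a + c) : ℂ) * ((y + a) ^ (j + 1))⁻¹ -
      ∑ j ∈ range (m + 1), (bernoulliFun j (b + c) : ℂ) * ((y + b) ^ (j + 1))⁻¹ := by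
  have h1 := intervalIntegral.integral_eq_sub_of_hasDerivAt (a := a) (b := b)
    (fun u hu => Q_deriv m c y u (h u hu)) ?_
  · rw [← intervalIntegral.integral_const_mul]
    have h2 : (∫ u in a..b, ((m : ℂ) + 1) * ((bernoulliFun m (u + c) : ℂ) / (y + u) ^ (m + 2))) =
        - ∫ u in a..b, (-((m + 1) * (bernoulliFun m (u + c) : ℂ) * ((y + u) ^ (m + 2))⁻¹)) := by
      rw [← intervalIntegral.integral_neg]
      refine intervalIntegral.integral_congr fun u _ => ?_
      simp only [neg_neg]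
      rw [div_eq_mul_inv]
      ring
    rw [h2, h1]
    ring
  · apply ContinuousOn.intervalIntegrable
    have hc : Continuous fun u : ℝ => (bernoulliFun m (u + c) : ℂ) := by fun_prop
    refine ContinuousOn.neg (ContinuousOn.mul (by fun_prop) ?_)
    refine ContinuousOn.inv₀ (by fun_prop) fun u hu => pow_ne_zero _ (h u hu)

lemma int_pow_Ioi (m : ℕ) {Y : ℝ} (hY : 0 < Y) :
    IntegrableOn (fun u : ℝ => 1 / (Y + u) ^ (m + 2)) (Ioi 0) ∧
    ∫ u in Ioi (0:ℝ), 1 / (Y + u) ^ (m + 2) = 1 / ((m + 1) * Y ^ (m + 1)) := by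
  have hd : ∀ u ∈ Ici (0:ℝ), HasDerivAt (fun u : ℝ => -(1 / ((m + 1 : ℝ) * (Y + u) ^ (m + 1))))
      (1 / (Y + u) ^ (m + 2)) u := by
    intro u hu
    have hpos : 0 < Y + u := by
      have : (0:ℝ) ≤ u := hu
      linarith
    have h1 : HasDerivAt (fun u : ℝ => Y + u) 1 u := by
      simpa using (hasDerivAt_id u).const_add Y
    have h0 : ((m + 1 : ℝ) * ((fun u : ℝ => Y + u) ^ (m + 1)) u) ≠ 0 := by
      simp only [Pi.pow_apply]
      positivity
    have h2 := (((h1.pow (m + 1)).const_mul (m + 1 : ℝ)).fun_inv h0).neg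
    refine (h2.congr_deriv ?_).congr_of_eventuallyEq ?_
    · field_simp
      push_cast
      simp
      ring
    · refine Eventually.of_forall fun v => ?_
      simp
  have hl : Tendsto (fun u : ℝ => -(1 / ((m + 1 : ℝ) * (Y + u) ^ (m + 1)))) atTop (𝓝 0) := by
    have h1 : Tendsto (fun u : ℝ => (m + 1 : ℝ) * (Y + u) ^ (m + 1)) atTop atTop := by
      refine Tendsto.const_mul_atTop (by positivity) ?_
      refine (tendsto_pow_atTop (by omega)).comp ?_
      exact tendsto_atTop_add_const_left _ _ tendsto_id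
    have h2 := (tendsto_inv_atTop_zero.comp h1).neg
    simpa [Function.comp_def] using h2
  have hpos : ∀ u ∈ Ioi (0:ℝ), 0 ≤ 1 / (Y + u) ^ (m + 2) := by
    intro u hu
    have : (0:ℝ) < u := hu
    positivity
  refine ⟨integrableOn_Ioi_deriv_of_nonneg' hd hpos hl, ?_⟩
  rw [integral_Ioi_of_hasDerivAt_of_nonneg' hd hpos hl]
  simp

lemma cone {y : ℂ} (h1 : -1 ≤ y.re) (h2 : 4 ≤ ‖y‖) {u : ℝ} (hu : 0 ≤ u) :
    1 / 2 * (‖y‖ + u) ≤ ‖y + u‖ := by
  apply le_of_sq_le_sq _ (norm_nonneg _)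
  rw [mul_pow, ← Complex.normSq_eq_norm_sq (y + u)]
  have h3 : Complex.normSq (y + u) = ‖y‖ ^ 2 + 2 * y.re * u + u ^ 2 := by
    rw [← Complex.normSq_eq_norm_sq y]
    simp only [Complex.normSq_apply, Complex.add_re, Complex.ofReal_re, Complex.add_im,
      Complex.ofReal_im]
    ring
  rw [h3]
  nlinarith [sq_nonneg (‖y‖ - u), sq_nonneg (u - 4), mul_nonneg (by linarith : 0 ≤ y.re + 1) hu]

lemma int_bound (m : ℕ) (β : ℝ) : ∃ C : ℝ, 0 < C ∧ ∀ (c Y : ℝ) (y : ℂ), 0 < c → 0 < Y →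
    (∀ u : ℝ, 0 ≤ u → c * (Y + u) ≤ ‖y + u‖) →
    IntegrableOn (fun u : ℝ => (W m β u : ℂ) / (y + u) ^ (m + 2)) (Ioi 0) ∧
    ‖∫ u in Ioi (0:ℝ), (W m β u : ℂ) / (y + u) ^ (m + 2)‖ ≤ C / (c ^ (m + 2) * Y ^ (m + 1)) := by
  obtain ⟨C, hC0, hC⟩ := W_bound m β
  refine ⟨C, hC0, fun c Y y hc hY hy => ?_⟩
  obtain ⟨hi, hv⟩ := int_pow_Ioi m hY
  have hb : ∀ u ∈ Ioi (0:ℝ), ‖(W m β u : ℂ) / (y + u) ^ (m + 2)‖ ≤
      C / c ^ (m + 2) * (1 / (Y + u) ^ (m + 2)) := by
    intro u hu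
    have hu0 : (0:ℝ) < u := hu
    rw [norm_div, norm_pow, Complex.norm_real, Real.norm_eq_abs]
    calc |W m β u| / ‖y + u‖ ^ (m + 2) ≤ C / (c * (Y + u)) ^ (m + 2) := by
          apply div_le_div₀ hC0.le (hC u) (by positivity)
          exact pow_le_pow_left₀ (by positivity) (hy u hu0.le) _
      _ = _ := by
          rw [mul_pow]
          field_simp
  have hint : IntegrableOn (fun u : ℝ => (W m β u : ℂ) / (y + u) ^ (m + 2)) (Ioi 0) := by
    refine Integrable.mono' (hi.const_mul (C / c ^ (m + 2))) ?_ ?_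
    · refine AEStronglyMeasurable.restrict ?_
      apply Measurable.aestronglyMeasurable
      exact (Complex.measurable_ofReal.comp (W_measurable m β)).div (by fun_prop)
    · refine (ae_restrict_iff' measurableSet_Ioi).2 (Eventually.of_forall fun u hu => hb u hu)
  refine ⟨hint, ?_⟩
  calc ‖∫ u in Ioi (0:ℝ), (W m β u : ℂ) / (y + u) ^ (m + 2)‖
      ≤ ∫ u in Ioi (0:ℝ), ‖(W m β u : ℂ) / (y + u) ^ (m + 2)‖ := norm_integral_le_integral_norm _
    _ ≤ ∫ u in Ioi (0:ℝ), C / c ^ (m + 2) * (1 / (Y + u) ^ (m + 2)) := by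
        apply setIntegral_mono_on hint.norm (hi.const_mul _) measurableSet_Ioi hb
    _ = C / c ^ (m + 2) * (1 / ((m + 1) * Y ^ (m + 1))) := by
        rw [integral_const_mul, hv]
    _ ≤ C / (c ^ (m + 2) * Y ^ (m + 1)) := by
        rw [div_mul_div_comm, mul_one]
        apply div_le_div_of_nonneg_left hC0.le (by positivity)
        apply mul_le_mul_of_nonneg_left _ (by positivity)
        have : 0 < Y ^ (m + 1) := by positivity
        nlinarith [(Nat.cast_nonneg m : (0:ℝ) ≤ m)]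

end Pool.Agent.X111.BF
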