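import Pool.Agent.X111.BF.Ker1

set_option autoImplicit false

namespace Pool.Agent.X111.BF

open Complex MeasureTheory Set Filter Topology Finset

lemma shift_Ioi {E : Type*} [NormedAddCommGroup E] [NormedSpace ℝ E] (f : ℝ → E) (a c : ℝ) :
    ∫ u in Ioi a, f (u + c) = ∫ u in Ioi (a + c), f u := by
  have h := (measurePreserving_add_right volume c).setIntegral_preimage_emb
    (MeasurableEquiv.addRight c).measurableEmbedding f (Ioi (a + c))
  have h2 : (fun x => x + c) ⁻¹' Ioi (a + c) = Ioi a := by ext; simp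
  rw [h2] at h
  exact h

/-- the value of the trigamma sum given by Euler-Maclaurin -/
noncomputable def R (m : ℕ) (β : ℝ) (y : ℂ) : ℂ :=
  ∑ j ∈ range m, (bernoulliFun j β : ℂ) * (y ^ (j + 1))⁻¹ -
    ((m : ℂ) + 1) * ∫ u in Ioi (0:ℝ), (W m β u : ℂ) / (y + u) ^ (m + 2)

lemma W_unit {m : ℕ} (hm : 2 ≤ m) {β : ℝ} (hβ : β ∈ Ioo (0:ℝ) 1) {y : ℂ}
    (hy : ∀ u : ℝ, 0 ≤ u → y + u ≠ 0) :
    ((m : ℂ) + 1) * ∫ u in (0:ℝ)..1, (W m β u : ℂ) / (y + u) ^ (m + 2) =
      ∑ j ∈ range m, (bernoulliFun j β : ℂ) * (y ^ (j + 1))⁻¹ -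
      ∑ j ∈ range m, (bernoulliFun j β : ℂ) * ((y + 1) ^ (j + 1))⁻¹ - 1 / (y + 1 - β) ^ 2 := by
  obtain ⟨hβ0, hβ1⟩ := hβ
  have hcont : ∀ a b : ℝ, 0 ≤ a → 0 ≤ b → ∀ c : ℝ, IntervalIntegrable
      (fun u : ℝ => ((bernoulliFun m (u + c) : ℂ)) / (y + u) ^ (m + 2)) volume a b := by
    intro a b ha hb c
    apply ContinuousOn.intervalIntegrable
    have hc : Continuous fun u : ℝ => (bernoulliFun m (u + c) : ℂ) := by fun_prop
    refine hc.continuousOn.div (by fun_prop) fun u hu => pow_ne_zero _ (hy u ?_)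
    rcases le_total a b with h | h
    · rw [Set.uIcc_of_le h] at hu; linarith [hu.1]
    · rw [Set.uIcc_of_ge h] at hu; linarith [hu.1]
  have hcontc : ∀ a b : ℝ, 0 ≤ a → 0 ≤ b → IntervalIntegrable
      (fun u : ℝ => ((bernoulliFun m β : ℂ)) / (y + u) ^ (m + 2)) volume a b := by
    intro a b ha hb
    apply ContinuousOn.intervalIntegrable
    refine continuousOn_const.div (by fun_prop) fun u hu => pow_ne_zero _ (hy u ?_)
    rcases le_total a b with h | h
    · rw [Set.uIcc_of_le h] at hu; linarith [hu.1]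
    · rw [Set.uIcc_of_ge h] at hu; linarith [hu.1]
  have e1 : ∫ u in (0:ℝ)..(1 - β), (W m β u : ℂ) / (y + u) ^ (m + 2) =
      (∫ u in (0:ℝ)..(1 - β), (bernoulliFun m (u + β) : ℂ) / (y + u) ^ (m + 2)) -
      ∫ u in (0:ℝ)..(1 - β), (bernoulliFun m β : ℂ) / (y + u) ^ (m + 2) := by
    rw [← intervalIntegral.integral_sub (hcont _ _ le_rfl (by linarith) _)
      (hcontc _ _ le_rfl (by linarith))]
    refine intervalIntegral.integral_congr fun u hu => ?_
    rw [Set.uIcc_of_le (by linarith)] at hu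
    rw [← sub_div]
    congr 1
    unfold W
    rcases lt_or_eq_of_le hu.2 with h | h
    · rw [Int.fract_eq_self.2 ⟨by linarith [hu.1], by linarith⟩]
      push_cast; ring
    · rw [h, show 1 - β + β = (1:ℝ) by ring, Int.fract_one,
        bernoulliFun_endpoints_eq_of_ne_one (by omega : m ≠ 1)]
      push_cast; ring
  have e2 : ∫ u in (1 - β)..(1:ℝ), (W m β u : ℂ) / (y + u) ^ (m + 2) =
      (∫ u in (1 - β)..(1:ℝ), (bernoulliFun m (u + (β - 1)) : ℂ) / (y + u) ^ (m + 2)) -
      ∫ u in (1 - β)..(1:ℝ), (bernoulliFun m β : ℂ) / (y + u) ^ (m + 2) := by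
    rw [← intervalIntegral.integral_sub (hcont _ _ (by linarith) (by linarith) _)
      (hcontc _ _ (by linarith) (by linarith))]
    refine intervalIntegral.integral_congr fun u hu => ?_
    rw [Set.uIcc_of_le (by linarith)] at hu
    rw [← sub_div]
    congr 1
    unfold W
    have : Int.fract (u + β) = u + (β - 1) := by
      rw [Int.fract_eq_iff]
      refine ⟨by linarith [hu.1], by linarith [hu.2], 1, ?_⟩
      push_cast; ring
    rw [this]
    push_cast; ring
  have hW : ∀ a b : ℝ, 0 ≤ a → 0 ≤ b →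
      IntervalIntegrable (fun u : ℝ => (W m β u : ℂ) / (y + u) ^ (m + 2)) volume a b := by
    intro a b ha hb
    obtain ⟨C, hC0, hC⟩ := W_bound m β
    have h1 : IntervalIntegrable (fun u : ℝ => 1 / (y + u) ^ (m + 2)) volume a b := by
      apply ContinuousOn.intervalIntegrable
      refine continuousOn_const.div (by fun_prop) fun u hu => pow_ne_zero _ (hy u ?_)
      rcases le_total a b with h | h
      · rw [Set.uIcc_of_le h] at hu; linarith [hu.1]
      · rw [Set.uIcc_of_ge h] at hu; linarith [hu.1]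
    refine (h1.norm.const_mul C).mono_fun ?_ ?_
    · apply AEStronglyMeasurable.restrict
      apply Measurable.aestronglyMeasurable
      exact (Complex.measurable_ofReal.comp (W_measurable m β)).div (by fun_prop)
    · refine Eventually.of_forall fun u => ?_
      simp only
      rw [norm_div, Complex.norm_real, Real.norm_eq_abs, Real.norm_eq_abs, abs_mul, abs_of_pos hC0,
        abs_norm, norm_div, norm_one, mul_one_div]
      exact div_le_div_of_nonneg_right (hC u) (norm_nonneg _)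
  have hadd := intervalIntegral.integral_add_adjacent_intervals
    (hW 0 (1 - β) le_rfl (by linarith)) (hW (1 - β) 1 (by linarith) (by linarith))
  have hadd2 := intervalIntegral.integral_add_adjacent_intervals
    (hcontc 0 (1 - β) le_rfl (by linarith)) (hcontc (1 - β) 1 (by linarith) (by linarith))
  have q1 := Q_int m β 0 (1 - β) y (fun u hu => hy u (by
    rw [Set.uIcc_of_le (by linarith)] at hu; exact hu.1))
  have q2 := Q_int m (β - 1) (1 - β) 1 y (fun u hu => hy u (by
    rw [Set.uIcc_of_le (by linarith)] at hu; linarith [hu.1]))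
  have q3 : ((m : ℂ) + 1) * ∫ u in (0:ℝ)..1, (bernoulliFun m β : ℂ) / (y + u) ^ (m + 2) =
      (bernoulliFun m β : ℂ) * (y ^ (m + 1))⁻¹ - (bernoulliFun m β : ℂ) * ((y + 1) ^ (m + 1))⁻¹ := by
    have hd : ∀ u ∈ uIcc (0:ℝ) 1, HasDerivAt (fun u : ℝ => -((bernoulliFun m β : ℂ) *
        ((y + u) ^ (m + 1))⁻¹)) (((m : ℂ) + 1) * ((bernoulliFun m β : ℂ) / (y + u) ^ (m + 2))) u := by
      intro u hu
      rw [Set.uIcc_of_le zero_le_one] at hu
      have h := hy u hu.1
      have h1 : HasDerivAt (fun u : ℝ => (y + (u : ℂ))) 1 u := by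
        simpa using (Complex.ofRealCLM.hasDerivAt (x := u)).const_add y
      have h2 := (((h1.pow (m + 1)).fun_inv (pow_ne_zero _ h)).const_mul
        (bernoulliFun m β : ℂ)).neg
      refine h2.congr_deriv ?_
      simp only [Pi.pow_apply, Nat.add_sub_cancel, mul_one]
      field_simp
      push_cast
      ring
    have h3 := intervalIntegral.integral_eq_sub_of_hasDerivAt hd
      ((hcontc 0 1 le_rfl zero_le_one).const_mul _)
    rw [← intervalIntegral.integral_const_mul, h3]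
    simp
    ring
  rw [← hadd, e1, e2]
  have e3 : (y + ((1 - β : ℝ) : ℂ)) = y + 1 - β := by push_cast; ring
  have e4 : ∀ j : ℕ, bernoulliFun j (1 - β + β) = bernoulliFun j 0 + (if j = 1 then 1 else 0) := by
    intro j
    rw [show 1 - β + β = (1:ℝ) by ring, bernoulliFun_eval_one]
  have e5 : ∀ j : ℕ, bernoulliFun j (1 - β + (β - 1)) = bernoulliFun j 0 := by
    intro j
    rw [show 1 - β + (β - 1) = (0:ℝ) by ring]
  have e6 : ∀ j : ℕ, bernoulliFun j (1 + (β - 1)) = bernoulliFun j β := by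
    intro j
    rw [show 1 + (β - 1) = (β:ℝ) by ring]
  have e7 : ∑ j ∈ range (m + 1), ((bernoulliFun j (1 - β + β) : ℝ) : ℂ) * ((y + 1 - β) ^ (j + 1))⁻¹ =
      ∑ j ∈ range (m + 1), ((bernoulliFun j 0 : ℝ) : ℂ) * ((y + 1 - β) ^ (j + 1))⁻¹ +
      1 / (y + 1 - β) ^ 2 := by
    have : ∀ j ∈ range (m + 1), ((bernoulliFun j (1 - β + β) : ℝ) : ℂ) * ((y + 1 - β) ^ (j + 1))⁻¹ =
        ((bernoulliFun j 0 : ℝ) : ℂ) * ((y + 1 - β) ^ (j + 1))⁻¹ +
          (if j = 1 then 1 / (y + 1 - β) ^ 2 else 0) := by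
      intro j _
      rw [e4]
      split_ifs with h
      · subst h
        push_cast
        ring
      · push_cast; ring
    rw [Finset.sum_congr rfl this, Finset.sum_add_distrib]
    congr 1
    rw [Finset.sum_ite_eq' (range (m + 1)) 1 (fun _ => 1 / (y + 1 - (β : ℂ)) ^ 2)]
    rw [if_pos (Finset.mem_range.2 (by omega))]
  rw [e3, e7] at q1
  rw [e3] at q2
  simp only [e5, e6, zero_add, ofReal_zero, add_zero, ofReal_one] at q1 q2
  rw [Finset.sum_range_succ (fun j => ((bernoulliFun j β : ℝ) : ℂ) * (y ^ (j + 1))⁻¹)] at q1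
  rw [Finset.sum_range_succ (fun j => ((bernoulliFun j β : ℝ) : ℂ) * ((y + 1) ^ (j + 1))⁻¹)] at q2
  rw [← hadd2] at q3
  linear_combination q1 + q2 - q3

lemma R_step {m : ℕ} (hm : 2 ≤ m) {β : ℝ} (hβ : β ∈ Ioo (0:ℝ) 1) {y : ℂ} {c Y : ℝ} (hc : 0 < c)
    (hY : 0 < Y) (hy : ∀ u : ℝ, 0 ≤ u → c * (Y + u) ≤ ‖y + u‖) :
    R m β y - R m β (y + 1) = 1 / (y + 1 - β) ^ 2 := by
  obtain ⟨C, hC0, hC⟩ := int_bound m β
  obtain ⟨hi, -⟩ := hC c Y y hc hY hy
  have hne : ∀ u : ℝ, 0 ≤ u → y + u ≠ 0 := by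
    intro u hu h
    have := hy u hu
    rw [h, norm_zero] at this
    have : 0 < c * (Y + u) := by positivity
    linarith
  have h1 : ∫ u in Ioi (0:ℝ), (W m β u : ℂ) / (y + 1 + u) ^ (m + 2) =
      ∫ u in Ioi (1:ℝ), (W m β u : ℂ) / (y + u) ^ (m + 2) := by
    have h := shift_Ioi (fun u : ℝ => (W m β u : ℂ) / (y + u) ^ (m + 2)) 0 1
    rw [zero_add] at h
    rw [← h]
    refine setIntegral_congr_fun measurableSet_Ioi fun u _ => ?_
    rw [W_periodic]
    push_cast
    congr 2
    ring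
  have h2 := intervalIntegral.integral_Ioi_sub_Ioi hi (zero_le_one)
  have h3 := W_unit hm hβ hne
  unfold R
  rw [h1]
  rw [← h2] at h3
  linear_combination -h3

lemma R_tendsto {m : ℕ} {β : ℝ} {y : ℂ} {c Y : ℝ} (hc : 0 < c)
    (hY : 0 < Y) (hy : ∀ u : ℝ, 0 ≤ u → c * (Y + u) ≤ ‖y + u‖) :
    Tendsto (fun N : ℕ => R m β (y + N)) atTop (𝓝 0) := by
  obtain ⟨C, hC0, hC⟩ := int_bound m β
  have hlin : Tendsto (fun N : ℕ => c * (Y + N)) atTop atTop := by
    refine Tendsto.const_mul_atTop hc ?_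
    exact tendsto_atTop_add_const_left _ _ tendsto_natCast_atTop_atTop
  have hn : Tendsto (fun N : ℕ => ‖y + N‖) atTop atTop := by
    refine tendsto_atTop_mono (fun N => ?_) hlin
    simpa using hy N (Nat.cast_nonneg N)
  have h1 : ∀ j : ℕ, Tendsto (fun N : ℕ => ((y + N) ^ (j + 1))⁻¹) atTop (𝓝 0) := by
    intro j
    rw [tendsto_zero_iff_norm_tendsto_zero]
    have : Tendsto (fun N : ℕ => ‖y + N‖ ^ (j + 1)) atTop atTop :=
      (tendsto_pow_atTop (by omega)).comp hn
    simpa [norm_inv, norm_pow, Function.comp_def] using tendsto_inv_atTop_zero.comp this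
  have h2 : Tendsto (fun N : ℕ => ∫ u in Ioi (0:ℝ), (W m β u : ℂ) / (y + N + u) ^ (m + 2)) atTop
      (𝓝 0) := by
    have hb : ∀ N : ℕ, ‖∫ u in Ioi (0:ℝ), (W m β u : ℂ) / (y + N + u) ^ (m + 2)‖ ≤
        C / (c ^ (m + 2) * (Y + N) ^ (m + 1)) := by
      intro N
      refine (hC c (Y + N) (y + N) hc (by positivity) fun u hu => ?_).2
      have := hy (N + u) (by positivity)
      push_cast at this
      rw [← add_assoc, ← add_assoc] at this
      exact this
    refine squeeze_zero_norm hb ?_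
    have : Tendsto (fun N : ℕ => c ^ (m + 2) * (Y + N) ^ (m + 1)) atTop atTop := by
      refine Tendsto.const_mul_atTop (by positivity) ?_
      refine (tendsto_pow_atTop (by omega)).comp ?_
      exact tendsto_atTop_add_const_left _ _ tendsto_natCast_atTop_atTop
    exact this.const_div_atTop C
  unfold R
  have h3 : Tendsto (fun N : ℕ => ∑ j ∈ range m, (bernoulliFun j β : ℂ) * ((y + N) ^ (j + 1))⁻¹)
      atTop (𝓝 (∑ j ∈ range m, (bernoulliFun j β : ℂ) * 0)) :=
    tendsto_finsetSum _ fun j _ => (h1 j).const_mul _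
  simpa using h3.sub (h2.const_mul ((m : ℂ) + 1))

/-- Euler-Maclaurin for the trigamma sum -/
theorem EM {m : ℕ} (hm : 2 ≤ m) {β : ℝ} (hβ : β ∈ Ioo (0:ℝ) 1) {y : ℂ} {c Y : ℝ} (hc : 0 < c)
    (hY : 0 < Y) (hy : ∀ u : ℝ, 0 ≤ u → c * (Y + u) ≤ ‖y + u‖) :
    HasSum (fun k : ℕ => 1 / (y + (k : ℂ) + 1 - β) ^ 2) (R m β y) := by
  have hpart : ∀ N : ℕ, ∑ k ∈ range N, 1 / (y + (k : ℂ) + 1 - β) ^ 2 = R m β y - R m β (y + N) := by
    intro N
    induction N with
    | zero => simp
    | succ N ih =>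
      rw [Finset.sum_range_succ, ih]
      have h := R_step hm hβ (y := y + N) (Y := Y + N) hc (by positivity) (fun u hu => by
        have := hy (N + u) (by positivity)
        push_cast at this
        rw [← add_assoc, ← add_assoc] at this
        exact this)
      have e : y + ((N + 1 : ℕ) : ℂ) = y + N + 1 := by push_cast; ring
      rw [e]
      linear_combination -h
  have hsum : Summable (fun k : ℕ => 1 / (y + (k : ℂ) + 1 - β) ^ 2) := by
    have hs : Summable (fun k : ℕ => (1 / c ^ 2) * (1 / ((k : ℝ) ^ 2))) := by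
      refine Summable.mul_left _ ?_
      exact Real.summable_one_div_nat_pow.2 (by norm_num)
    refine Summable.of_norm_bounded_eventually_nat (g := fun k : ℕ => (1 / c ^ 2) * (1 / ((k : ℝ) ^ 2))) hs ?_
    filter_upwards [eventually_gt_atTop 0] with k hk
    have hk0 : (0:ℝ) < k := by exact_mod_cast hk
    have h := hy (k + (1 - β)) (by linarith [hβ.2])
    have e : y + ((k + (1 - β) : ℝ) : ℂ) = y + (k : ℂ) + 1 - β := by push_cast; ring
    rw [e] at h
    rw [norm_div, norm_one, norm_pow]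
    have h2 : c * k ≤ ‖y + (k : ℂ) + 1 - β‖ := by
      refine le_trans ?_ h
      apply mul_le_mul_of_nonneg_left _ hc.le
      linarith [hβ.2]
    calc 1 / ‖y + (k : ℂ) + 1 - β‖ ^ 2 ≤ 1 / (c * k) ^ 2 := by
          apply one_div_le_one_div_of_le (by positivity)
          exact pow_le_pow_left₀ (by positivity) h2 _
      _ = _ := by rw [mul_pow]; field_simp
  rw [hsum.hasSum_iff_tendsto_nat]
  simp_rw [hpart]
  simpa using (R_tendsto (m := m) (β := β) hc hY hy).const_sub (R m β y)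

end Pool.Agent.X111.BF
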