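import Pool.Agent.X111.BF.Ker1b

set_option autoImplicit false

namespace Pool.Agent.X111.BF

open Complex MeasureTheory Set Filter Topology Finset

/-- `sin (π w) / (π w)` -/
noncomputable def sinc (w : ℂ) : ℂ := dslope (fun w => Complex.sin (Real.pi * w) / Real.pi) 0 w

/-- the square of sinc -/
noncomputable def Sq (w : ℂ) : ℂ := sinc w ^ 2

lemma sinc_of_ne {w : ℂ} (h : w ≠ 0) : sinc w = Complex.sin (Real.pi * w) / (Real.pi * w) := by
  unfold sinc
  rw [dslope_of_ne _ h, slope_def_field]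
  simp
  rw [div_div]

lemma sinc_diff : Differentiable ℂ sinc := by
  rw [← differentiableOn_univ]
  unfold sinc
  have : DifferentiableOn ℂ (fun w : ℂ => Complex.sin (Real.pi * w) / Real.pi) univ := by
    apply Differentiable.differentiableOn
    fun_prop
  exact (Complex.differentiableOn_dslope (univ_mem)).2 this

lemma Sq_diff : Differentiable ℂ Sq := sinc_diff.pow 2

lemma Sq_of_ne {w : ℂ} (h : w ≠ 0) : Sq w = (Complex.sin (Real.pi * w) / Real.pi) ^ 2 * (1 / w ^ 2) := by
  unfold Sq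
  rw [sinc_of_ne h]
  rw [div_pow, div_pow, mul_pow]
  field_simp

lemma Sq_neg (w : ℂ) : Sq (-w) = Sq w := by
  rcases eq_or_ne w 0 with h | h
  · simp [h]
  · rw [Sq_of_ne h, Sq_of_ne (neg_ne_zero.2 h)]
    rw [mul_neg, Complex.sin_neg, neg_div, neg_sq, neg_sq]

lemma norm_sin_le (z : ℂ) : ‖Complex.sin z‖ ≤ Real.exp |z.im| := by
  have h1 : Complex.sin z = (Complex.exp (-z * I) - Complex.exp (z * I)) * I / 2 := rfl
  rw [h1, norm_div, norm_mul, Complex.norm_I, mul_one]
  have h2 : ‖Complex.exp (-z * I)‖ ≤ Real.exp |z.im| := by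
    rw [Complex.norm_exp]
    apply Real.exp_le_exp.2
    simp
    exact le_abs_self _
  have h3 : ‖Complex.exp (z * I)‖ ≤ Real.exp |z.im| := by
    rw [Complex.norm_exp]
    apply Real.exp_le_exp.2
    simp
    exact neg_le_abs _
  have h4 : ‖(2:ℂ)‖ = 2 := by simp
  rw [h4, div_le_iff₀ (by norm_num)]
  calc _ ≤ _ := norm_sub_le _ _
    _ ≤ _ := by linarith

lemma norm_sin_pi_sq_le (z : ℂ) : ‖(Complex.sin (Real.pi * z) / Real.pi) ^ 2‖ ≤
    Real.exp (2 * Real.pi * |z.im|) := by
  have h := norm_sin_le (Real.pi * z)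
  have e : (Real.pi * z : ℂ).im = Real.pi * z.im := by simp
  rw [e, abs_mul, abs_of_pos Real.pi_pos] at h
  rw [norm_pow, norm_div, Complex.norm_real, Real.norm_eq_abs, abs_of_pos Real.pi_pos]
  have h2 : ‖Complex.sin (Real.pi * z)‖ / Real.pi ≤ Real.exp (Real.pi * |z.im|) := by
    rw [div_le_iff₀ Real.pi_pos]
    calc _ ≤ _ := h
      _ ≤ _ := by
        have : 0 < Real.exp (Real.pi * |z.im|) := Real.exp_pos _
        nlinarith [Real.pi_gt_three]
  calc _ ≤ Real.exp (Real.pi * |z.im|) ^ 2 := pow_le_pow_left₀ (by positivity) h2 _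
    _ = _ := by rw [← Real.exp_nat_mul]; congr 1; push_cast; ring

lemma Sq_bound : ∃ C : ℝ, 0 < C ∧ ∀ w : ℂ, ‖Sq w‖ ≤ C * Real.exp (2 * Real.pi * |w.im|) / (1 + ‖w‖) ^ 2 := by
  obtain ⟨C, hC⟩ := (isCompact_closedBall (0:ℂ) 1).exists_bound_of_continuousOn
    Sq_diff.continuous.continuousOn
  refine ⟨4 * (|C| + 1), by positivity, fun w => ?_⟩
  rcases le_total ‖w‖ 1 with h | h
  · have h1 := hC w (by simpa using h)
    rw [le_div_iff₀ (by positivity)]
    have h2 : 1 ≤ Real.exp (2 * Real.pi * |w.im|) := Real.one_le_exp (by positivity)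
    have h3 : (1 + ‖w‖) ^ 2 ≤ 4 := by nlinarith [norm_nonneg w]
    calc ‖Sq w‖ * (1 + ‖w‖) ^ 2 ≤ (|C| + 1) * 4 := by
          apply mul_le_mul _ h3 (by positivity) (by positivity)
          linarith [le_abs_self C]
      _ ≤ 4 * (|C| + 1) * Real.exp (2 * Real.pi * |w.im|) := by nlinarith [abs_nonneg C]
  · have h0 : w ≠ 0 := by
      intro h0
      rw [h0, norm_zero] at h
      linarith
    rw [Sq_of_ne h0, norm_mul, le_div_iff₀ (by positivity)]
    have h1 := norm_sin_pi_sq_le w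
    have h2 : ‖1 / w ^ 2‖ * (1 + ‖w‖) ^ 2 ≤ 4 := by
      rw [norm_div, norm_one, norm_pow, one_div, inv_mul_le_iff₀ (by positivity)]
      nlinarith [norm_nonneg w]
    calc _ = ‖(Complex.sin (Real.pi * w) / Real.pi) ^ 2‖ * (‖1 / w ^ 2‖ * (1 + ‖w‖) ^ 2) := by ring
      _ ≤ Real.exp (2 * Real.pi * |w.im|) * 4 := by
          apply mul_le_mul h1 h2 (by positivity) (by positivity)
      _ ≤ _ := by
          have : 0 < Real.exp (2 * Real.pi * |w.im|) := Real.exp_pos _
          nlinarith [abs_nonneg C]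

lemma Sq_shift_bound (r : ℝ) (hr : 0 ≤ r) : ∃ C : ℝ, 0 < C ∧ ∀ (w : ℂ) (k : ℕ), ‖w‖ ≤ r →
    ‖Sq (w + k)‖ ≤ C * (1 / ((k : ℝ) + 1) ^ 2) := by
  obtain ⟨C, hC0, hC⟩ := Sq_bound
  refine ⟨C * Real.exp (2 * Real.pi * r) * (1 + r) ^ 2, by positivity, fun w k hw => ?_⟩
  have h1 := hC (w + k)
  have him : |(w + k : ℂ).im| ≤ r := by
    have : (w + k : ℂ).im = w.im := by simp
    rw [this]
    exact (Complex.abs_im_le_norm w).trans hw
  have h2 : (k : ℝ) + 1 ≤ (1 + ‖w + k‖) * (1 + r) := by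
    have : (k : ℝ) ≤ ‖w + k‖ + ‖w‖ := by
      have := norm_sub_le (w + k) w
      simpa using this
    nlinarith [norm_nonneg (w + k)]
  calc _ ≤ _ := h1
    _ ≤ C * Real.exp (2 * Real.pi * r) / (1 + ‖w + k‖) ^ 2 := by
        apply div_le_div_of_nonneg_right _ (by positivity)
        apply mul_le_mul_of_nonneg_left _ hC0.le
        apply Real.exp_le_exp.2
        nlinarith [Real.pi_pos]
    _ ≤ _ := by
        rw [mul_one_div, div_le_div_iff₀ (by positivity) (by positivity), mul_assoc _ ((1 + r) ^ 2)]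
        apply mul_le_mul_of_nonneg_left _ (by positivity)
        rw [← mul_pow, mul_comm (1 + r)]
        exact pow_le_pow_left₀ (by positivity) h2 2

lemma summable_inv_sq : Summable (fun k : ℕ => 1 / ((k : ℝ) + 1) ^ 2) := by
  have h := (summable_nat_add_iff (f := fun n : ℕ => 1 / (n : ℝ) ^ 2) 1).2
    (Real.summable_one_div_nat_pow.2 (by norm_num))
  simpa using h

lemma Sq_summable (w : ℂ) : Summable (fun k : ℕ => Sq (w + k)) := by
  obtain ⟨C, hC0, hC⟩ := Sq_shift_bound ‖w‖ (norm_nonneg _)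
  exact Summable.of_norm_bounded (summable_inv_sq.mul_left C) fun k => hC w k le_rfl

/-- the half sum of squared sincs -/
noncomputable def SS (w : ℂ) : ℂ := ∑' k : ℕ, Sq (w + k)

lemma SS_diff : Differentiable ℂ SS := by
  intro w
  obtain ⟨C, hC0, hC⟩ := Sq_shift_bound (‖w‖ + 1) (by positivity)
  have h := differentiableOn_tsum_of_summable_norm (u := fun k : ℕ => C * (1 / ((k : ℝ) + 1) ^ 2))
    (F := fun (k : ℕ) (w : ℂ) => Sq (w + k)) (U := Metric.ball w 1) (summable_inv_sq.mul_left C)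
    (fun k => (Sq_diff.comp (by fun_prop)).differentiableOn) Metric.isOpen_ball
    (fun k v hv => hC v k (by
      have : dist v w < 1 := hv
      rw [dist_eq_norm] at this
      have h2 : ‖v‖ ≤ ‖v - w‖ + ‖w‖ := by simpa using norm_add_le (v - w) w
      linarith))
  exact (h w (Metric.mem_ball_self one_pos)).differentiableAt (Metric.ball_mem_nhds _ one_pos)

lemma sin_shift_sq (w : ℂ) (k : ℤ) : (Complex.sin (Real.pi * (w + k)) / Real.pi) ^ 2 =
    (Complex.sin (Real.pi * w) / Real.pi) ^ 2 := by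
  have hper : Function.Periodic (fun w : ℂ => (Complex.sin (Real.pi * w) / Real.pi) ^ 2) 1 := by
    intro v
    simp only
    rw [mul_add, mul_one, Complex.sin_add_pi, neg_div, neg_sq]
  have := (hper.int_mul k) w
  simpa using this

lemma pi_cot_sum {w : ℂ} (hw : 0 < w.im) :
    (Complex.sin (Real.pi * w) / Real.pi) ^ 2 * ∑' k : ℤ, 1 / (w + k) ^ 2 = 1 := by
  have h := iteratedDerivWithin_cot_pi_mul_eq_mul_tsum_div_pow (k := 1) le_rfl (z := w) hw
  rw [iteratedDerivWithin_one, derivWithin_of_isOpen UpperHalfPlane.isOpen_upperHalfPlaneSet hw] at h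
  have hs : Complex.sin (Real.pi * w) ≠ 0 := by
    intro h0
    rw [Complex.sin_eq_zero_iff] at h0
    obtain ⟨k, hk⟩ := h0
    have h1 := congrArg Complex.im hk
    simp at h1
    have := Real.pi_pos
    nlinarith
  have hd : HasDerivAt (fun x : ℂ => (Real.pi : ℂ) * Complex.cot (Real.pi * x))
      (-(Real.pi : ℂ) ^ 2 / Complex.sin (Real.pi * w) ^ 2) w := by
    have hl : HasDerivAt (fun x : ℂ => (Real.pi : ℂ) * x) Real.pi w := by
      simpa using (hasDerivAt_id w).const_mul (Real.pi : ℂ)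
    have hc := (Complex.hasDerivAt_cos (Real.pi * w)).comp w hl
    have hsn := (Complex.hasDerivAt_sin (Real.pi * w)).comp w hl
    have h2 := (hc.div hsn hs).const_mul (Real.pi : ℂ)
    refine (h2.congr_deriv ?_).congr_of_eventuallyEq ?_
    · simp only [Function.comp_apply]
      have h3 := Complex.sin_sq_add_cos_sq (Real.pi * w)
      field_simp
      linear_combination -h3
    · refine Eventually.of_forall fun x => ?_
      simp [Complex.cot]
  rw [hd.deriv] at h
  have hpi : (Real.pi : ℂ) ≠ 0 := by exact_mod_cast Real.pi_ne_zero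
  simp only [pow_one, Nat.factorial_one, Nat.cast_one, mul_one] at h
  have h5 : ∑' k : ℤ, 1 / (w + k) ^ 2 = (Real.pi : ℂ) ^ 2 / Complex.sin (Real.pi * w) ^ 2 := by
    have : ∑' k : ℤ, 1 / (w + k) ^ (1 + 1) = ∑' k : ℤ, 1 / (w + k) ^ 2 := rfl
    rw [this] at h
    linear_combination h
  rw [h5]
  field_simp

/-- the two half sums add to one -/
lemma SS_add (w : ℂ) : SS (w + 1) + SS (-w) = 1 := by
  -- first on the upper half plane
  have key : ∀ w : ℂ, 0 < w.im → SS (w + 1) + SS (-w) = 1 := by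
    intro w hw
    have hne : ∀ k : ℤ, w + k ≠ 0 := by
      intro k h
      have := congrArg Complex.im h
      simp at this
      linarith
    set s : ℂ := (Complex.sin (Real.pi * w) / Real.pi) ^ 2 with hsdef
    have e1 : ∀ k : ℕ, Sq (w + 1 + k) = s * (1 / (w + ((k + 1 : ℕ) : ℤ)) ^ 2) := by
      intro k
      have e : w + 1 + (k : ℂ) = w + (((k + 1 : ℕ) : ℤ) : ℂ) := by push_cast; ring
      rw [e, Sq_of_ne (hne _), sin_shift_sq]
    have e2 : ∀ k : ℕ, Sq (-w + k) = s * (1 / (w + ((-(k : ℤ)) : ℤ)) ^ 2) := by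
      intro k
      have e : -w + (k : ℂ) = -(w + ((-(k : ℤ) : ℤ) : ℂ)) := by push_cast; ring
      rw [e, Sq_neg, Sq_of_ne (hne _), sin_shift_sq]
    have h1 : HasSum (fun k : ℕ => s * (1 / (w + ((-(k : ℤ)) : ℤ)) ^ 2)) (SS (-w)) := by
      have := (Sq_summable (-w)).hasSum
      simp only [e2] at this
      convert this using 1
      unfold SS
      simp only [e2]
    have h2 : HasSum (fun k : ℕ => s * (1 / (w + ((k + 1 : ℕ) : ℤ)) ^ 2)) (SS (w + 1)) := by
      have := (Sq_summable (w + 1)).hasSum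
      simp only [e1] at this
      convert this using 1
      unfold SS
      simp only [e1]
    have h3 : HasSum (fun k : ℤ => s * (1 / (w + ((-k : ℤ) : ℂ)) ^ 2)) (SS (-w) + SS (w + 1)) := by
      refine HasSum.of_nat_of_neg_add_one (f := fun k : ℤ => s * (1 / (w + ((-k : ℤ) : ℂ)) ^ 2)) h1 ?_
      convert h2 using 1
      funext k
      push_cast
      simp
    have h4 : HasSum (fun k : ℤ => s * (1 / (w + (k : ℂ)) ^ 2)) (SS (-w) + SS (w + 1)) := by
      have := (Equiv.neg ℤ).hasSum_iff (f := fun k : ℤ => s * (1 / (w + (k : ℂ)) ^ 2))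
        (a := SS (-w) + SS (w + 1))
      exact this.1 (by simpa [Function.comp_def] using h3)
    have h5 := h4.tsum_eq
    rw [tsum_mul_left, hsdef, pi_cot_sum hw] at h5
    rw [add_comm]
    exact h5.symm
  have ha : AnalyticOnNhd ℂ (fun w => SS (w + 1) + SS (-w)) univ := by
    apply DifferentiableOn.analyticOnNhd _ isOpen_univ
    apply Differentiable.differentiableOn
    exact (SS_diff.comp (by fun_prop)).add (SS_diff.comp (by fun_prop))
  have hb : AnalyticOnNhd ℂ (fun _ : ℂ => (1:ℂ)) univ := fun _ _ => analyticAt_const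
  have := ha.eq_of_eventuallyEq hb (z₀ := I) ?_
  · exact congrFun this w
  · have : ∀ᶠ w : ℂ in 𝓝 I, 0 < w.im :=
      (isOpen_lt continuous_const Complex.continuous_im).mem_nhds (by simp)
    filter_upwards [this] with v hv using key v hv

end Pool.Agent.X111.BF
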