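import Pool.Agent.X111.BF.Ker2

set_option autoImplicit false

namespace Pool.Agent.X111.BF

open Complex MeasureTheory Set Filter Topology Finset

/-- the factor `(sin (π (z - β)) / π) ^ 2` -/
noncomputable def phi (β : ℝ) (z : ℂ) : ℂ := (Complex.sin (Real.pi * (z - β)) / Real.pi) ^ 2

/-- the entire function whose pieces build the extremal kernel -/
noncomputable def H (n : ℕ) (β : ℝ) (z : ℂ) : ℂ :=
  z ^ n * SS (z + 1 - β) - phi β z * ∑ j ∈ range n, (bernoulliFun j β : ℂ) * z ^ (n - 1 - j)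

lemma phi_diff (β : ℝ) : Differentiable ℂ (phi β) := by
  unfold phi
  fun_prop

lemma H_diff (n : ℕ) (β : ℝ) : Differentiable ℂ (H n β) := by
  unfold H
  refine Differentiable.sub (Differentiable.mul (by fun_prop) (SS_diff.comp (by fun_prop))) ?_
  refine (phi_diff β).mul ?_
  fun_prop

lemma phi_norm (β : ℝ) (z : ℂ) : ‖phi β z‖ ≤ Real.exp (2 * Real.pi * |z.im|) := by
  have := norm_sin_pi_sq_le (z - β)
  simpa [phi] using this

lemma H_formula {n : ℕ} (hn : 1 ≤ n) {β : ℝ} (hβ : β ∈ Ioo (0:ℝ) 1) (hB : bernoulliFun n β = 0)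
    {z : ℂ} {c Y : ℝ} (hc : 0 < c) (hY : 0 < Y) (hz : ∀ u : ℝ, 0 ≤ u → c * (Y + u) ≤ ‖z + u‖) :
    H n β z = - (phi β z * z ^ n * (((n : ℂ) + 2) *
      ∫ u in Ioi (0:ℝ), (W (n + 1) β u : ℂ) / (z + u) ^ (n + 3))) := by
  have hEM := EM (m := n + 1) (by omega) hβ hc hY hz
  have hne : ∀ u : ℝ, 0 ≤ u → z + u ≠ 0 := by
    intro u hu h
    have := hz u hu
    rw [h, norm_zero] at this
    have : 0 < c * (Y + u) := by positivity
    linarith
  have hz0 : z ≠ 0 := by simpa using hne 0 le_rfl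
  have hS : SS (z + 1 - β) = phi β z * R (n + 1) β z := by
    rw [← hEM.tsum_eq, ← tsum_mul_left]
    unfold SS
    refine tsum_congr fun k => ?_
    have hk : z + 1 - β + k ≠ 0 := by
      have := hne ((k : ℝ) + (1 - β)) (by linarith [hβ.2, (Nat.cast_nonneg k : (0:ℝ) ≤ k)])
      intro h
      apply this
      rw [← h]
      push_cast
      ring
    rw [Sq_of_ne hk]
    have e : z + 1 - (β : ℂ) + k = (z - β) + ((k + 1 : ℤ) : ℂ) := by push_cast; ring
    have e2 := sin_shift_sq (z - β) (k + 1)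
    rw [← e] at e2
    rw [e2]
    unfold phi
    congr 3
    ring
  unfold H
  rw [hS]
  unfold R
  rw [Finset.sum_range_succ, hB]
  have h1 : z ^ n * ∑ j ∈ range n, (bernoulliFun j β : ℂ) * (z ^ (j + 1))⁻¹ =
      ∑ j ∈ range n, (bernoulliFun j β : ℂ) * z ^ (n - 1 - j) := by
    rw [Finset.mul_sum]
    refine Finset.sum_congr rfl fun j hj => ?_
    have hj' : j < n := Finset.mem_range.1 hj
    have e : z ^ n = z ^ (n - 1 - j) * z ^ (j + 1) := by
      rw [← pow_add]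
      congr 1
      omega
    rw [e]
    have : z ^ (j + 1) ≠ 0 := pow_ne_zero _ hz0
    field_simp
  rw [← h1]
  push_cast
  ring

lemma H_bound {n : ℕ} (hn : 1 ≤ n) {β : ℝ} (hβ : β ∈ Ioo (0:ℝ) 1) (hB : bernoulliFun n β = 0) :
    ∃ C : ℝ, 0 < C ∧ ∀ z : ℂ, -1 ≤ z.re →
      ‖H n β z‖ ≤ C * Real.exp (2 * Real.pi * |z.im|) / (1 + ‖z‖ ^ 2) := by
  obtain ⟨C1, hC1⟩ := (isCompact_closedBall (0:ℂ) 4).exists_bound_of_continuousOn
    (H_diff n β).continuous.continuousOn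
  obtain ⟨C2, hC20, hC2⟩ := int_bound (n + 1) β
  refine ⟨17 * (|C1| + 1) + 2 * ((n + 2) * (C2 * 2 ^ (n + 3))), by positivity, fun z hz => ?_⟩
  rw [le_div_iff₀ (by positivity)]
  have hexp : 1 ≤ Real.exp (2 * Real.pi * |z.im|) := Real.one_le_exp (by positivity)
  rcases le_total ‖z‖ 4 with h | h
  · have h1 := hC1 z (by simpa using h)
    have h2 : (1 + ‖z‖ ^ 2) ≤ 17 := by nlinarith [norm_nonneg z]
    calc ‖H n β z‖ * (1 + ‖z‖ ^ 2) ≤ (|C1| + 1) * 17 := by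
          apply mul_le_mul _ h2 (by positivity) (by positivity)
          linarith [le_abs_self C1]
      _ ≤ (17 * (|C1| + 1) + 2 * ((n + 2) * (C2 * 2 ^ (n + 3)))) * 1 := by
          have : 0 ≤ 2 * (((n:ℝ) + 2) * (C2 * 2 ^ (n + 3))) := by positivity
          nlinarith
      _ ≤ _ := mul_le_mul_of_nonneg_left hexp (by positivity)
  · have hz0 : 0 < ‖z‖ := by linarith
    have hcone : ∀ u : ℝ, 0 ≤ u → 1 / 2 * (‖z‖ + u) ≤ ‖z + u‖ := fun u hu => cone hz h hu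
    rw [H_formula hn hβ hB (c := 1 / 2) (Y := ‖z‖) (by norm_num) hz0 hcone]
    have h3 := (hC2 (1 / 2) ‖z‖ z (by norm_num) hz0 hcone).2
    have h4 := phi_norm β z
    rw [norm_neg, norm_mul, norm_mul, norm_mul, norm_pow]
    have h5 : ‖(n : ℂ) + 2‖ = n + 2 := by
      have : (n : ℂ) + 2 = ((n + 2 : ℕ) : ℂ) := by push_cast; ring
      rw [this, Complex.norm_natCast]
      push_cast; ring
    rw [h5]
    have h6 : ‖z‖ ^ n * (((n : ℝ) + 2) * ‖∫ u in Ioi (0:ℝ), (W (n + 1) β u : ℂ) / (z + u) ^ (n + 3)‖) *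
        (1 + ‖z‖ ^ 2) ≤ 2 * ((n + 2) * (C2 * 2 ^ (n + 3))) := by
      have h7 : ‖∫ u in Ioi (0:ℝ), (W (n + 1) β u : ℂ) / (z + u) ^ (n + 3)‖ ≤
          (C2 * 2 ^ (n + 3)) / ‖z‖ ^ (n + 2) := by
        refine h3.trans (le_of_eq ?_)
        rw [one_div, inv_pow]
        field_simp
      calc _ ≤ ‖z‖ ^ n * (((n : ℝ) + 2) * ((C2 * 2 ^ (n + 3)) / ‖z‖ ^ (n + 2))) * (2 * ‖z‖ ^ 2) := by
            apply mul_le_mul _ (by nlinarith) (by positivity) (by positivity)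
            gcongr
        _ = _ := by
            rw [pow_add ‖z‖ n 2]
            field_simp
    calc ‖phi β z‖ * ‖z‖ ^ n * (((n : ℝ) + 2) *
          ‖∫ u in Ioi (0:ℝ), (W (n + 1) β u : ℂ) / (z + u) ^ (n + 3)‖) * (1 + ‖z‖ ^ 2)
        = ‖phi β z‖ * (‖z‖ ^ n * (((n : ℝ) + 2) *
          ‖∫ u in Ioi (0:ℝ), (W (n + 1) β u : ℂ) / (z + u) ^ (n + 3)‖) * (1 + ‖z‖ ^ 2)) := by ring
      _ ≤ Real.exp (2 * Real.pi * |z.im|) * (2 * ((n + 2) * (C2 * 2 ^ (n + 3)))) := by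
          apply mul_le_mul h4 h6 (by positivity) (by positivity)
      _ ≤ _ := by
          have : 0 < Real.exp (2 * Real.pi * |z.im|) := Real.exp_pos _
          nlinarith [abs_nonneg C1, mul_nonneg (abs_nonneg C1) this.le]

lemma H_real {n : ℕ} (hn : 1 ≤ n) {β : ℝ} (hβ : β ∈ Ioo (0:ℝ) 1) (hB : bernoulliFun n β = 0)
    {x : ℝ} (hx : 0 < x) :
    H n β x = ((-((Real.sin (Real.pi * (x - β)) / Real.pi) ^ 2 * x ^ n * ((n + 2) *
      ∫ u in Ioi (0:ℝ), W (n + 1) β u / (x + u) ^ (n + 3))) : ℝ) : ℂ) := by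
  rw [H_formula hn hβ hB (c := 1) (Y := x) one_pos hx ?_]
  · unfold phi
    push_cast
    congr 3
    rw [← integral_complex_ofReal]
    refine integral_congr_ae (Eventually.of_forall fun u => ?_)
    push_cast
    rfl
  · intro u hu
    rw [one_mul, ← Complex.ofReal_add, Complex.norm_real]
    exact le_abs_self _

lemma H_zero {n : ℕ} (hn : 1 ≤ n) {β : ℝ} (hβ : β ∈ Ioo (0:ℝ) 1) (hB : bernoulliFun n β = 0)
    (k : ℕ) : H n β ((β + k : ℝ) : ℂ) = 0 := by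
  have hk : (0:ℝ) ≤ k := Nat.cast_nonneg k
  rw [H_real hn hβ hB (by linarith [hβ.1])]
  have : Real.sin (Real.pi * (β + k - β)) = 0 := by
    rw [show Real.pi * (β + k - β) = (k : ℝ) * Real.pi by ring]
    exact Real.sin_nat_mul_pi k
  rw [this]
  simp

lemma H_nonpos {n : ℕ} (hn : 1 ≤ n) {β : ℝ} (hβ : β ∈ Ioo (0:ℝ) 1) (hB : bernoulliFun n β = 0)
    (hmin : ∀ x ∈ Icc (0:ℝ) 1, bernoulliFun (n + 1) β ≤ bernoulliFun (n + 1) x)
    {x : ℝ} (hx : 0 < x) : (H n β x).re ≤ 0 := by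
  rw [H_real hn hβ hB hx, Complex.ofReal_re, neg_nonpos]
  have : 0 ≤ ∫ u in Ioi (0:ℝ), W (n + 1) β u / (x + u) ^ (n + 3) := by
    apply setIntegral_nonneg measurableSet_Ioi
    intro u hu
    have hu0 : (0:ℝ) < u := hu
    apply div_nonneg _ (by positivity)
    unfold W
    have := hmin _ ⟨Int.fract_nonneg (u + β), (Int.fract_lt_one (u + β)).le⟩
    linarith
  positivity

lemma H_nonneg {n : ℕ} (hn : 1 ≤ n) {β : ℝ} (hβ : β ∈ Ioo (0:ℝ) 1) (hB : bernoulliFun n β = 0)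
    (hmax : ∀ x ∈ Icc (0:ℝ) 1, bernoulliFun (n + 1) x ≤ bernoulliFun (n + 1) β)
    {x : ℝ} (hx : 0 < x) : 0 ≤ (H n β x).re := by
  rw [H_real hn hβ hB hx, Complex.ofReal_re]
  have : 0 ≤ ∫ u in Ioi (0:ℝ), -(W (n + 1) β u / (x + u) ^ (n + 3)) := by
    apply setIntegral_nonneg measurableSet_Ioi
    intro u hu
    have hu0 : (0:ℝ) < u := hu
    rw [← neg_div]
    apply div_nonneg _ (by positivity)
    unfold W
    have := hmax _ ⟨Int.fract_nonneg (u + β), (Int.fract_lt_one (u + β)).le⟩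
    linarith
  rw [integral_neg] at this
  rw [← mul_neg, ← mul_neg]
  positivity

lemma H_im {n : ℕ} (hn : 1 ≤ n) {β : ℝ} (hβ : β ∈ Ioo (0:ℝ) 1) (hB : bernoulliFun n β = 0)
    {x : ℝ} (hx : 0 < x) : (H n β x).im = 0 := by
  rw [H_real hn hβ hB hx, Complex.ofReal_im]

lemma H_add {n : ℕ} (hn : Even n) (h1 : 1 ≤ n) (α : ℝ) (z : ℂ) :
    H n α z + H n (1 - α) (-z) = z ^ n := by
  unfold H
  have hS := SS_add (z - α)
  have e1 : z + 1 - (α : ℂ) = z - α + 1 := by ring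
  have e2 : -z + 1 - ((1 - α : ℝ) : ℂ) = -(z - α) := by push_cast; ring
  rw [e1, e2, hn.neg_pow]
  have hphi : phi (1 - α) (-z) = phi α z := by
    unfold phi
    have h2 := sin_shift_sq (-z - ((1 - α : ℝ) : ℂ)) 1
    have e3 : -z - ((1 - α : ℝ) : ℂ) + ((1 : ℤ) : ℂ) = -(z - α) := by push_cast; ring
    rw [e3] at h2
    rw [← h2, mul_neg, Complex.sin_neg, neg_div, neg_sq]
  rw [hphi]
  have hsum : ∑ j ∈ range n, (bernoulliFun j (1 - α) : ℂ) * (-z) ^ (n - 1 - j) =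
      - ∑ j ∈ range n, (bernoulliFun j α : ℂ) * z ^ (n - 1 - j) := by
    rw [← Finset.sum_neg_distrib]
    refine Finset.sum_congr rfl fun j hj => ?_
    have hj' : j < n := Finset.mem_range.1 hj
    rw [bernoulliFun_eval_one_sub]
    rw [neg_pow z]
    push_cast
    have e4 : ((-1 : ℂ)) ^ j * (-1) ^ (n - 1 - j) = -1 := by
      rw [← pow_add]
      have : j + (n - 1 - j) = n - 1 := by omega
      rw [this]
      exact (Nat.Even.sub_odd h1 hn odd_one).neg_one_pow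
    linear_combination ((bernoulliFun j α : ℂ) * z ^ (n - 1 - j)) * e4
  rw [hsum]
  linear_combination (z ^ n) * hS

end Pool.Agent.X111.BF
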