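import Pool.Agent.X111.BF.Ker3

set_option autoImplicit false

namespace Pool.Agent.X111.BF

open Complex MeasureTheory Set Filter Topology Finset

/-- right piece -/
noncomputable def G2 (n : ℕ) (α : ℝ) (z : ℂ) : ℂ := -H n α z
/-- left piece -/
noncomputable def G1 (n : ℕ) (α : ℝ) (z : ℂ) : ℂ := H n (1 - α) (-z)

lemma G2_diff (n : ℕ) (α : ℝ) : Differentiable ℂ (G2 n α) := (H_diff n α).neg
lemma G1_diff (n : ℕ) (α : ℝ) : Differentiable ℂ (G1 n α) := (H_diff n (1 - α)).comp (by fun_prop)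

lemma G_sub {n : ℕ} (hn : Even n) (h1 : 1 ≤ n) (α : ℝ) (z : ℂ) : G1 n α z - G2 n α z = z ^ n := by
  have := H_add hn h1 α z
  unfold G1 G2
  linear_combination this

/-- hypotheses on the parameters -/
structure Par (n : ℕ) (α : ℝ) : Prop where
  even : Even n
  two : 2 ≤ n
  mem : α ∈ Ioo (0:ℝ) 1
  crit : bernoulliFun n α = 0

lemma Par.crit' {n : ℕ} {α : ℝ} (h : Par n α) : bernoulliFun n (1 - α) = 0 := by
  rw [bernoulliFun_eval_one_sub, h.crit, mul_zero]

lemma Par.mem' {n : ℕ} {α : ℝ} (h : Par n α) : 1 - α ∈ Ioo (0:ℝ) 1 :=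
  ⟨by linarith [h.mem.2], by linarith [h.mem.1]⟩

lemma deriv_bound {G : ℂ → ℂ} (hG : Differentiable ℂ G) {C : ℝ} (hC : 0 < C) {z : ℂ}
    (h : ∀ w : ℂ, ‖w - z‖ = 1 → ‖G w‖ ≤ C * Real.exp (2 * Real.pi * |w.im|) / (1 + ‖w‖ ^ 2))
    (j : ℕ) : ‖iteratedDeriv j G z‖ ≤
      (j.factorial * (3 * C * Real.exp (2 * Real.pi))) * Real.exp (2 * Real.pi * |z.im|) / (1 + ‖z‖ ^ 2) := by
  have h1 : ∀ w ∈ Metric.sphere z 1, ‖G w‖ ≤
      (3 * C * Real.exp (2 * Real.pi)) * Real.exp (2 * Real.pi * |z.im|) / (1 + ‖z‖ ^ 2) := by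
    intro w hw
    have hw1 : ‖w - z‖ = 1 := by simpa using hw
    refine (h w hw1).trans ?_
    rw [div_le_div_iff₀ (by positivity) (by positivity)]
    have him : |w.im| ≤ 1 + |z.im| := by
      have h2 : |(w - z).im| ≤ 1 := by
        rw [← hw1]
        exact Complex.abs_im_le_norm _
      have h3 : w.im = (w - z).im + z.im := by simp
      rw [h3]
      exact (abs_add_le _ _).trans (by linarith)
    have hz : 1 + ‖z‖ ^ 2 ≤ 3 * (1 + ‖w‖ ^ 2) := by
      have h2 : ‖z‖ ≤ ‖w‖ + 1 := by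
        have h3 := norm_sub_le w (w - z)
        rw [sub_sub_cancel, hw1] at h3
        exact h3
      nlinarith [norm_nonneg z, norm_nonneg w, sq_nonneg (‖w‖ - 1)]
    have he : Real.exp (2 * Real.pi * |w.im|) ≤
        Real.exp (2 * Real.pi) * Real.exp (2 * Real.pi * |z.im|) := by
      rw [← Real.exp_add]
      apply Real.exp_le_exp.2
      nlinarith [Real.pi_pos]
    calc C * Real.exp (2 * Real.pi * |w.im|) * (1 + ‖z‖ ^ 2)
        ≤ C * (Real.exp (2 * Real.pi) * Real.exp (2 * Real.pi * |z.im|)) * (3 * (1 + ‖w‖ ^ 2)) := by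
          gcongr
      _ = _ := by ring
  have h2 := Complex.norm_iteratedDeriv_le_of_forall_mem_sphere_norm_le j one_pos
    hG.diffContOnCl h1
  refine h2.trans (le_of_eq ?_)
  rw [one_pow]
  ring

lemma G2_bounds {n : ℕ} {α : ℝ} (h : Par n α) (j : ℕ) : ∃ C : ℝ, 0 < C ∧ ∀ z : ℂ, 0 ≤ z.re →
    ‖iteratedDeriv j (G2 n α) z‖ ≤ C * Real.exp (2 * Real.pi * |z.im|) / (1 + ‖z‖ ^ 2) := by
  obtain ⟨C, hC0, hC⟩ := H_bound (by linarith [h.two]) h.mem h.crit
  refine ⟨_, ?_, fun z hz => deriv_bound (G2_diff n α) hC0 (fun w hw => ?_) j⟩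
  · positivity
  · unfold G2
    rw [norm_neg]
    apply hC
    have h2 : |(w - z).re| ≤ 1 := by
      rw [← hw]
      exact Complex.abs_re_le_norm _
    have h3 : w.re = (w - z).re + z.re := by simp
    rw [h3]
    linarith [neg_abs_le (w - z).re]

lemma G1_bounds {n : ℕ} {α : ℝ} (h : Par n α) (j : ℕ) : ∃ C : ℝ, 0 < C ∧ ∀ z : ℂ, z.re ≤ 0 →
    ‖iteratedDeriv j (G1 n α) z‖ ≤ C * Real.exp (2 * Real.pi * |z.im|) / (1 + ‖z‖ ^ 2) := by
  obtain ⟨C, hC0, hC⟩ := H_bound (by linarith [h.two]) h.mem' h.crit'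
  refine ⟨_, ?_, fun z hz => deriv_bound (G1_diff n α) hC0 (fun w hw => ?_) j⟩
  · positivity
  · unfold G1
    have h4 := hC (-w) (by
      have h2 : |(w - z).re| ≤ 1 := by
        rw [← hw]
        exact Complex.abs_re_le_norm _
      have h3 : w.re = (w - z).re + z.re := by simp
      rw [Complex.neg_re, h3]
      linarith [le_abs_self (w - z).re])
    simpa using h4

lemma iterD_diff {G : ℂ → ℂ} (hG : Differentiable ℂ G) (j : ℕ) :
    Differentiable ℂ (iteratedDeriv j G) := by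
  have h : ContDiff ℂ (j + 1 : ℕ) G := hG.contDiff
  exact h.differentiable_iteratedDeriv j (by exact_mod_cast Nat.lt_succ_self j)

lemma iterD_hasDeriv {G : ℂ → ℂ} (hG : Differentiable ℂ G) (j : ℕ) (z : ℂ) :
    HasDerivAt (iteratedDeriv j G) (iteratedDeriv (j + 1) G z) z := by
  rw [iteratedDeriv_succ]
  exact (iterD_diff hG j z).hasDerivAt

lemma iterD_sub {n : ℕ} {α : ℝ} (h : Par n α) (j : ℕ) (z : ℂ) :
    iteratedDeriv j (G1 n α) z - iteratedDeriv j (G2 n α) z = iteratedDeriv j (fun z => z ^ n) z := by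
  have e : (fun z : ℂ => z ^ n) = G1 n α - G2 n α := by
    funext w
    exact (G_sub h.even (by linarith [h.two]) α w).symm
  rw [e, iteratedDeriv_sub]
  · exact (G1_diff n α).contDiff.contDiffAt
  · exact (G2_diff n α).contDiff.contDiffAt

/-- the low frequency kernel -/
noncomputable def K (n : ℕ) (α : ℝ) (z : ℂ) : ℂ := iteratedDeriv (n + 1) (G2 n α) z

lemma K_eq {n : ℕ} {α : ℝ} (h : Par n α) (z : ℂ) : iteratedDeriv (n + 1) (G1 n α) z = K n α z := by
  have h1 := iterD_sub h (n + 1) z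
  have h2 : iteratedDeriv (n + 1) (fun z : ℂ => z ^ n) z = 0 := by
    rw [iteratedDeriv_pow]
    simp
  rw [h2] at h1
  exact sub_eq_zero.1 h1

lemma K_diff (n : ℕ) (α : ℝ) : Differentiable ℂ (K n α) := iterD_diff (G2_diff n α) _

lemma K_bound {n : ℕ} {α : ℝ} (h : Par n α) : ∃ C : ℝ, 0 < C ∧ ∀ z : ℂ,
    ‖K n α z‖ ≤ C * Real.exp (2 * Real.pi * |z.im|) / (1 + ‖z‖ ^ 2) := by
  obtain ⟨C1, h10, h1⟩ := G1_bounds h (n + 1)
  obtain ⟨C2, h20, h2⟩ := G2_bounds h (n + 1)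
  refine ⟨C1 + C2, by positivity, fun z => ?_⟩
  rcases le_total 0 z.re with hz | hz
  · refine (h2 z hz).trans ?_
    gcongr
    linarith
  · rw [← K_eq h]
    refine (h1 z hz).trans ?_
    gcongr
    linarith

/-- the boundary form -/
noncomputable def Bd (m : ℕ) (G : ℂ → ℂ) (f : ℕ → ℂ → ℂ) (z : ℂ) : ℂ :=
  ∑ j ∈ range m, (-1 : ℂ) ^ j * iteratedDeriv j G z * f (m - 1 - j) z

lemma Bd_deriv {m : ℕ} {G : ℂ → ℂ} (hG : Differentiable ℂ G) {f : ℕ → ℂ → ℂ} {u : ℝ}
    (hf : ∀ j < m, HasDerivAt (fun v : ℝ => f j v) (f (j + 1) u) u) :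
    HasDerivAt (fun v : ℝ => Bd m G f v)
      (G u * f m u - (-1) ^ m * iteratedDeriv m G u * f 0 u) u := by
  have h1 : ∀ j ∈ range m, HasDerivAt
      (fun v : ℝ => (-1 : ℂ) ^ j * iteratedDeriv j G v * f (m - 1 - j) v)
      ((-1 : ℂ) ^ j * iteratedDeriv j G u * f (m - j) u -
        (-1 : ℂ) ^ (j + 1) * iteratedDeriv (j + 1) G u * f (m - (j + 1)) u) u := by
    intro j hj
    have hj' : j < m := Finset.mem_range.1 hj
    have h2 : HasDerivAt (fun v : ℝ => iteratedDeriv j G v) (iteratedDeriv (j + 1) G u) u :=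
      (iterD_hasDeriv hG j u).comp_ofReal
    have h3 := (h2.const_mul ((-1 : ℂ) ^ j)).mul (hf (m - 1 - j) (by omega))
    refine h3.congr_deriv ?_
    rw [show m - 1 - j + 1 = m - j by omega, show m - (j + 1) = m - 1 - j by omega]
    ring
  have h4 := HasDerivAt.fun_sum h1
  rw [Finset.sum_range_sub'] at h4
  unfold Bd
  refine h4.congr_deriv ?_
  simp

lemma ibp {m : ℕ} {G : ℂ → ℂ} (hG : Differentiable ℂ G) {f : ℕ → ℂ → ℂ} {a b : ℝ}
    (hf : ∀ u ∈ uIcc a b, ∀ j < m, HasDerivAt (fun v : ℝ => f j v) (f (j + 1) u) u)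
    (hm : ContinuousOn (fun v : ℝ => f m v) (uIcc a b))
    (h0 : ContinuousOn (fun v : ℝ => f 0 v) (uIcc a b)) :
    ∫ u in a..b, G u * f m u = Bd m G f b - Bd m G f a +
      (-1) ^ m * ∫ u in a..b, iteratedDeriv m G u * f 0 u := by
  have hc : ∀ {g : ℂ → ℂ}, Differentiable ℂ g → ∀ s : Set ℝ, ContinuousOn (fun v : ℝ => g v) s :=
    fun hg s => (hg.continuous.comp Complex.continuous_ofReal).continuousOn
  have i1 : IntervalIntegrable (fun u : ℝ => G u * f m u) volume a b :=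
    ((hc hG _).mul hm).intervalIntegrable
  have i2 : IntervalIntegrable (fun u : ℝ => (-1) ^ m * (iteratedDeriv m G u * f 0 u)) volume a b :=
    (continuousOn_const.mul ((hc (iterD_diff hG m) _).mul h0)).intervalIntegrable
  have h := intervalIntegral.integral_eq_sub_of_hasDerivAt (a := a) (b := b)
    (f := fun v : ℝ => Bd m G f v)
    (f' := fun u : ℝ => G u * f m u - (-1) ^ m * (iteratedDeriv m G u * f 0 u))
    (fun u hu => (Bd_deriv hG (hf u hu)).congr_deriv (by ring)) (i1.sub i2)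
  rw [intervalIntegral.integral_sub i1 i2, intervalIntegral.integral_const_mul] at h
  linear_combination h

/-- the main identity -/
lemma main_id {n : ℕ} {α : ℝ} (h : Par n α) {X : ℝ} (hX : 0 ≤ X) {f : ℕ → ℂ → ℂ}
    (hf : ∀ u ∈ Icc (-X) X, ∀ j < n + 1, HasDerivAt (fun v : ℝ => f j v) (f (j + 1) u) u)
    (hm : ContinuousOn (fun v : ℝ => f (n + 1) v) (Icc (-X) X)) :
    (n.factorial : ℂ) * f 0 0 = (∫ u in (-X)..X, K n α u * f 0 u) +
      (∫ u in (-X)..(0:ℝ), G1 n α u * f (n + 1) u) + (∫ u in (0:ℝ)..X, G2 n α u * f (n + 1) u) -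
      Bd (n + 1) (G2 n α) f X + Bd (n + 1) (G1 n α) f (-X) := by
  have h0 : ContinuousOn (fun v : ℝ => f 0 v) (Icc (-X) X) := fun u hu =>
    (hf u hu 0 (by omega)).continuousAt.continuousWithinAt
  have s1 : uIcc (-X) 0 ⊆ Icc (-X) X := by
    rw [Set.uIcc_of_le (by linarith)]
    exact Icc_subset_Icc_right hX
  have s2 : uIcc 0 X ⊆ Icc (-X) X := by
    rw [Set.uIcc_of_le hX]
    exact Icc_subset_Icc_left (by linarith)
  have I1 := ibp (G1_diff n α) (fun u hu => hf u (s1 hu)) (hm.mono s1) (h0.mono s1)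
  have I2 := ibp (G2_diff n α) (fun u hu => hf u (s2 hu)) (hm.mono s2) (h0.mono s2)
  have hodd : ((-1 : ℂ)) ^ (n + 1) = -1 := (h.even.add_one).neg_one_pow
  have hc : Continuous (fun v : ℝ => K n α v) :=
    (K_diff n α).continuous.comp Complex.continuous_ofReal
  have hadd := intervalIntegral.integral_add_adjacent_intervals (μ := volume)
    (f := fun u : ℝ => K n α u * f 0 u) (a := -X) (b := 0) (c := X)
    ((hc.continuousOn.mul (h0.mono s1)).intervalIntegrable)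
    ((hc.continuousOn.mul (h0.mono s2)).intervalIntegrable)
  have hB : Bd (n + 1) (G1 n α) f 0 - Bd (n + 1) (G2 n α) f 0 = (n.factorial : ℂ) * f 0 0 := by
    unfold Bd
    rw [← Finset.sum_sub_distrib]
    have : ∀ j ∈ range (n + 1), (-1 : ℂ) ^ j * iteratedDeriv j (G1 n α) 0 * f (n + 1 - 1 - j) 0 -
        (-1 : ℂ) ^ j * iteratedDeriv j (G2 n α) 0 * f (n + 1 - 1 - j) 0 =
        if j = n then (n.factorial : ℂ) * f 0 0 else 0 := by
      intro j hj
      have h1 := iterD_sub h j 0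
      rw [iteratedDeriv_fun_pow_zero] at h1
      split_ifs with hjn
      · subst hjn
        simp only [if_true] at h1
        rw [h.even.neg_one_pow, show j + 1 - 1 - j = 0 by omega]
        linear_combination (f 0 0) * h1
      · rw [if_neg hjn] at h1
        push_cast at h1
        linear_combination ((-1 : ℂ) ^ j * f (n + 1 - 1 - j) 0) * h1
    rw [Finset.sum_congr rfl this, Finset.sum_ite_eq' (range (n + 1)) n
      (fun _ => (n.factorial : ℂ) * f 0 0), if_pos (Finset.mem_range.2 (by omega))]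
  have hK1 : ∫ u in (-X)..(0:ℝ), iteratedDeriv (n + 1) (G1 n α) u * f 0 u =
      ∫ u in (-X)..(0:ℝ), K n α u * f 0 u := by
    refine intervalIntegral.integral_congr fun u _ => ?_
    simp only [K_eq h]
  rw [hK1, hodd] at I1
  have hK2 : ∫ u in (0:ℝ)..X, iteratedDeriv (n + 1) (G2 n α) u * f 0 u =
      ∫ u in (0:ℝ)..X, K n α u * f 0 u := rfl
  rw [hK2, hodd] at I2
  rw [← hadd, I1, I2]
  push_cast
  linear_combination -hB

end Pool.Agent.X111.BF
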