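import Pool.Agent.X111.BF.Ker4

set_option autoImplicit false

namespace Pool.Agent.X111.BF

open Complex MeasureTheory Set Filter Topology Finset FourierTransform

/-- the difference between the entire function and the truncated power -/
noncomputable def Dc (n : ℕ) (α x : ℝ) : ℂ := if 0 ≤ x then G2 n α x else G1 n α x

lemma G_zero {n : ℕ} {α : ℝ} (h : Par n α) : G1 n α 0 = G2 n α 0 := by
  have := G_sub h.even (by linarith [h.two]) α 0
  rw [zero_pow (by have := h.two; omega)] at this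
  exact sub_eq_zero.1 this

lemma Dc_cont {n : ℕ} {α : ℝ} (h : Par n α) : Continuous (Dc n α) := by
  unfold Dc
  refine Continuous.if_le ?_ ?_ continuous_const continuous_id ?_
  · exact (G2_diff n α).continuous.comp Complex.continuous_ofReal
  · exact (G1_diff n α).continuous.comp Complex.continuous_ofReal
  · intro x hx
    rw [← hx]
    simpa using (G_zero h).symm

lemma Dc_left {n : ℕ} {α : ℝ} (h : Par n α) {x : ℝ} (hx : x ≤ 0) : Dc n α x = G1 n α x := by
  unfold Dc
  split_ifs with h1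
  · have : x = 0 := le_antisymm hx h1
    rw [this]
    simpa using (G_zero h).symm
  · rfl

lemma Dc_right {n : ℕ} {α : ℝ} {x : ℝ} (hx : 0 ≤ x) : Dc n α x = G2 n α x := by
  unfold Dc
  rw [if_pos hx]

lemma Dc_bound {n : ℕ} {α : ℝ} (h : Par n α) : ∃ C : ℝ, 0 < C ∧ ∀ x : ℝ,
    ‖Dc n α x‖ ≤ C * (1 + x ^ 2)⁻¹ := by
  obtain ⟨C1, h10, h1⟩ := G1_bounds h 0
  obtain ⟨C2, h20, h2⟩ := G2_bounds h 0
  refine ⟨C1 + C2, by positivity, fun x => ?_⟩
  have hn : ‖(x : ℂ)‖ ^ 2 = x ^ 2 := by
    rw [Complex.norm_real, Real.norm_eq_abs, sq_abs]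
  rcases le_total 0 x with hx | hx
  · rw [Dc_right hx]
    have := h2 x (by simpa using hx)
    rw [iteratedDeriv_zero, hn] at this
    simp only [Complex.ofReal_im, abs_zero, mul_zero, Real.exp_zero, mul_one] at this
    refine this.trans ?_
    rw [div_eq_mul_inv]
    gcongr
    linarith
  · rw [Dc_left h hx]
    have := h1 x (by simpa using hx)
    rw [iteratedDeriv_zero, hn] at this
    simp only [Complex.ofReal_im, abs_zero, mul_zero, Real.exp_zero, mul_one] at this
    refine this.trans ?_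
    rw [div_eq_mul_inv]
    gcongr
    linarith

lemma Dc_int {n : ℕ} {α : ℝ} (h : Par n α) : Integrable (Dc n α) := by
  obtain ⟨C, hC0, hC⟩ := Dc_bound h
  exact Integrable.mono' (integrable_inv_one_add_sq.const_mul C)
    (Dc_cont h).aestronglyMeasurable (Eventually.of_forall hC)

lemma K_real_bound {n : ℕ} {α : ℝ} (h : Par n α) : ∃ C : ℝ, 0 < C ∧ ∀ x : ℝ,
    ‖K n α x‖ ≤ C * (1 + x ^ 2)⁻¹ := by
  obtain ⟨C, hC0, hC⟩ := K_bound h
  refine ⟨C, hC0, fun x => ?_⟩
  have := hC x
  have hn : ‖(x : ℂ)‖ ^ 2 = x ^ 2 := by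
    rw [Complex.norm_real, Real.norm_eq_abs, sq_abs]
  rw [hn] at this
  simpa [div_eq_mul_inv] using this

lemma K_int {n : ℕ} {α : ℝ} (h : Par n α) : Integrable (fun x : ℝ => K n α x) := by
  obtain ⟨C, hC0, hC⟩ := K_real_bound h
  exact Integrable.mono' (integrable_inv_one_add_sq.const_mul C)
    ((K_diff n α).continuous.comp Complex.continuous_ofReal).aestronglyMeasurable
    (Eventually.of_forall hC)

/-- rectangle contour shift -/
lemma rect {f : ℂ → ℂ} {X v : ℝ} (hf : DifferentiableOn ℂ f (uIcc (-X) X ×ℂ uIcc 0 v)) :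
    ∫ x in (-X)..X, f x = (∫ x in (-X)..X, f (x + v * I)) - I * (∫ y in (0:ℝ)..v, f (X + y * I)) +
      I * (∫ y in (0:ℝ)..v, f (-X + y * I)) := by
  have h := Complex.integral_boundary_rect_eq_zero_of_differentiableOn f (-X : ℂ) (X + v * I)
    (by simpa using hf)
  simp at h
  linear_combination h

/-- exponential -/
noncomputable def ex (k : ℝ) (z : ℂ) : ℂ := Complex.exp (-(2 * Real.pi * k * I) * z)

lemma ex_norm (k : ℝ) (z : ℂ) : ‖ex k z‖ = Real.exp (2 * Real.pi * k * z.im) := by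
  unfold ex
  rw [Complex.norm_exp]
  congr 1
  simp

lemma K_shift_bound {n : ℕ} {α : ℝ} (h : Par n α) : ∃ C : ℝ, 0 < C ∧ ∀ (k x y : ℝ),
    1 ≤ |k| → k * y ≤ 0 → ‖K n α (x + y * I) * ex k (x + y * I)‖ ≤ C * (1 + x ^ 2 + y ^ 2)⁻¹ := by
  obtain ⟨C, hC0, hC⟩ := K_bound h
  refine ⟨C, hC0, fun k x y hk hy => ?_⟩
  rw [norm_mul, ex_norm]
  have h1 := hC (x + y * I)
  have him : (x + y * I : ℂ).im = y := by simp
  have hre : (x + y * I : ℂ).re = x := by simp
  have hn : ‖(x + y * I : ℂ)‖ ^ 2 = x ^ 2 + y ^ 2 := by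
    rw [← Complex.normSq_eq_norm_sq, Complex.normSq_apply, him, hre]
    ring
  rw [him, hn, ← add_assoc] at h1
  rw [him]
  have h2 : |y| + k * y ≤ 0 := by
    have : k * y = -(|k| * |y|) := by
      rw [← abs_mul, abs_of_nonpos hy]
      ring
    rw [this]
    nlinarith [abs_nonneg y]
  calc ‖K n α (x + y * I)‖ * Real.exp (2 * Real.pi * k * y)
      ≤ C * Real.exp (2 * Real.pi * |y|) / (1 + x ^ 2 + y ^ 2) * Real.exp (2 * Real.pi * k * y) := by
        gcongr
    _ = C * (1 + x ^ 2 + y ^ 2)⁻¹ * Real.exp (2 * Real.pi * (|y| + k * y)) := by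
        rw [show 2 * Real.pi * (|y| + k * y) = 2 * Real.pi * |y| + 2 * Real.pi * k * y by ring,
          Real.exp_add]
        ring
    _ ≤ C * (1 + x ^ 2 + y ^ 2)⁻¹ * 1 := by
        apply mul_le_mul_of_nonneg_left _ (by positivity)
        apply Real.exp_le_one_iff.2
        nlinarith [Real.pi_pos]
    _ = _ := mul_one _

lemma tail_tendsto : Tendsto (fun v : ℝ => ∫ x : ℝ, (1 + x ^ 2 + v ^ 2)⁻¹) atTop (𝓝 0) := by
  have h0 : (0:ℝ) = ∫ x : ℝ, (0:ℝ) := by simp
  rw [h0]
  refine tendsto_integral_filter_of_dominated_convergence (fun x : ℝ => (1 + x ^ 2)⁻¹) ?_ ?_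
    integrable_inv_one_add_sq ?_
  · refine Eventually.of_forall fun v => ?_
    apply Continuous.aestronglyMeasurable
    refine Continuous.inv₀ (by fun_prop) fun x => by positivity
  · refine Eventually.of_forall fun v => Eventually.of_forall fun x => ?_
    rw [Real.norm_eq_abs, abs_of_pos (by positivity)]
    apply inv_anti₀ (by positivity)
    nlinarith [sq_nonneg v]
  · refine Eventually.of_forall fun x => ?_
    apply tendsto_inv_atTop_zero.comp
    apply tendsto_atTop_add_const_left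
    exact tendsto_pow_atTop (by norm_num)

lemma J_int {n : ℕ} {α : ℝ} (h : Par n α) (k : ℝ) :
    Integrable (fun x : ℝ => K n α x * ex k x) := by
  refine (K_int h).mul_bdd (c := 1) ?_ (Eventually.of_forall fun x => ?_)
  · apply Continuous.aestronglyMeasurable
    unfold ex
    fun_prop
  · rw [ex_norm]
    simp

lemma K_hat {n : ℕ} {α : ℝ} (h : Par n α) {k : ℝ} (hk : 1 ≤ |k|) :
    ∫ x : ℝ, K n α x * ex k x = 0 := by
  obtain ⟨C, hC0, hC⟩ := K_shift_bound h
  obtain ⟨σ, hσ, hσ1⟩ : ∃ σ : ℝ, k * σ ≤ 0 ∧ |σ| = 1 := by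
    rcases le_total 0 k with h0 | h0
    · exact ⟨-1, by linarith, by simp⟩
    · exact ⟨1, by linarith, by simp⟩
  have hσ2 : σ ^ 2 = 1 := by rw [← sq_abs, hσ1]; norm_num
  have hint : ∀ v : ℝ, Integrable (fun x : ℝ => (1 + x ^ 2 + v ^ 2)⁻¹) := by
    intro v
    refine Integrable.mono' integrable_inv_one_add_sq ?_ (Eventually.of_forall fun x => ?_)
    · apply Continuous.aestronglyMeasurable
      refine Continuous.inv₀ (by fun_prop) fun x => by positivity
    · rw [Real.norm_eq_abs, abs_of_pos (by positivity)]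
      apply inv_anti₀ (by positivity)
      nlinarith [sq_nonneg v]
  have hdiff : Differentiable ℂ (fun z => K n α z * ex k z) := by
    refine (K_diff n α).mul ?_
    unfold ex
    fun_prop
  -- finite bound
  have h1 : ∀ v X : ℝ, 0 ≤ v → 0 ≤ X → ‖∫ x in (-X)..X, K n α x * ex k x‖ ≤
      C * (∫ x : ℝ, (1 + x ^ 2 + v ^ 2)⁻¹) + 2 * (C * (1 + X ^ 2)⁻¹ * v) := by
    intro v X hv hX
    have hr := rect (f := fun z => K n α z * ex k z) (X := X) (v := σ * v) hdiff.differentiableOn
    rw [hr]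
    have hkv : ∀ y ∈ uIcc 0 (σ * v), k * y ≤ 0 := by
      intro y hy
      rcases le_total 0 σ with h0 | h0
      · have : σ = 1 := by rw [← hσ1, abs_of_nonneg h0]
        rw [this, one_mul, Set.uIcc_of_le hv] at hy
        rw [this] at hσ
        nlinarith [hy.1]
      · have : σ = -1 := by
          rw [abs_of_nonpos h0] at hσ1
          linarith
        rw [this, Set.uIcc_of_ge (by linarith)] at hy
        rw [this] at hσ
        nlinarith [hy.2]
    have a1 : ‖∫ x in (-X)..X, K n α (x + ((σ * v : ℝ) : ℂ) * I) * ex k (x + ((σ * v : ℝ) : ℂ) * I)‖ ≤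
        C * (∫ x : ℝ, (1 + x ^ 2 + v ^ 2)⁻¹) := by
      rw [intervalIntegral.integral_of_le (by linarith)]
      calc _ ≤ ∫ x in Ioc (-X) X, C * (1 + x ^ 2 + v ^ 2)⁻¹ := by
            refine norm_integral_le_of_norm_le ((hint v).const_mul C).integrableOn ?_
            refine Eventually.of_forall fun x => ?_
            have := hC k x (σ * v) hk (hkv _ right_mem_uIcc)
            rwa [mul_pow, hσ2, one_mul] at this
        _ ≤ ∫ x : ℝ, C * (1 + x ^ 2 + v ^ 2)⁻¹ := by
            apply setIntegral_le_integral ((hint v).const_mul C)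
            exact Eventually.of_forall fun x => by
              simp only [Pi.zero_apply]
              positivity
        _ = _ := integral_const_mul _ _
    have hside : ∀ Y : ℝ, Y ^ 2 = X ^ 2 →
        ‖∫ y in (0:ℝ)..(σ * v), K n α (Y + y * I) * ex k (Y + y * I)‖ ≤ C * (1 + X ^ 2)⁻¹ * v := by
      intro Y hY
      have := intervalIntegral.norm_integral_le_of_norm_le_const (a := 0) (b := σ * v)
        (C := C * (1 + X ^ 2)⁻¹) (f := fun y : ℝ => K n α (Y + y * I) * ex k (Y + y * I)) ?_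
      · rw [sub_zero, abs_mul, hσ1, one_mul, abs_of_nonneg hv] at this
        exact this
      · intro y hy
        refine (hC k Y y hk (hkv y (uIoc_subset_uIcc hy))).trans ?_
        apply mul_le_mul_of_nonneg_left _ hC0.le
        apply inv_anti₀ (by positivity)
        rw [hY]
        nlinarith [sq_nonneg y]
    have a2 := hside X rfl
    have a3 := hside (-X) (by ring)
    push_cast at a3
    calc _ ≤ _ := norm_add_le _ _
      _ ≤ _ := add_le_add_left (norm_sub_le _ _) _
      _ ≤ _ := by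
        rw [norm_mul, norm_mul, Complex.norm_I, one_mul, one_mul]
        linarith
  have h2 : ∀ v : ℝ, 0 ≤ v → ‖∫ x : ℝ, K n α x * ex k x‖ ≤ C * (∫ x : ℝ, (1 + x ^ 2 + v ^ 2)⁻¹) := by
    intro v hv
    have t1 := (intervalIntegral_tendsto_integral (J_int h k) tendsto_neg_atTop_atBot
      (tendsto_id (α := ℝ) (x := atTop))).norm
    have t2 : Tendsto (fun X : ℝ => C * (∫ x : ℝ, (1 + x ^ 2 + v ^ 2)⁻¹) +
        2 * (C * (1 + X ^ 2)⁻¹ * v)) atTop (𝓝 (C * (∫ x : ℝ, (1 + x ^ 2 + v ^ 2)⁻¹) +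
        2 * (C * 0 * v))) := by
      refine Tendsto.const_add _ (Tendsto.const_mul _ (Tendsto.mul_const _ (Tendsto.const_mul _ ?_)))
      apply tendsto_inv_atTop_zero.comp
      apply tendsto_atTop_add_const_left
      exact tendsto_pow_atTop (by norm_num)
    have := le_of_tendsto_of_tendsto t1 t2 (by
      filter_upwards [eventually_ge_atTop 0] with X hX using h1 v X hv hX)
    simpa using this
  have h3 : ‖∫ x : ℝ, K n α x * ex k x‖ ≤ C * 0 := by
    refine ge_of_tendsto (tail_tendsto.const_mul C) ?_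
    filter_upwards [eventually_ge_atTop 0] with v hv using h2 v hv
  rw [mul_zero] at h3
  exact norm_le_zero_iff.1 h3

end Pool.Agent.X111.BF
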