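import Pool.Agent.X111.BF.Ker5

set_option autoImplicit false

namespace Pool.Agent.X111.BF

open Complex MeasureTheory Set Filter Topology Finset FourierTransform

lemma split_D {n : ℕ} {α : ℝ} (h : Par n α) {X : ℝ} (hX : 0 ≤ X) {g : ℝ → ℂ}
    (hg : ContinuousOn g (Icc (-X) X)) :
    (∫ u in (-X)..(0:ℝ), G1 n α u * g u) + (∫ u in (0:ℝ)..X, G2 n α u * g u) =
      ∫ u in (-X)..X, Dc n α u * g u := by
  have s1 : uIcc (-X) 0 ⊆ Icc (-X) X := by
    rw [Set.uIcc_of_le (by linarith)]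
    exact Icc_subset_Icc_right hX
  have s2 : uIcc 0 X ⊆ Icc (-X) X := by
    rw [Set.uIcc_of_le hX]
    exact Icc_subset_Icc_left (by linarith)
  have hadd := intervalIntegral.integral_add_adjacent_intervals (μ := volume)
    (f := fun u : ℝ => Dc n α u * g u) (a := -X) (b := 0) (c := X)
    (((Dc_cont h).continuousOn.mul (hg.mono s1)).intervalIntegrable)
    (((Dc_cont h).continuousOn.mul (hg.mono s2)).intervalIntegrable)
  rw [← hadd]
  congr 1
  · refine intervalIntegral.integral_congr fun u hu => ?_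
    rw [Set.uIcc_of_le (by linarith)] at hu
    rw [Dc_left h hu.2]
  · refine intervalIntegral.integral_congr fun u hu => ?_
    rw [Set.uIcc_of_le hX] at hu
    rw [Dc_right hu.1]

/-- chain of derivatives of an exponential -/
noncomputable def ech (k : ℝ) (j : ℕ) (z : ℂ) : ℂ := (-(2 * Real.pi * k * I)) ^ j * ex k z

lemma ech_deriv (k : ℝ) (j : ℕ) (u : ℝ) :
    HasDerivAt (fun v : ℝ => ech k j v) (ech k (j + 1) u) u := by
  have h1 : HasDerivAt (ex k) (-(2 * Real.pi * k * I) * ex k u) (u : ℂ) := by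
    unfold ex
    have h2 : HasDerivAt (fun z : ℂ => -(2 * Real.pi * k * I) * z) (-(2 * Real.pi * k * I)) (u : ℂ) := by
      simpa using (hasDerivAt_id (u : ℂ)).const_mul (-(2 * Real.pi * k * I))
    refine h2.cexp.congr_deriv ?_
    ring
  have h3 := (h1.const_mul ((-(2 * Real.pi * k * I)) ^ j)).comp_ofReal
  unfold ech
  refine h3.congr_deriv ?_
  ring

lemma ech_cont (k : ℝ) (j : ℕ) : Continuous (fun v : ℝ => ech k j v) :=
  continuous_iff_continuousAt.2 fun u => (ech_deriv k j u).continuousAt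

lemma Bd_ech_right {n : ℕ} {α : ℝ} (h : Par n α) (k : ℝ) :
    Tendsto (fun X : ℝ => Bd (n + 1) (G2 n α) (ech k) X) atTop (𝓝 0) := by
  unfold Bd
  rw [← Finset.sum_const_zero (s := range (n + 1))]
  refine tendsto_finsetSum _ fun j _ => ?_
  obtain ⟨C, hC0, hC⟩ := G2_bounds h j
  set M := ‖(-(2 * Real.pi * k * I) : ℂ)‖ ^ (n + 1 - 1 - j) with hM
  refine squeeze_zero_norm' (a := fun X : ℝ => C * (1 + X ^ 2)⁻¹ * M) ?_ ?_
  · filter_upwards [eventually_ge_atTop 0] with X hX
    rw [norm_mul, norm_mul, norm_pow, norm_neg, norm_one, one_pow, one_mul]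
    apply mul_le_mul _ _ (norm_nonneg _) (by positivity)
    · refine (hC X (by simpa using hX)).trans (le_of_eq ?_)
      rw [Complex.norm_real, Real.norm_eq_abs, sq_abs]
      simp [div_eq_mul_inv]
    · unfold ech
      rw [norm_mul, ex_norm, norm_pow, hM]
      simp
  · have : Tendsto (fun X : ℝ => (1 + X ^ 2)⁻¹) atTop (𝓝 0) := by
      apply tendsto_inv_atTop_zero.comp
      apply tendsto_atTop_add_const_left
      exact tendsto_pow_atTop (by norm_num)
    simpa using (this.const_mul C).mul_const M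

lemma Bd_ech_left {n : ℕ} {α : ℝ} (h : Par n α) (k : ℝ) :
    Tendsto (fun X : ℝ => Bd (n + 1) (G1 n α) (ech k) (-X : ℂ)) atTop (𝓝 0) := by
  unfold Bd
  rw [← Finset.sum_const_zero (s := range (n + 1))]
  refine tendsto_finsetSum _ fun j _ => ?_
  obtain ⟨C, hC0, hC⟩ := G1_bounds h j
  set M := ‖(-(2 * Real.pi * k * I) : ℂ)‖ ^ (n + 1 - 1 - j) with hM
  refine squeeze_zero_norm' (a := fun X : ℝ => C * (1 + X ^ 2)⁻¹ * M) ?_ ?_
  · filter_upwards [eventually_ge_atTop 0] with X hX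
    rw [norm_mul, norm_mul, norm_pow, norm_neg, norm_one, one_pow, one_mul]
    apply mul_le_mul _ _ (norm_nonneg _) (by positivity)
    · refine (hC (-X) (by simpa using hX)).trans (le_of_eq ?_)
      rw [norm_neg, Complex.norm_real, Real.norm_eq_abs, sq_abs]
      simp [div_eq_mul_inv]
    · unfold ech
      rw [norm_mul, ex_norm, norm_pow, hM]
      simp
  · have : Tendsto (fun X : ℝ => (1 + X ^ 2)⁻¹) atTop (𝓝 0) := by
      apply tendsto_inv_atTop_zero.comp
      apply tendsto_atTop_add_const_left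
      exact tendsto_pow_atTop (by norm_num)
    simpa using (this.const_mul C).mul_const M

lemma D_ex_int {n : ℕ} {α : ℝ} (h : Par n α) (k : ℝ) :
    Integrable (fun x : ℝ => Dc n α x * ex k x) := by
  refine (Dc_int h).mul_bdd (c := 1) ?_ (Eventually.of_forall fun x => ?_)
  · apply Continuous.aestronglyMeasurable
    unfold ex
    fun_prop
  · rw [ex_norm]
    simp

lemma D_hat {n : ℕ} {α : ℝ} (h : Par n α) {k : ℝ} (hk : 1 ≤ |k|) :
    (-(2 * Real.pi * k * I)) ^ (n + 1) * ∫ x : ℝ, Dc n α x * ex k x = n.factorial := by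
  have hid : ∀ X : ℝ, 0 ≤ X → (n.factorial : ℂ) = (∫ u in (-X)..X, K n α u * ex k u) +
      (-(2 * Real.pi * k * I)) ^ (n + 1) * (∫ u in (-X)..X, Dc n α u * ex k u) -
      Bd (n + 1) (G2 n α) (ech k) X + Bd (n + 1) (G1 n α) (ech k) (-X) := by
    intro X hX
    have h1 := main_id h hX (f := ech k) (fun u _ j _ => ech_deriv k j u) (ech_cont k _).continuousOn
    have h2 : ech k 0 0 = 1 := by simp [ech, ex]
    have h3 : ∫ u in (-X)..X, K n α u * ech k 0 u = ∫ u in (-X)..X, K n α u * ex k u := by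
      refine intervalIntegral.integral_congr fun u _ => ?_
      simp [ech]
    have h4 := split_D h hX (g := fun u => ech k (n + 1) u) (ech_cont k _).continuousOn
    have h5 : ∫ u in (-X)..X, Dc n α u * ech k (n + 1) u =
        (-(2 * Real.pi * k * I)) ^ (n + 1) * (∫ u in (-X)..X, Dc n α u * ex k u) := by
      rw [← intervalIntegral.integral_const_mul]
      refine intervalIntegral.integral_congr fun u _ => ?_
      simp only [ech]
      ring
    rw [h2, h3, mul_one] at h1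
    rw [h5] at h4
    rw [h1, ← h4]
    ring
  have t1 := intervalIntegral_tendsto_integral (J_int h k) tendsto_neg_atTop_atBot
      (tendsto_id (α := ℝ) (x := atTop))
  have t2 := intervalIntegral_tendsto_integral (D_ex_int h k) tendsto_neg_atTop_atBot
      (tendsto_id (α := ℝ) (x := atTop))
  have t3 := ((t1.add (t2.const_mul ((-(2 * Real.pi * k * I)) ^ (n + 1)))).sub
    (Bd_ech_right h k)).add (Bd_ech_left h k)
  rw [K_hat h hk] at t3
  have t4 : Tendsto (fun _ : ℝ => (n.factorial : ℂ)) atTop (𝓝 (n.factorial : ℂ)) := tendsto_const_nhds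
  have t5 := t4.congr' (by
    filter_upwards [eventually_ge_atTop 0] with X hX using hid X hX)
  have := tendsto_nhds_unique t5 t3
  rw [this]
  ring

lemma D_fourier {n : ℕ} {α : ℝ} (k : ℝ) : 𝓕 (Dc n α) k = ∫ x : ℝ, Dc n α x * ex k x := by
  rw [Real.fourier_real_eq_integral_exp_smul]
  refine integral_congr_ae (Eventually.of_forall fun x => ?_)
  simp only [smul_eq_mul, ex]
  rw [mul_comm]
  congr 2
  push_cast
  ring

lemma D_zeros {n : ℕ} {α : ℝ} (h : Par n α) (k : ℤ) : Dc n α (α + k) = 0 := by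
  have h1 : 1 ≤ n := by linarith [h.two]
  rcases le_or_gt 0 k with hk | hk
  · obtain ⟨j, rfl⟩ := Int.eq_ofNat_of_zero_le hk
    have : (0:ℝ) ≤ j := Nat.cast_nonneg j
    rw [Dc_right (by push_cast; linarith [h.mem.1])]
    unfold G2
    have := H_zero h1 h.mem h.crit j
    push_cast at this ⊢
    rw [this, neg_zero]
  · obtain ⟨j, hj⟩ : ∃ j : ℕ, k = -((j : ℤ) + 1) := ⟨(-k - 1).toNat, by omega⟩
    have h0 : (0:ℝ) ≤ j := Nat.cast_nonneg j
    rw [Dc_left h (by rw [hj]; push_cast; linarith [h.mem.2])]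
    unfold G1
    have := H_zero h1 h.mem' h.crit' j
    rw [hj]
    push_cast at this ⊢
    rw [← this]
    congr 1
    ring

/-- the mass of the kernel -/
theorem D_mass {n : ℕ} {α : ℝ} (h : Par n α) :
    ∫ x : ℝ, Dc n α x = ((-(bernoulliFun (n + 1) α / (n + 1)) : ℝ) : ℂ) := by
  have hodd := h.even.add_one
  obtain ⟨C, hC0, hC⟩ := Dc_bound h
  have hk0 : ∀ k : ℤ, k ≠ 0 → 𝓕 (Dc n α) k = (n.factorial : ℂ) *
      (((-(2 * Real.pi * I)) ^ (n + 1))⁻¹ * (1 / (k : ℂ) ^ (n + 1))) := by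
    intro k hk
    have h1 : (1:ℝ) ≤ |(k:ℝ)| := by exact_mod_cast Int.one_le_abs hk
    have h2 := D_hat h h1
    rw [D_fourier, ← h2]
    have hne : (2 * Real.pi * I : ℂ) ≠ 0 := Complex.two_pi_I_ne_zero
    have hk' : (k : ℂ) ≠ 0 := by exact_mod_cast hk
    have e : (-(2 * Real.pi * ((k : ℝ) : ℂ) * I)) = (-(2 * Real.pi * I)) * (k : ℂ) := by
      push_cast; ring
    rw [e, mul_pow]
    have h3 : (-(2 * Real.pi * I) : ℂ) ^ (n + 1) ≠ 0 := pow_ne_zero _ (neg_ne_zero.2 hne)
    have h4 : (k : ℂ) ^ (n + 1) ≠ 0 := pow_ne_zero _ hk'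
    field_simp
  have hsum := hasSum_one_div_pow_mul_fourier_mul_bernoulliFun (k := n + 1)
    (by linarith [h.two]) (x := α) ⟨h.mem.1.le, h.mem.2.le⟩
  have hs2 := (hsum.mul_left ((n.factorial : ℂ) * ((-(2 * Real.pi * I)) ^ (n + 1))⁻¹))
  have hs1 : Summable (fun k : ℤ => 1 / (k : ℂ) ^ (n + 1)) := by
    apply Summable.of_norm
    have : (fun x : ℤ => ‖1 / (x : ℂ) ^ (n + 1)‖) = fun x : ℤ => |1 / (x : ℝ) ^ (n + 1)| := by
      ext1 x
      simp only [one_div, norm_inv, norm_pow, norm_intCast, pow_abs, abs_inv]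
    simp_rw [this]
    rw [summable_abs_iff, Real.summable_one_div_int_pow]
    linarith [h.two]
  have hFs : Summable (fun k : ℤ => 𝓕 (Dc n α) (k : ℝ)) := by
    have := (hs1.mul_left ((n.factorial : ℂ) * ((-(2 * Real.pi * I)) ^ (n + 1))⁻¹)).update 0
      (𝓕 (Dc n α) ((0 : ℤ) : ℝ))
    refine this.congr fun k => ?_
    rcases eq_or_ne k 0 with hk | hk
    · rw [hk, Function.update_self]
    · rw [Function.update_of_ne hk, hk0 k hk]
      ring
  have hP := Real.tsum_eq_tsum_fourier_of_rpow_decay_of_summable (Dc_cont h) (b := 2) (by norm_num)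
    (by
      apply Asymptotics.IsBigO.of_bound C
      have hne : ∀ᶠ x : ℝ in cocompact ℝ, x ≠ 0 := by
        have : ∀ᶠ x : ℝ in cocompact ℝ, x ∈ ({0} : Set ℝ)ᶜ := isCompact_singleton.compl_mem_cocompact
        exact this
      filter_upwards [hne] with x hx
      refine (hC x).trans ?_
      apply mul_le_mul_of_nonneg_left _ hC0.le
      rw [Real.norm_eq_abs, Real.rpow_neg (abs_nonneg x), abs_inv]
      norm_num
      apply inv_anti₀ (by positivity)
      linarith)
    hFs α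
  have hL : ∑' k : ℤ, Dc n α (α + k) = 0 := by
    rw [tsum_congr (fun k => D_zeros h k)]
    simp
  rw [hL] at hP
  have hterm : ∀ k : ℤ, 𝓕 (Dc n α) (k : ℝ) * fourier k (α : UnitAddCircle) =
      (if k = 0 then (∫ x : ℝ, Dc n α x) else 0) +
      (n.factorial : ℂ) * ((-(2 * Real.pi * I)) ^ (n + 1))⁻¹ *
        (1 / (k : ℂ) ^ (n + 1) * fourier k (α : UnitAddCircle)) := by
    intro k
    rcases eq_or_ne k 0 with hk | hk
    · subst hk
      rw [D_fourier]
      simp [ex]
    · rw [if_neg hk, hk0 k hk]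
      ring
  have hR : HasSum (fun k : ℤ => 𝓕 (Dc n α) (k : ℝ) * fourier k (α : UnitAddCircle))
      ((∫ x : ℝ, Dc n α x) + (n.factorial : ℂ) * ((-(2 * Real.pi * I)) ^ (n + 1))⁻¹ *
        (-(2 * Real.pi * I) ^ (n + 1) / (n + 1).factorial * bernoulliFun (n + 1) α)) := by
    simp_rw [hterm]
    exact (hasSum_ite_eq 0 _).add hs2
  have h6 := hR.tsum_eq
  rw [← hP] at h6
  have hne : (2 * Real.pi * I : ℂ) ≠ 0 := Complex.two_pi_I_ne_zero
  have hne2 : (2 * Real.pi * I : ℂ) ^ (n + 1) ≠ 0 := pow_ne_zero _ hne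
  rw [hodd.neg_pow, Nat.factorial_succ] at h6
  have hf : (n.factorial : ℂ) ≠ 0 := by exact_mod_cast Nat.factorial_ne_zero n
  have hn1 : (n : ℂ) + 1 ≠ 0 := by exact_mod_cast Nat.succ_ne_zero n
  push_cast at h6 ⊢
  have h7 : (n.factorial : ℂ) * (-(2 * Real.pi * I) ^ (n + 1))⁻¹ *
        (-(2 * Real.pi * I) ^ (n + 1) / ((n + 1) * n.factorial) * bernoulliFun (n + 1) α) =
        (bernoulliFun (n + 1) α : ℂ) / (n + 1) := by
    field_simp
  rw [h7] at h6
  linear_combination -h6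

end Pool.Agent.X111.BF
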