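import Pool.Agent.X111.BF.Ker6

set_option autoImplicit false

namespace Pool.Agent.X111.BF

open Complex MeasureTheory Set Filter Topology Finset

lemma ext_closed {P : ℝ → Prop} (hc : IsClosed {x : ℝ | P x}) (h : ∀ x : ℝ, x ≠ 0 → P x) (x : ℝ) :
    P x := by
  have h1 : closure ({(0:ℝ)}ᶜ) ⊆ {x : ℝ | P x} := hc.closure_subset_iff.2 fun y hy => h y hy
  rw [(dense_compl_singleton (0:ℝ)).closure_eq] at h1
  exact h1 (mem_univ x)

lemma Dc_im {n : ℕ} {α : ℝ} (h : Par n α) (x : ℝ) : (Dc n α x).im = 0 := by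
  refine ext_closed (P := fun x => (Dc n α x).im = 0) ?_ ?_ x
  · exact isClosed_eq (Complex.continuous_im.comp (Dc_cont h)) continuous_const
  · intro x hx
    rcases lt_or_gt_of_ne hx with h0 | h0
    · show (Dc n α x).im = 0
      rw [Dc_left h h0.le]
      unfold G1
      have := H_im (by linarith [h.two]) h.mem' h.crit' (neg_pos.2 h0)
      simpa using this
    · show (Dc n α x).im = 0
      rw [Dc_right h0.le]
      unfold G2
      rw [Complex.neg_im, H_im (by linarith [h.two]) h.mem h.crit h0, neg_zero]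

lemma Dc_sign_min {n : ℕ} {α : ℝ} (h : Par n α)
    (hmin : ∀ x ∈ Icc (0:ℝ) 1, bernoulliFun (n + 1) α ≤ bernoulliFun (n + 1) x) (x : ℝ) :
    0 ≤ (Dc n α x).re := by
  refine ext_closed (P := fun x => 0 ≤ (Dc n α x).re) ?_ ?_ x
  · exact isClosed_le continuous_const (Complex.continuous_re.comp (Dc_cont h))
  · intro x hx
    rcases lt_or_gt_of_ne hx with h0 | h0
    · show 0 ≤ (Dc n α x).re
      rw [Dc_left h h0.le]
      unfold G1
      have hmax : ∀ x ∈ Icc (0:ℝ) 1, bernoulliFun (n + 1) x ≤ bernoulliFun (n + 1) (1 - α) := by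
        intro y hy
        have h1 := hmin (1 - y) ⟨by linarith [hy.2], by linarith [hy.1]⟩
        rw [bernoulliFun_eval_one_sub, h.even.add_one.neg_one_pow] at h1 ⊢
        linarith
      have := H_nonneg (by linarith [h.two]) h.mem' h.crit' hmax (neg_pos.2 h0)
      simpa using this
    · show 0 ≤ (Dc n α x).re
      rw [Dc_right h0.le]
      unfold G2
      rw [Complex.neg_re]
      have := H_nonpos (by linarith [h.two]) h.mem h.crit hmin h0
      linarith

lemma Dc_sign_max {n : ℕ} {α : ℝ} (h : Par n α)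
    (hmax : ∀ x ∈ Icc (0:ℝ) 1, bernoulliFun (n + 1) x ≤ bernoulliFun (n + 1) α) (x : ℝ) :
    (Dc n α x).re ≤ 0 := by
  refine ext_closed (P := fun x => (Dc n α x).re ≤ 0) ?_ ?_ x
  · exact isClosed_le (Complex.continuous_re.comp (Dc_cont h)) continuous_const
  · intro x hx
    rcases lt_or_gt_of_ne hx with h0 | h0
    · show (Dc n α x).re ≤ 0
      rw [Dc_left h h0.le]
      unfold G1
      have hmin : ∀ x ∈ Icc (0:ℝ) 1, bernoulliFun (n + 1) (1 - α) ≤ bernoulliFun (n + 1) x := by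
        intro y hy
        have h1 := hmax (1 - y) ⟨by linarith [hy.2], by linarith [hy.1]⟩
        rw [bernoulliFun_eval_one_sub, h.even.add_one.neg_one_pow] at h1 ⊢
        linarith
      have := H_nonpos (by linarith [h.two]) h.mem' h.crit' hmin (neg_pos.2 h0)
      simpa using this
    · show (Dc n α x).re ≤ 0
      rw [Dc_right h0.le]
      unfold G2
      rw [Complex.neg_re]
      have := H_nonneg (by linarith [h.two]) h.mem h.crit hmax h0
      linarith

lemma Dc_re_int {n : ℕ} {α : ℝ} (h : Par n α) : Integrable (fun x => (Dc n α x).re) :=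
  (Dc_int h).re

lemma Dc_re_mass {n : ℕ} {α : ℝ} (h : Par n α) :
    ∫ x : ℝ, (Dc n α x).re = -(bernoulliFun (n + 1) α / (n + 1)) := by
  have h1 := D_mass h
  have h2 : ∫ x : ℝ, Dc n α x = ((∫ x : ℝ, (Dc n α x).re : ℝ) : ℂ) := by
    rw [← integral_complex_ofReal]
    refine integral_congr_ae (Eventually.of_forall fun x => ?_)
    apply Complex.ext
    · simp
    · simp [Dc_im h x]
  rw [h2] at h1
  exact_mod_cast h1

/-- low frequency term -/
lemma low_freq {n : ℕ} {α : ℝ} (h : Par n α) : ∃ C : ℝ, 0 < C ∧ ∀ (Δ X A E : ℝ) (f : ℂ → ℂ),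
    1 ≤ Δ → 1 ≤ X → 0 ≤ A → 0 ≤ E →
    DifferentiableOn ℂ f (Icc (-X) X ×ℂ Icc 0 (1 / 2)) →
    (∀ x ∈ Icc (-X) X, ‖f (x + (1 / 2 : ℝ) * I)‖ ≤ A) →
    (∀ y ∈ Icc (0:ℝ) (1 / 2), ‖f (X + y * I)‖ ≤ E) →
    (∀ y ∈ Icc (0:ℝ) (1 / 2), ‖f (-X + y * I)‖ ≤ E) →
    ‖∫ u in (-(Δ * X))..(Δ * X), K n α u * f (u / Δ)‖ ≤
      C * Real.exp (Real.pi * Δ) * (A + E / X ^ 2) := by
  obtain ⟨C, hC0, hC⟩ := K_bound h
  refine ⟨C * (Real.pi + 1), by have := Real.pi_pos; positivity,
    fun Δ X A E f hΔ hX hA hE hf htop hr hl => ?_⟩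
  have hΔ0 : 0 < Δ := by linarith
  have hX0 : 0 < X := by linarith
  have hΔc : (Δ : ℂ) ≠ 0 := by exact_mod_cast hΔ0.ne'
  have hmaps : ∀ z : ℂ, z ∈ (uIcc (-(Δ * X)) (Δ * X) ×ℂ uIcc 0 (Δ / 2)) →
      z / Δ ∈ (Icc (-X) X ×ℂ Icc 0 (1 / 2)) := by
    intro z hz
    rw [Complex.mem_reProdIm] at hz ⊢
    rw [Set.uIcc_of_le (by nlinarith), Set.uIcc_of_le (by linarith)] at hz
    have h1 : (z / Δ).re = z.re / Δ := by rw [Complex.div_ofReal_re]
    have h2 : (z / Δ).im = z.im / Δ := by rw [Complex.div_ofReal_im]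
    rw [h1, h2]
    refine ⟨⟨?_, ?_⟩, ⟨?_, ?_⟩⟩
    · rw [le_div_iff₀ hΔ0]; linarith [hz.1.1]
    · rw [div_le_iff₀ hΔ0]; linarith [hz.1.2]
    · exact div_nonneg hz.2.1 hΔ0.le
    · rw [div_le_iff₀ hΔ0]; linarith [hz.2.2]
  have hd : DifferentiableOn ℂ (fun z => K n α z * f (z / Δ))
      (uIcc (-(Δ * X)) (Δ * X) ×ℂ uIcc 0 (Δ / 2)) := by
    refine (K_diff n α).differentiableOn.mul ?_
    exact hf.comp (by fun_prop) hmaps
  have hrect := rect (X := Δ * X) (v := Δ / 2) hd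
  have hrect' : (∫ u in (-(Δ * X))..(Δ * X), K n α u * f (u / Δ)) = _ := hrect
  rw [hrect']
  -- top
  have e1 : ∀ x : ℝ, ((x : ℂ) + ((Δ / 2 : ℝ) : ℂ) * I) / Δ = ((x / Δ : ℝ) : ℂ) + ((1 / 2 : ℝ) : ℂ) * I := by
    intro x
    push_cast
    field_simp
  have b1 : ‖∫ x in (-(Δ * X))..(Δ * X), K n α (x + ((Δ / 2 : ℝ) : ℂ) * I) *
      f ((x + ((Δ / 2 : ℝ) : ℂ) * I) / Δ)‖ ≤ C * Real.exp (Real.pi * Δ) * A * Real.pi := by
    rw [intervalIntegral.integral_of_le (by nlinarith)]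
    calc _ ≤ ∫ x in Ioc (-(Δ * X)) (Δ * X), C * Real.exp (Real.pi * Δ) * A * (1 + x ^ 2)⁻¹ := by
          refine norm_integral_le_of_norm_le (integrable_inv_one_add_sq.const_mul _).integrableOn ?_
          refine (ae_restrict_iff' measurableSet_Ioc).2 (Eventually.of_forall fun x hx => ?_)
          rw [norm_mul, e1 x]
          have h1 := hC (x + ((Δ / 2 : ℝ) : ℂ) * I)
          have him : (x + ((Δ / 2 : ℝ) : ℂ) * I : ℂ).im = Δ / 2 := by simp
          have hn : x ^ 2 ≤ ‖(x + ((Δ / 2 : ℝ) : ℂ) * I : ℂ)‖ ^ 2 := by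
            have h3 := Complex.abs_re_le_norm (x + ((Δ / 2 : ℝ) : ℂ) * I)
            have hre : (x + ((Δ / 2 : ℝ) : ℂ) * I : ℂ).re = x := by simp
            rw [hre] at h3
            rw [← sq_abs x]
            exact pow_le_pow_left₀ (abs_nonneg _) h3 2
          rw [him, abs_of_pos (by positivity), show 2 * Real.pi * (Δ / 2) = Real.pi * Δ by ring] at h1
          have h2 := htop (x / Δ) ⟨by rw [le_div_iff₀ hΔ0]; linarith [hx.1],
            by rw [div_le_iff₀ hΔ0]; linarith [hx.2]⟩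
          calc _ ≤ (C * Real.exp (Real.pi * Δ) / (1 + x ^ 2)) * A := by
                apply mul_le_mul _ h2 (norm_nonneg _) (by positivity)
                refine h1.trans ?_
                gcongr
            _ = _ := by ring
      _ ≤ ∫ x : ℝ, C * Real.exp (Real.pi * Δ) * A * (1 + x ^ 2)⁻¹ := by
          apply setIntegral_le_integral (integrable_inv_one_add_sq.const_mul _)
          exact Eventually.of_forall fun x => by
            simp only [Pi.zero_apply]
            positivity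
      _ = _ := by
          rw [integral_const_mul, integral_univ_inv_one_add_sq]
  -- sides
  have hside : ∀ Y : ℝ, Y ^ 2 = X ^ 2 → (∀ y ∈ Icc (0:ℝ) (1 / 2), ‖f (Y + y * I)‖ ≤ E) →
      ‖∫ y in (0:ℝ)..(Δ / 2), K n α (((Δ * Y : ℝ) : ℂ) + y * I) * f ((((Δ * Y : ℝ) : ℂ) + y * I) / Δ)‖ ≤
        C * Real.exp (Real.pi * Δ) * (E / X ^ 2) / 2 := by
    intro Y hY hb
    have := intervalIntegral.norm_integral_le_of_norm_le_const (a := 0) (b := Δ / 2)
      (C := C * Real.exp (Real.pi * Δ) / (1 + (Δ * X) ^ 2) * E)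
      (f := fun y : ℝ => K n α (((Δ * Y : ℝ) : ℂ) + y * I) * f ((((Δ * Y : ℝ) : ℂ) + y * I) / Δ)) ?_
    · refine this.trans ?_
      rw [sub_zero, abs_of_pos (by positivity)]
      have h1 : Δ / (1 + (Δ * X) ^ 2) ≤ 1 / X ^ 2 := by
        rw [div_le_div_iff₀ (by positivity) (by positivity)]
        nlinarith [mul_pos hΔ0 (pow_pos hX0 2), mul_nonneg (by linarith : 0 ≤ Δ - 1)
          (mul_pos hΔ0 (pow_pos hX0 2)).le]
      calc C * Real.exp (Real.pi * Δ) / (1 + (Δ * X) ^ 2) * E * (Δ / 2)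
          = C * Real.exp (Real.pi * Δ) * E / 2 * (Δ / (1 + (Δ * X) ^ 2)) := by ring
        _ ≤ C * Real.exp (Real.pi * Δ) * E / 2 * (1 / X ^ 2) := by gcongr
        _ = _ := by ring
    · intro y hy
      rw [Set.uIoc_of_le (by positivity)] at hy
      rw [norm_mul]
      have e2 : ((((Δ * Y : ℝ) : ℂ) + y * I) / Δ) = (Y : ℂ) + ((y / Δ : ℝ) : ℂ) * I := by
        push_cast
        field_simp
      rw [e2]
      have h2 := hb (y / Δ) ⟨div_nonneg hy.1.le hΔ0.le, by
        rw [div_le_iff₀ hΔ0]; linarith [hy.2]⟩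
      have h1 := hC (((Δ * Y : ℝ) : ℂ) + y * I)
      have him : (((Δ * Y : ℝ) : ℂ) + y * I).im = y := by simp
      have hn : (Δ * X) ^ 2 ≤ ‖(((Δ * Y : ℝ) : ℂ) + y * I)‖ ^ 2 := by
        have h3 := Complex.abs_re_le_norm (((Δ * Y : ℝ) : ℂ) + y * I)
        have hre : (((Δ * Y : ℝ) : ℂ) + y * I).re = Δ * Y := by simp
        rw [hre] at h3
        have h4 : (Δ * X) ^ 2 = |Δ * Y| ^ 2 := by rw [sq_abs, mul_pow, mul_pow, hY]
        rw [h4]
        exact pow_le_pow_left₀ (abs_nonneg _) h3 2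
      rw [him, abs_of_pos hy.1] at h1
      apply mul_le_mul _ h2 (norm_nonneg _) (by positivity)
      refine h1.trans ?_
      have h5 : Real.exp (2 * Real.pi * y) ≤ Real.exp (Real.pi * Δ) := by
        apply Real.exp_le_exp.2
        nlinarith [Real.pi_pos, hy.2]
      gcongr
  have b2 := hside X rfl hr
  have b3 := hside (-X) (by ring) (by
    intro y hy
    have := hl y hy
    push_cast
    exact this)
  have e3 : ((Δ * -X : ℝ) : ℂ) = -(((Δ * X : ℝ)) : ℂ) := by push_cast; ring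
  rw [e3] at b3
  calc _ ≤ _ := norm_add_le _ _
    _ ≤ _ := add_le_add_left (norm_sub_le _ _) _
    _ ≤ C * Real.exp (Real.pi * Δ) * A * Real.pi + C * Real.exp (Real.pi * Δ) * (E / X ^ 2) / 2 +
        C * Real.exp (Real.pi * Δ) * (E / X ^ 2) / 2 := by
      rw [norm_mul, norm_mul, Complex.norm_I, one_mul, one_mul]
      exact add_le_add (add_le_add b1 b2) b3
    _ ≤ _ := by
      have h1 : 0 ≤ C * Real.exp (Real.pi * Δ) * A := by positivity
      have h2 : 0 ≤ C * Real.exp (Real.pi * Δ) * (E / X ^ 2) := by positivity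
      nlinarith [Real.pi_pos]

end Pool.Agent.X111.BF
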