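import Pool.Agent.X111.BF.Ker7

set_option autoImplicit false

namespace Pool.Agent.X111.BF

open Complex MeasureTheory Set Filter Topology Finset

lemma Bd_bound {n : ℕ} {G : ℂ → ℂ} {z : ℂ} {f : ℕ → ℂ → ℂ} {E B : ℝ} (hB : 0 ≤ B)
    (hG : ∀ j ≤ n, ‖iteratedDeriv j G z‖ ≤ B) (hf : ∀ j ≤ n, ‖f j z‖ ≤ E) :
    ‖Bd (n + 1) G f z‖ ≤ (n + 1) * (B * E) := by
  unfold Bd
  refine (norm_sum_le _ _).trans ?_
  have : ∀ j ∈ range (n + 1), ‖(-1 : ℂ) ^ j * iteratedDeriv j G z * f (n + 1 - 1 - j) z‖ ≤ B * E := by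
    intro j hj
    have hj' : j < n + 1 := Finset.mem_range.1 hj
    rw [norm_mul, norm_mul, norm_pow, norm_neg, norm_one, one_pow, one_mul]
    exact mul_le_mul (hG j (by omega)) (hf _ (by omega)) (norm_nonneg _) hB
  refine (Finset.sum_le_sum this).trans ?_
  simp

lemma G_unif {n : ℕ} {α : ℝ} (h : Par n α) : ∃ C : ℝ, 0 < C ∧ ∀ j ≤ n, ∀ X : ℝ, 0 ≤ X →
    ‖iteratedDeriv j (G2 n α) X‖ ≤ C / (1 + X ^ 2) ∧
    ‖iteratedDeriv j (G1 n α) (-X)‖ ≤ C / (1 + X ^ 2) := by
  choose C1 h10 h1 using G1_bounds h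
  choose C2 h20 h2 using G2_bounds h
  refine ⟨∑ j ∈ range (n + 1), (C1 j + C2 j), ?_, fun j hj X hX => ?_⟩
  · exact Finset.sum_pos (fun j _ => add_pos (h10 j) (h20 j)) ⟨0, Finset.mem_range.2 (by omega)⟩
  · have hsum : C1 j + C2 j ≤ ∑ j ∈ range (n + 1), (C1 j + C2 j) :=
      Finset.single_le_sum (f := fun j => C1 j + C2 j)
        (fun i _ => (add_pos (h10 i) (h20 i)).le) (Finset.mem_range.2 (by omega))
    have hn : ‖(X : ℂ)‖ ^ 2 = X ^ 2 := by
      rw [Complex.norm_real, Real.norm_eq_abs, sq_abs]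
    constructor
    · have := h2 j X (by simpa using hX)
      rw [hn] at this
      simp only [Complex.ofReal_im, abs_zero, mul_zero, Real.exp_zero, mul_one] at this
      refine this.trans ?_
      have := h10 j
      gcongr
      linarith
    · have := h1 j (-X) (by simpa using hX)
      rw [norm_neg, hn] at this
      simp only [Complex.neg_im, Complex.ofReal_im, neg_zero, abs_zero, mul_zero, Real.exp_zero,
        mul_one] at this
      refine this.trans ?_
      have := h20 j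
      gcongr
      linarith

/-- **The kernel inequality.** -/
theorem kernel_ineq {n : ℕ} {α : ℝ} (h : Par n α) {s : ℝ} (hs : |s| = 1)
    (hD : ∀ x, 0 ≤ s * (Dc n α x).re) : ∃ C : ℝ, 0 < C ∧
    ∀ (Δ X A E M : ℝ) (c : ℂ) (f : ℕ → ℂ → ℂ), 1 ≤ Δ → 1 ≤ X → 0 ≤ A → 0 ≤ E → 0 ≤ M → ‖c‖ ≤ 1 →
    (∀ u ∈ Icc (-X) X, ∀ j < n + 1, HasDerivAt (fun v : ℝ => f j v) (f (j + 1) u) u) →
    ContinuousOn (fun v : ℝ => f (n + 1) v) (Icc (-X) X) →
    DifferentiableOn ℂ (f 0) (Icc (-X) X ×ℂ Icc 0 (1 / 2)) →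
    (∀ x ∈ Icc (-X) X, ‖f 0 (x + (1 / 2 : ℝ) * I)‖ ≤ A) →
    (∀ y ∈ Icc (0:ℝ) (1 / 2), ‖f 0 (X + y * I)‖ ≤ E) →
    (∀ y ∈ Icc (0:ℝ) (1 / 2), ‖f 0 (-X + y * I)‖ ≤ E) →
    (∀ j ≤ n, ‖f j X‖ ≤ E) → (∀ j ≤ n, ‖f j (-X)‖ ≤ E) →
    (∀ u ∈ Icc (-X) X, (c * f (n + 1) u).im ≤ M) →
    s * (c * f 0 0).im ≤ M * (1 / Δ) ^ (n + 1) * (s * (-(bernoulliFun (n + 1) α) / (n + 1).factorial)) +
      C * Real.exp (Real.pi * Δ) * (A + E / X ^ 2) := by
  obtain ⟨C1, hC10, hC1⟩ := low_freq h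
  obtain ⟨C2, hC20, hC2⟩ := G_unif h
  refine ⟨C1 + 2 * ((n + 1) * C2), by positivity,
    fun Δ X A E M c f hΔ hX hA hE hM hc hf hfc hfd htop hr hl hbr hbl hup => ?_⟩
  have hΔ0 : 0 < Δ := by linarith
  have hX0 : 0 < X := by linarith
  have hΔc : (Δ : ℂ) ≠ 0 := by exact_mod_cast hΔ0.ne'
  have hΔX : 0 ≤ Δ * X := by positivity
  set ft : ℕ → ℂ → ℂ := fun j z => ((Δ : ℂ)⁻¹) ^ j * f j (z / Δ) with hft
  have hcast : ∀ v : ℝ, ((v : ℂ) / (Δ : ℂ)) = ((v / Δ : ℝ) : ℂ) := fun v => by push_cast; ring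
  have hmem : ∀ u ∈ Icc (-(Δ * X)) (Δ * X), u / Δ ∈ Icc (-X) X := by
    intro u hu
    constructor
    · rw [le_div_iff₀ hΔ0]; linarith [hu.1]
    · rw [div_le_iff₀ hΔ0]; linarith [hu.2]
  have hder : ∀ u ∈ Icc (-(Δ * X)) (Δ * X), ∀ j < n + 1,
      HasDerivAt (fun v : ℝ => ft j v) (ft (j + 1) u) u := by
    intro u hu j hj
    have h1 := hf (u / Δ) (hmem u hu) j hj
    have h2 : HasDerivAt (fun v : ℝ => v / Δ) (1 / Δ) u := (hasDerivAt_id u).div_const Δ
    have h3 := (h1.scomp u h2).const_mul (((Δ : ℂ)⁻¹) ^ j)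
    simp only [hft, hcast]
    refine (h3.congr_deriv ?_).congr_of_eventuallyEq (Eventually.of_forall fun v => rfl)
    rw [Complex.real_smul]
    push_cast
    ring
  have hcont : ContinuousOn (fun v : ℝ => ft (n + 1) v) (Icc (-(Δ * X)) (Δ * X)) := by
    simp only [hft, hcast]
    refine continuousOn_const.mul ?_
    exact hfc.comp (f := fun v : ℝ => v / Δ) (by fun_prop) hmem
  have hid := main_id h hΔX hder hcont
  rw [add_assoc (∫ u in (-(Δ * X))..(Δ * X), K n α u * ft 0 u), split_D h hΔX hcont] at hid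
  -- low frequency term
  have hlow := hC1 Δ X A E (f 0) hΔ hX hA hE hfd htop hr hl
  have elow : ∫ u in (-(Δ * X))..(Δ * X), K n α u * ft 0 u =
      ∫ u in (-(Δ * X))..(Δ * X), K n α u * f 0 (u / Δ) := by
    refine intervalIntegral.integral_congr fun u _ => ?_
    simp [hft]
  rw [elow] at hid
  -- boundary terms
  have hinv : ∀ j : ℕ, ‖((Δ : ℂ)⁻¹) ^ j‖ ≤ 1 := by
    intro j
    rw [norm_pow, norm_inv, Complex.norm_real, Real.norm_eq_abs, abs_of_pos hΔ0]
    exact pow_le_one₀ (by positivity) (inv_le_one_of_one_le₀ hΔ)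
  have hftb : ∀ j ≤ n, ‖ft j ((Δ * X : ℝ) : ℂ)‖ ≤ E := by
    intro j hj
    simp only [hft]
    rw [norm_mul]
    have e : (((Δ * X : ℝ) : ℂ) / (Δ : ℂ)) = (X : ℂ) := by push_cast; field_simp
    rw [e]
    calc _ ≤ 1 * E := mul_le_mul (hinv j) (hbr j hj) (norm_nonneg _) zero_le_one
      _ = E := one_mul _
  have hftb' : ∀ j ≤ n, ‖ft j (-((Δ * X : ℝ) : ℂ))‖ ≤ E := by
    intro j hj
    simp only [hft]
    rw [norm_mul]
    have e : ((-((Δ * X : ℝ) : ℂ)) / (Δ : ℂ)) = -(X : ℂ) := by push_cast; field_simp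
    rw [e]
    calc _ ≤ 1 * E := mul_le_mul (hinv j) (hbl j hj) (norm_nonneg _) zero_le_one
      _ = E := one_mul _
  have B2 := Bd_bound (G := G2 n α) (f := ft) (z := ((Δ * X : ℝ) : ℂ)) (B := C2 / (1 + (Δ * X) ^ 2))
    (by positivity) (fun j hj => (hC2 j hj _ hΔX).1) hftb
  have B1 := Bd_bound (G := G1 n α) (f := ft) (z := -((Δ * X : ℝ) : ℂ)) (B := C2 / (1 + (Δ * X) ^ 2))
    (by positivity) (fun j hj => (hC2 j hj _ hΔX).2) hftb'
  have hBsmall : ((n : ℝ) + 1) * (C2 / (1 + (Δ * X) ^ 2) * E) ≤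
      ((n + 1) * C2) * (Real.exp (Real.pi * Δ) * (E / X ^ 2)) := by
    have h1 : 1 / (1 + (Δ * X) ^ 2) ≤ 1 / X ^ 2 := by
      apply one_div_le_one_div_of_le (by positivity)
      rw [mul_pow]
      have : 1 ≤ Δ ^ 2 := one_le_pow₀ hΔ
      nlinarith [pow_pos hX0 2]
    have h2 : 1 ≤ Real.exp (Real.pi * Δ) := Real.one_le_exp (by have := Real.pi_pos; positivity)
    calc ((n : ℝ) + 1) * (C2 / (1 + (Δ * X) ^ 2) * E) = ((n + 1) * C2) * (1 * (E * (1 / (1 + (Δ * X) ^ 2)))) := by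
          ring
      _ ≤ ((n + 1) * C2) * (Real.exp (Real.pi * Δ) * (E * (1 / X ^ 2))) := by gcongr
      _ = _ := by ring
  -- main term
  have hDint : ∀ g : ℝ → ℂ, ContinuousOn g (Icc (-(Δ * X)) (Δ * X)) →
      IntervalIntegrable (fun u => Dc n α u * g u) volume (-(Δ * X)) (Δ * X) := by
    intro g hg
    apply ContinuousOn.intervalIntegrable
    rw [Set.uIcc_of_le (by linarith)]
    exact (Dc_cont h).continuousOn.mul hg
  have hmain : s * (c * ∫ u in (-(Δ * X))..(Δ * X), Dc n α u * ft (n + 1) u).im ≤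
      M * (1 / Δ) ^ (n + 1) * (s * -(bernoulliFun (n + 1) α / (n + 1))) := by
    have e1 : (c * ∫ u in (-(Δ * X))..(Δ * X), Dc n α u * ft (n + 1) u).im =
        ∫ u in (-(Δ * X))..(Δ * X), (c * (Dc n α u * ft (n + 1) u)).im := by
      rw [← intervalIntegral.integral_const_mul]
      have hi := (hDint _ hcont).const_mul c
      exact (Complex.imCLM.intervalIntegral_comp_comm hi).symm
    rw [e1, ← intervalIntegral.integral_const_mul]
    have hi1 : IntervalIntegrable (fun u : ℝ => s * (c * (Dc n α u * ft (n + 1) u)).im) volume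
        (-(Δ * X)) (Δ * X) := by
      apply ContinuousOn.intervalIntegrable
      rw [Set.uIcc_of_le (by linarith)]
      refine continuousOn_const.mul ?_
      refine Complex.continuous_im.comp_continuousOn ?_
      exact continuousOn_const.mul ((Dc_cont h).continuousOn.mul hcont)
    have hi2 : Integrable (fun u : ℝ => M * (1 / Δ) ^ (n + 1) * (s * (Dc n α u).re)) :=
      ((Dc_re_int h).const_mul s).const_mul _
    calc ∫ u in (-(Δ * X))..(Δ * X), s * (c * (Dc n α u * ft (n + 1) u)).im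
        ≤ ∫ u in (-(Δ * X))..(Δ * X), M * (1 / Δ) ^ (n + 1) * (s * (Dc n α u).re) := by
          apply intervalIntegral.integral_mono_on (by linarith) hi1 hi2.intervalIntegrable
          intro u hu
          have e2 : (c * (Dc n α u * ft (n + 1) u)).im =
              (Dc n α u).re * ((1 / Δ) ^ (n + 1) * (c * f (n + 1) ((u / Δ : ℝ) : ℂ)).im) := by
            have e3 : Dc n α u = ((Dc n α u).re : ℂ) := by
              apply Complex.ext
              · simp
              · simp [Dc_im h u]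
            have e4 : c * (Dc n α u * ft (n + 1) u) =
                (((Dc n α u).re * (1 / Δ) ^ (n + 1) : ℝ) : ℂ) * (c * f (n + 1) ((u / Δ : ℝ) : ℂ)) := by
              simp only [hft, hcast]
              rw [e3]
              simp only [Complex.ofReal_re]
              push_cast
              ring
            rw [e4, Complex.im_ofReal_mul]
            ring
          rw [e2]
          have h1 := hup (u / Δ) (hmem u hu)
          have h2 := hD u
          have h3 : 0 ≤ (1 / Δ) ^ (n + 1) := by positivity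
          calc s * ((Dc n α u).re * ((1 / Δ) ^ (n + 1) * (c * f (n + 1) ((u / Δ : ℝ) : ℂ)).im))
              = (s * (Dc n α u).re) * (1 / Δ) ^ (n + 1) * (c * f (n + 1) ((u / Δ : ℝ) : ℂ)).im := by ring
            _ ≤ (s * (Dc n α u).re) * (1 / Δ) ^ (n + 1) * M :=
                mul_le_mul_of_nonneg_left h1 (by positivity)
            _ = _ := by ring
      _ ≤ ∫ u : ℝ, M * (1 / Δ) ^ (n + 1) * (s * (Dc n α u).re) := by
          rw [intervalIntegral.integral_of_le (by linarith)]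
          apply setIntegral_le_integral hi2
          refine Eventually.of_forall fun u => ?_
          have := hD u
          simp only [Pi.zero_apply]
          positivity
      _ = _ := by
          rw [integral_const_mul, integral_const_mul, Dc_re_mass h]
  -- conclusion
  have hfac : (0:ℝ) < n.factorial := by exact_mod_cast Nat.factorial_pos n
  have hfac1 : (1:ℝ) ≤ n.factorial := by exact_mod_cast Nat.factorial_pos n
  have hft0 : ft 0 0 = f 0 0 := by simp [hft]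
  rw [hft0] at hid
  have key : s * ((n.factorial : ℝ) * (c * f 0 0).im) ≤
      C1 * Real.exp (Real.pi * Δ) * (A + E / X ^ 2) +
      M * (1 / Δ) ^ (n + 1) * (s * -(bernoulliFun (n + 1) α / (n + 1))) +
      2 * (((n + 1) * C2) * (Real.exp (Real.pi * Δ) * (E / X ^ 2))) := by
    have e5 : (n.factorial : ℝ) * (c * f 0 0).im =
        (c * ∫ u in (-(Δ * X))..(Δ * X), K n α u * f 0 (u / Δ)).im +
        (c * ∫ u in (-(Δ * X))..(Δ * X), Dc n α u * ft (n + 1) u).im -
        (c * Bd (n + 1) (G2 n α) ft ((Δ * X : ℝ) : ℂ)).im +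
        (c * Bd (n + 1) (G1 n α) ft (-((Δ * X : ℝ) : ℂ))).im := by
      have : (n.factorial : ℝ) * (c * f 0 0).im = (c * ((n.factorial : ℂ) * f 0 0)).im := by
        have e6 : c * ((n.factorial : ℂ) * f 0 0) = ((n.factorial : ℝ) : ℂ) * (c * f 0 0) := by
          push_cast; ring
        rw [e6, Complex.im_ofReal_mul]
      rw [this, hid]
      simp only [mul_add, mul_sub, Complex.add_im, Complex.sub_im]
    rw [e5]
    have hb : ∀ z : ℂ, |s * (c * z).im| ≤ ‖z‖ := by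
      intro z
      rw [abs_mul, hs, one_mul]
      refine (Complex.abs_im_le_norm _).trans ?_
      rw [norm_mul]
      calc _ ≤ 1 * ‖z‖ := mul_le_mul_of_nonneg_right hc (norm_nonneg _)
        _ = _ := one_mul _
    have t1 := (le_abs_self _).trans ((hb (∫ u in (-(Δ * X))..(Δ * X), K n α u * f 0 (u / Δ))).trans hlow)
    have t2 := (neg_le_abs _).trans ((hb (Bd (n + 1) (G2 n α) ft ((Δ * X : ℝ) : ℂ))).trans (B2.trans hBsmall))
    have t3 := (le_abs_self _).trans ((hb (Bd (n + 1) (G1 n α) ft (-((Δ * X : ℝ) : ℂ)))).trans (B1.trans hBsmall))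
    have : s * ((c * ∫ u in (-(Δ * X))..(Δ * X), K n α u * f 0 (u / Δ)).im +
        (c * ∫ u in (-(Δ * X))..(Δ * X), Dc n α u * ft (n + 1) u).im -
        (c * Bd (n + 1) (G2 n α) ft ((Δ * X : ℝ) : ℂ)).im +
        (c * Bd (n + 1) (G1 n α) ft (-((Δ * X : ℝ) : ℂ))).im) =
        s * (c * ∫ u in (-(Δ * X))..(Δ * X), K n α u * f 0 (u / Δ)).im +
        s * (c * ∫ u in (-(Δ * X))..(Δ * X), Dc n α u * ft (n + 1) u).im +
        -(s * (c * Bd (n + 1) (G2 n α) ft ((Δ * X : ℝ) : ℂ)).im) +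
        s * (c * Bd (n + 1) (G1 n α) ft (-((Δ * X : ℝ) : ℂ))).im := by ring
    rw [this]
    linarith
  have hexp : 0 ≤ Real.exp (Real.pi * Δ) * (A + E / X ^ 2) := by positivity
  have hEX : 0 ≤ Real.exp (Real.pi * Δ) * (E / X ^ 2) := by positivity
  have hle : Real.exp (Real.pi * Δ) * (E / X ^ 2) ≤ Real.exp (Real.pi * Δ) * (A + E / X ^ 2) := by
    apply mul_le_mul_of_nonneg_left _ (Real.exp_pos _).le
    linarith
  have key2 : (n.factorial : ℝ) * (s * (c * f 0 0).im) ≤ (n.factorial : ℝ) *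
      (M * (1 / Δ) ^ (n + 1) * (s * (-(bernoulliFun (n + 1) α) / (n + 1).factorial))) +
      (C1 + 2 * ((n + 1) * C2)) * (Real.exp (Real.pi * Δ) * (A + E / X ^ 2)) := by
    have e7 : (n.factorial : ℝ) *
      (M * (1 / Δ) ^ (n + 1) * (s * (-(bernoulliFun (n + 1) α) / (n + 1).factorial))) =
      M * (1 / Δ) ^ (n + 1) * (s * -(bernoulliFun (n + 1) α / (n + 1))) := by
      rw [Nat.factorial_succ]
      push_cast
      field_simp
    rw [e7]
    have : 0 ≤ ((n:ℝ) + 1) * C2 := by positivity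
    nlinarith [mul_le_mul_of_nonneg_left hle this]
  have key3 : s * (c * f 0 0).im ≤
      (M * (1 / Δ) ^ (n + 1) * (s * (-(bernoulliFun (n + 1) α) / (n + 1).factorial))) +
      (C1 + 2 * ((n + 1) * C2)) * (Real.exp (Real.pi * Δ) * (A + E / X ^ 2)) / n.factorial := by
    rw [← sub_le_iff_le_add', le_div_iff₀ hfac]
    linarith
  refine key3.trans ?_
  have h9 : (C1 + 2 * ((n + 1) * C2)) * (Real.exp (Real.pi * Δ) * (A + E / X ^ 2)) / n.factorial ≤
      (C1 + 2 * ((n + 1) * C2)) * (Real.exp (Real.pi * Δ) * (A + E / X ^ 2)) :=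
    div_le_self (by positivity) hfac1
  linarith

end Pool.Agent.X111.BF
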