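import Pool.Agent.TH803.LG.RHq
import Pool.Agent.H24R2.JP.Zeta
import Pool.Agent.W188.GLR.G1

set_option autoImplicit false

namespace Pool.Agent.X111.BF

open Complex Filter Topology Set
open Pool.Agent.H24R2.JP (XX HH)
open Pool.Agent.H24R2.JP.B1h (XX_diff)
open Pool.Agent.TH803.LG (LC hasSum_EE rh_nonneg re_zero)
open Pool.Agent.W188.GLR (Lam gr_hasDeriv gr_ne lam_bounds Cd)

lemma XX_ne_rh (hRH : RiemannHypothesis) {z : ℂ} (hz : 0 < z.re) : XX z ≠ 0 := fun h => by
  have := re_zero hRH z h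
  linarith

lemma norm_mono (hRH : RiemannHypothesis) (t : ℝ) :
    MonotoneOn (fun y : ℝ => ‖XX (I * t + y)‖ ^ 2) (Ici 0) := by
  intro y1 h1 y2 _ h12
  refine hasSum_le (fun n => ?_) (hasSum_EE t y1) (hasSum_EE t y2)
  apply mul_le_mul_of_nonneg_left _ (rh_nonneg hRH n t)
  exact pow_le_pow_left₀ h1 h12 _

/-- under RH the logarithmic derivative has nonnegative real part on the right half plane -/
lemma herg (hRH : RiemannHypothesis) {z : ℂ} (hz : 0 < z.re) : 0 ≤ (deriv XX z / XX z).re := by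
  have hne := XX_ne_rh hRH hz
  have hz' : I * (z.im : ℂ) + (z.re : ℂ) = z := by
    rw [mul_comm, add_comm]
    exact Complex.re_add_im z
  have hd : HasDerivAt (fun y : ℝ => XX (I * (z.im : ℂ) + y)) (deriv XX z) z.re := by
    have h1 : HasDerivAt XX (deriv XX z) (I * (z.im : ℂ) + (z.re : ℂ)) := by
      rw [hz']
      exact (XX_diff z).hasDerivAt
    have h2 : HasDerivAt (fun y : ℂ => I * (z.im : ℂ) + y) 1 (z.re : ℂ) := by
      simpa using (hasDerivAt_id (z.re : ℂ)).const_add (I * (z.im : ℂ))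
    have h3 := (h1.comp (z.re : ℂ) h2).comp_ofReal
    simpa using h3
  have hn := hd.norm_sq
  have hw := (hn.hasDerivWithinAt (s := Ici 0)).nonneg_of_monotoneOn ?_ (norm_mono hRH z.im)
  · rw [hz', Complex.inner] at hw
    have e : (deriv XX z / XX z).re = (deriv XX z * (starRingEnd ℂ) (XX z)).re / Complex.normSq (XX z) := by
      rw [Complex.div_re, Complex.mul_re, Complex.conj_re, Complex.conj_im]
      ring
    rw [e]
    apply div_nonneg _ (Complex.normSq_nonneg _)
    linarith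
  · have h4 : Ici (0:ℝ) ∈ 𝓝 z.re := Ici_mem_nhds hz
    rw [accPt_principal_iff_nhdsWithin]
    have h5 : (𝓝[≠] z.re).NeBot := inferInstance
    have h6 : 𝓝[Ici (0:ℝ) \ {z.re}] z.re = 𝓝[≠] z.re := by
      rw [show Ici (0:ℝ) \ {z.re} = Ici (0:ℝ) ∩ {z.re}ᶜ from rfl, nhdsWithin_inter_of_mem]
      exact mem_nhdsWithin_of_mem_nhds h4
    rw [h6]
    exact h5

/-- `ζ'/ζ` -/
noncomputable def Lz (s : ℂ) : ℂ := deriv riemannZeta s / riemannZeta s

/-- the logarithmic derivative of the elementary factor -/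
noncomputable def Hz (z : ℂ) : ℂ := 8 * z / (4 * z ^ 2 - 1) + Lam (1 / 2 + z)

lemma four_ne {z : ℂ} (h : z.im ≠ 0 ∨ 1 / 2 < z.re) (h2 : 0 < z.re) : (4 * z ^ 2 - 1 : ℂ) ≠ 0 := by
  intro h0
  have h1 : (2 * z - 1) * (2 * z + 1) = 0 := by linear_combination h0
  rcases mul_eq_zero.1 h1 with h3 | h3
  · have h4 : z = 1 / 2 := by linear_combination (1 / 2) * h3
    rw [h4] at h
    norm_num at h
  · have h4 : z = -(1 / 2) := by linear_combination (1 / 2) * h3
    rw [h4] at h2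
    norm_num at h2

lemma HH_hasDeriv {z : ℂ} (h : z.im ≠ 0 ∨ 1 / 2 < z.re) (h2 : 0 < z.re) :
    HasDerivAt HH (HH z * Hz z) z := by
  have h1 : HasDerivAt (fun z : ℂ => 4 * z ^ 2 - 1) (8 * z) z := by
    have := ((hasDerivAt_pow 2 z).const_mul 4).sub_const 1
    refine this.congr_deriv ?_
    push_cast
    ring
  have hw : 0 < (1 / 2 + z).re := by simp; linarith
  have h3 : HasDerivAt (fun z : ℂ => Gammaℝ (1 / 2 + z)) (Gammaℝ (1 / 2 + z) * Lam (1 / 2 + z)) z := by
    have h4 : HasDerivAt (fun z : ℂ => 1 / 2 + z) 1 z := by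
      simpa using (hasDerivAt_id z).const_add (1 / 2 : ℂ)
    have := (gr_hasDeriv hw).comp z h4
    rw [mul_one] at this
    exact this
  have h5 := h1.mul h3
  have h6 := four_ne h h2
  refine (h5.congr_deriv ?_).congr_of_eventuallyEq (Eventually.of_forall fun v => rfl)
  unfold HH Hz
  have e : (4 * z ^ 2 - 1) * (8 * z / (4 * z ^ 2 - 1)) = 8 * z := mul_div_cancel₀ _ h6
  linear_combination (-Gammaℝ (1 / 2 + z)) * e

lemma HH_ne {z : ℂ} (h : z.im ≠ 0 ∨ 1 / 2 < z.re) (h2 : 0 < z.re) : HH z ≠ 0 := by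
  unfold HH
  exact mul_ne_zero (four_ne h h2) (gr_ne (by simp; linarith))

lemma zeta_ne (hRH : RiemannHypothesis) {s : ℂ} (hs : 1 / 2 < s.re) (h1 : s ≠ 1) :
    riemannZeta s ≠ 0 := by
  intro h0
  have := hRH s h0 (by
    rintro ⟨n, hn⟩
    rw [hn] at hs
    simp at hs
    have : (0:ℝ) ≤ n := Nat.cast_nonneg n
    linarith) h1
  linarith

lemma logder_XX (hRH : RiemannHypothesis) {z : ℂ} (hz : 0 < z.re) (hi : 0 < z.im) :
    deriv XX z / XX z = Hz z + Lz (1 / 2 + z) := by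
  have hs1 : (1 / 2 + z : ℂ) ≠ 1 := by
    intro h
    have := congrArg Complex.im h
    simp at this
    linarith
  have hze : riemannZeta (1 / 2 + z) ≠ 0 := zeta_ne hRH (by simp; linarith) hs1
  have h1 : XX =ᶠ[𝓝 z] fun w => HH w * riemannZeta (1 / 2 + w) := by
    have : ∀ᶠ w : ℂ in 𝓝 z, 0 < w.im := (isOpen_lt continuous_const Complex.continuous_im).mem_nhds hi
    filter_upwards [this] with w hw using Pool.Agent.H24R2.JP.ZetaTask.part1 w hw
  have h2 : HasDerivAt (fun w => riemannZeta (1 / 2 + w)) (deriv riemannZeta (1 / 2 + z)) z := by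
    have h4 : HasDerivAt (fun z : ℂ => 1 / 2 + z) 1 z := by
      simpa using (hasDerivAt_id z).const_add (1 / 2 : ℂ)
    have := ((differentiableAt_riemannZeta hs1).hasDerivAt).comp z h4
    rw [mul_one] at this
    exact this
  have h3 := ((HH_hasDeriv (Or.inl hi.ne') hz).mul h2).congr_of_eventuallyEq h1
  rw [h3.deriv, h1.eq_of_nhds]
  have h5 := HH_ne (Or.inl hi.ne') hz
  unfold Lz
  rw [div_eq_iff (mul_ne_zero h5 hze)]
  have e : deriv riemannZeta (1 / 2 + z) / riemannZeta (1 / 2 + z) * riemannZeta (1 / 2 + z) =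
      deriv riemannZeta (1 / 2 + z) := div_mul_cancel₀ _ hze
  linear_combination (-HH z) * e

end Pool.Agent.X111.BF
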