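import Pool.Agent.X111.BF.Zet9

set_option autoImplicit false

namespace Pool.Agent.X111.BF

open Complex Filter Topology Set MeasureTheory
open Pool.Agent.W188.GLR (Lam gr_hasDeriv gr_ne lam_bounds Cd)

/-! ### Continuity up to the critical line -/

lemma s0_ne_one {t : ℝ} (ht : 0 < t) (c : ℝ) : (c : ℂ) + t * I ≠ 1 := by
  intro h
  have := congrArg Complex.im h
  simp at this
  linarith

lemma edge_Lz (hRH : RiemannHypothesis) {t : ℝ} (ht : 0 < t)
    (hz : riemannZeta (((1 / 2 : ℝ) : ℂ) + t * I) ≠ 0) {v : ℝ} (hv : 0 ≤ v) :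
    ContinuousAt (fun v : ℝ => -Lz (((1 / 2 : ℝ) : ℂ) + t * I + v)) v := by
  have e : ∀ v : ℝ, ((1 / 2 : ℝ) : ℂ) + t * I + v = ((1 / 2 + v : ℝ) : ℂ) + t * I := by
    intro v; push_cast; ring
  have hne : ((1 / 2 + v : ℝ) : ℂ) + t * I ≠ 1 := s0_ne_one ht _
  have hzv : riemannZeta (((1 / 2 + v : ℝ) : ℂ) + t * I) ≠ 0 := by
    rcases eq_or_lt_of_le hv with h | h
    · rw [← h, add_zero]; exact hz
    · exact zeta_ne hRH (by simpa using h) hne
  have hd : ContinuousAt Lz (((1 / 2 + v : ℝ) : ℂ) + t * I) := by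
    unfold Lz
    refine ContinuousAt.div ?_ (differentiableAt_riemannZeta hne).continuousAt hzv
    have : DifferentiableOn ℂ (deriv riemannZeta) {1}ᶜ :=
      DifferentiableOn.deriv (fun z hz => (differentiableAt_riemannZeta hz).differentiableWithinAt)
        isOpen_compl_singleton
    exact (this.differentiableAt (isOpen_compl_singleton.mem_nhds hne)).continuousAt
  rw [← e] at hd
  exact (ContinuousAt.comp (f := fun v : ℝ => ((1 / 2 : ℝ) : ℂ) + t * I + v) hd (by fun_prop)).neg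

lemma edge_int (hRH : RiemannHypothesis) {t : ℝ} (ht : 0 < t)
    (hz : riemannZeta (((1 / 2 : ℝ) : ℂ) + t * I) ≠ 0) :
    IntegrableOn (fun v : ℝ => -Lz (((1 / 2 : ℝ) : ℂ) + t * I + v)) (Ioi 0) := by
  have hc : ContinuousOn (fun v : ℝ => -Lz (((1 / 2 : ℝ) : ℂ) + t * I + v)) (Ici 0) :=
    fun v hv => (edge_Lz hRH ht hz hv).continuousWithinAt
  have h1 : IntegrableOn (fun v : ℝ => -Lz (((1 / 2 : ℝ) : ℂ) + t * I + v)) (Ioc 0 1) :=
    ((hc.mono Icc_subset_Ici_self).integrableOn_Icc).mono_set Ioc_subset_Icc_self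
  have hm : (((1 / 2 : ℝ) : ℂ) + t * I + ((1:ℝ) : ℂ)) ∈ Om := by
    refine ⟨by simp, Or.inl ?_⟩
    simpa using ht
  obtain ⟨C, hC0, hC⟩ := (Lz_nice hRH).bound_self hm
  have h2 : IntegrableOn (fun v : ℝ => -Lz (((1 / 2 : ℝ) : ℂ) + t * I + v)) (Ioi 1) := by
    have h3 : IntegrableOn (fun v : ℝ => (C * Real.exp (1 / 2)) * Real.exp (-(1 / 2) * v)) (Ioi 1) :=
      (integrableOn_exp_mul_Ioi (by norm_num) _).const_mul _
    refine Integrable.mono' h3 ?_ ?_
    · exact (hc.mono (fun v hv => (le_of_lt (lt_trans zero_lt_one hv) : (0:ℝ) ≤ v))).aestronglyMeasurable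
        measurableSet_Ioi
    · refine (ae_restrict_iff' measurableSet_Ioi).2 (Eventually.of_forall fun v hv => ?_)
      have hv1 : (1:ℝ) < v := hv
      have h4 := hC (v - 1) (by linarith)
      have e : ((1 / 2 : ℝ) : ℂ) + t * I + ((1:ℝ) : ℂ) + ((v - 1 : ℝ) : ℂ) =
          ((1 / 2 : ℝ) : ℂ) + t * I + v := by push_cast; ring
      rw [e] at h4
      rw [norm_neg]
      refine h4.trans (le_of_eq ?_)
      rw [mul_assoc, ← Real.exp_add]
      congr 2
      ring
  have h3 := h1.union h2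
  rwa [Ioc_union_Ioi_eq_Ioi zero_le_one] at h3

/-- the function `a ↦ F 0 (1/2 + a + i t)` is continuous up to `a = 0` at non-ordinates -/
lemma edge_cont (hRH : RiemannHypothesis) {t : ℝ} (ht : 0 < t)
    (hz : riemannZeta (((1 / 2 : ℝ) : ℂ) + t * I) ≠ 0) :
    ContinuousOn (fun a : ℝ => F 0 (((1 / 2 : ℝ) : ℂ) + a + t * I)) (Ici 0) := by
  have hi := edge_int hRH ht hz
  have hF : ∀ a : ℝ, 0 ≤ a → F 0 (((1 / 2 : ℝ) : ℂ) + a + t * I) =
      (∫ v in Ioi (0:ℝ), -Lz (((1 / 2 : ℝ) : ℂ) + t * I + v)) -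
      ∫ v in (0:ℝ)..a, -Lz (((1 / 2 : ℝ) : ℂ) + t * I + v) := by
    intro a ha
    have h1 := intervalIntegral.integral_Ioi_sub_Ioi hi ha
    rw [← h1, sub_sub_cancel]
    show hI _ _ = _
    unfold hI
    have h2 := shift_Ioi (fun v : ℝ => -Lz (((1 / 2 : ℝ) : ℂ) + t * I + v)) 0 a
    rw [zero_add] at h2
    rw [← h2]
    refine setIntegral_congr_fun measurableSet_Ioi fun u _ => ?_
    have e5 : ((1 / 2 : ℝ) : ℂ) + a + t * I + u = ((1 / 2 : ℝ) : ℂ) + t * I + ((u + a : ℝ) : ℂ) := by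
      push_cast
      ring
    simp only [e5]
  intro a ha
  have ha0 : (0:ℝ) ≤ a := ha
  have h4 : ContinuousOn (fun x => ∫ v in (0:ℝ)..x, -Lz (((1 / 2 : ℝ) : ℂ) + t * I + v))
      (uIcc 0 (a + 1)) :=
    intervalIntegral.continuousOn_primitive_interval'
      ((intervalIntegrable_iff_integrableOn_Ioc_of_le (by linarith)).2
        (hi.mono_set (fun u hu => hu.1))) left_mem_uIcc
  have h5 : ContinuousWithinAt (fun x => ∫ v in (0:ℝ)..x, -Lz (((1 / 2 : ℝ) : ℂ) + t * I + v))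
      (Ici 0) a := by
    have h6 := h4 a (by rw [Set.uIcc_of_le (by linarith)]; exact ⟨ha0, by linarith⟩)
    rw [Set.uIcc_of_le (by linarith)] at h6
    refine h6.mono_of_mem_nhdsWithin ?_
    have : Iio (a + 1) ∈ 𝓝[Ici 0] a := mem_nhdsWithin_of_mem_nhds (Iio_mem_nhds (by linarith))
    filter_upwards [this, self_mem_nhdsWithin] with x hx1 hx2
    exact ⟨hx2, le_of_lt hx1⟩
  exact ContinuousWithinAt.congr (continuousWithinAt_const.sub h5) (fun x hx => hF x hx) (hF a ha0)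

/-! ### The argument by continuous variation -/

lemma path_ne (hRH : RiemannHypothesis) {t : ℝ} (ht : 0 < t)
    (hz : riemannZeta (((1 / 2 : ℝ) : ℂ) + t * I) ≠ 0) {x : ℝ} (hx : x ∈ Icc 0 (t + 3 / 2)) :
    riemannZeta (path t x) ≠ 0 := by
  unfold path
  split_ifs with h
  · apply riemannZeta_ne_zero_of_one_lt_re
    simp
  · rcases eq_or_lt_of_le hx.2 with h1 | h1
    · have e : (2 - (x - t) : ℝ) = 1 / 2 := by rw [h1]; ring
      rw [e]
      exact hz
    · apply zeta_ne hRH _ (s0_ne_one ht _)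
      simp
      linarith

lemma IsArg_unique (hRH : RiemannHypothesis) {t : ℝ} (ht : 0 < t)
    (hz : riemannZeta (((1 / 2 : ℝ) : ℂ) + t * I) ≠ 0) {θ1 θ2 : ℝ} (h1 : IsArg t θ1)
    (h2 : IsArg t θ2) : θ1 = θ2 := by
  obtain ⟨φ1, c1, z1, e1, f1⟩ := h1
  obtain ⟨φ2, c2, z2, e2, f2⟩ := h2
  have := lift_zero (g := fun x => φ1 x - φ2 x) (b := t + 3 / 2) (by linarith) (c1.sub c2)
    (by rw [z1, z2, sub_zero]) ?_
  · rw [e1, e2] at this
    linarith
  · intro x hx
    have hne := path_ne hRH ht hz hx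
    have hn : ((‖riemannZeta (path t x)‖ : ℝ) : ℂ) ≠ 0 := by
      exact_mod_cast norm_ne_zero_iff.2 hne
    have h3 := (f1 x hx).symm.trans (f2 x hx)
    have h4 := mul_left_cancel₀ hn h3
    have h5 : Complex.exp (((φ1 x - φ2 x : ℝ) : ℂ) * I) = 1 := by
      push_cast
      rw [sub_mul, Complex.exp_sub, h4, div_self (Complex.exp_ne_zero _)]
    have h6 := congrArg Complex.re h5
    rw [Complex.exp_ofReal_mul_I_re, Complex.one_re] at h6
    exact h6

lemma edge_exp (hRH : RiemannHypothesis) {t : ℝ} (ht : 0 < t)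
    (hz : riemannZeta (((1 / 2 : ℝ) : ℂ) + t * I) ≠ 0) {a : ℝ} (ha : 0 ≤ a) :
    Complex.exp (F 0 (((1 / 2 : ℝ) : ℂ) + a + t * I)) = riemannZeta (((1 / 2 : ℝ) : ℂ) + a + t * I) := by
  have hpos : ∀ a : ℝ, 0 < a → (((1 / 2 : ℝ) : ℂ) + a + t * I) ∈ Om := by
    intro a ha
    refine ⟨by simpa using ha, Or.inl (by simpa using ht)⟩
  rcases eq_or_lt_of_le ha with h | h
  · rw [← h]
    have h1 := (edge_cont hRH ht hz 0 (le_refl (0:ℝ))).tendsto.mono_left
      (nhdsWithin_mono _ (Ioi_subset_Ici_self : Ioi (0:ℝ) ⊆ Ici 0))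
    have h2 := (Complex.continuous_exp.tendsto _).comp h1
    have h3 : Tendsto (fun a : ℝ => riemannZeta (((1 / 2 : ℝ) : ℂ) + a + t * I)) (𝓝[>] 0)
        (𝓝 (riemannZeta (((1 / 2 : ℝ) : ℂ) + (0:ℝ) + t * I))) := by
      have hne : (((1 / 2 : ℝ) : ℂ) + (0:ℝ) + t * I) ≠ 1 := by
        rw [Complex.ofReal_zero, add_zero]
        exact s0_ne_one ht _
      have h4 : ContinuousAt (fun a : ℝ => riemannZeta (((1 / 2 : ℝ) : ℂ) + a + t * I)) 0 :=
        ContinuousAt.comp (f := fun a : ℝ => (((1 / 2 : ℝ) : ℂ) + a + t * I))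
          (differentiableAt_riemannZeta hne).continuousAt (by fun_prop)
      exact h4.tendsto.mono_left nhdsWithin_le_nhds
    refine tendsto_nhds_unique h2 (h3.congr' ?_)
    filter_upwards [self_mem_nhdsWithin] with a ha
    exact (exp_F0 hRH (hpos a ha)).symm
  · exact exp_F0 hRH (hpos a h)

/-- existence of the argument and its value -/
lemma IsArg_F (hRH : RiemannHypothesis) {t : ℝ} (ht : 0 < t)
    (hz : riemannZeta (((1 / 2 : ℝ) : ℂ) + t * I) ≠ 0) :
    IsArg t (F 0 (((1 / 2 : ℝ) : ℂ) + ((0:ℝ) : ℂ) + t * I)).im := by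
  set ψ1 : ℝ → ℝ := fun x => (F 0 (2 + ((|x| : ℝ) : ℂ) * I)).im with hψ1
  set ψ2 : ℝ → ℝ := fun x => (F 0 (((1 / 2 : ℝ) : ℂ) + ((max (t + 3 / 2 - x) 0 : ℝ) : ℂ) + t * I)).im
    with hψ2
  have c1 : Continuous ψ1 := by
    rw [continuous_iff_continuousAt]
    intro x
    have hm : (2 + ((|x| : ℝ) : ℂ) * I) ∈ Om := ⟨by simp; norm_num, Or.inr (by simp)⟩
    have h2 : ContinuousAt (fun x : ℝ => (2 + ((|x| : ℝ) : ℂ) * I)) x := by fun_prop
    exact Complex.continuous_im.continuousAt.comp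
      (ContinuousAt.comp (f := fun x : ℝ => (2 + ((|x| : ℝ) : ℂ) * I)) (F_deriv0 hRH hm).continuousAt h2)
  have c2 : Continuous ψ2 := by
    have h1 := edge_cont hRH ht hz
    have h2 : Continuous (fun x : ℝ => F 0 (((1 / 2 : ℝ) : ℂ) + ((max (t + 3 / 2 - x) 0 : ℝ) : ℂ) + t * I)) := by
      rw [← continuousOn_univ]
      exact h1.comp (f := fun x : ℝ => max (t + 3 / 2 - x) 0) (by fun_prop)
        (fun x _ => mem_Ici.2 (le_max_right _ _))
    exact Complex.continuous_im.comp h2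
  have hval : ∀ x ∈ Icc 0 (t + 3 / 2), (if x ≤ t then ψ1 x else ψ2 x) = (F 0 (path t x)).im := by
    intro x hx
    unfold path
    split_ifs with h
    · simp only [hψ1]
      rw [abs_of_nonneg hx.1]
    · simp only [hψ2]
      rw [max_eq_left (by linarith [hx.2])]
      congr 3
      push_cast
      ring
  refine ⟨fun x => if x ≤ t then ψ1 x else ψ2 x, ?_, ?_, ?_, ?_⟩
  · refine (Continuous.if_le c1 c2 continuous_id continuous_const ?_).continuousOn
    intro x hx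
    have hx' : x = t := hx
    simp only [hψ1, hψ2]
    rw [hx', abs_of_pos ht, max_eq_left (by linarith)]
    congr 2
    push_cast
    ring
  · simp only
    rw [if_pos ht.le]
    simp only [hψ1]
    have e : (2 + ((|(0:ℝ)| : ℝ) : ℂ) * I) = ((2:ℝ) : ℂ) := by simp
    rw [e]
    exact real_F0 (by norm_num)
  · simp only
    rw [if_neg (by linarith)]
    simp only [hψ2]
    rw [show t + 3 / 2 - (t + 3 / 2) = (0:ℝ) by ring, max_self]
  · intro x hx
    simp only
    rw [hval x hx]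
    have hexp : Complex.exp (F 0 (path t x)) = riemannZeta (path t x) := by
      unfold path
      split_ifs with h
      · apply exp_F0 hRH
        exact ⟨by simp; norm_num, Or.inr (by simp)⟩
      · have e : ((2 - (x - t) : ℝ) : ℂ) + t * I =
            ((1 / 2 : ℝ) : ℂ) + ((t + 3 / 2 - x : ℝ) : ℂ) + t * I := by push_cast; ring
        rw [e]
        exact edge_exp hRH ht hz (by linarith [hx.2])
    rw [← hexp, Complex.norm_exp]
    rw [Complex.ofReal_exp, ← Complex.exp_add]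
    congr 1
    exact (Complex.re_add_im _).symm

theorem S0_eq (hRH : RiemannHypothesis) {t : ℝ} (ht : 0 < t)
    (hz : riemannZeta (((1 / 2 : ℝ) : ℂ) + t * I) ≠ 0) :
    S0 t = (F 0 (((1 / 2 : ℝ) : ℂ) + ((0:ℝ) : ℂ) + t * I)).im / Real.pi := by
  have hex : ∃ θ, IsArg t θ := ⟨_, IsArg_F hRH ht hz⟩
  unfold S0
  rw [dif_pos hex]
  congr 1
  exact IsArg_unique hRH ht hz hex.choose_spec (IsArg_F hRH ht hz)

/-- pointwise convergence at non-ordinates -/
lemma S0_lim (hRH : RiemannHypothesis) {t : ℝ} (ht : 0 < t)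
    (hz : riemannZeta (((1 / 2 : ℝ) : ℂ) + t * I) ≠ 0) :
    Tendsto (fun a : ℝ => (F 0 (((1 / 2 : ℝ) : ℂ) + a + t * I)).im) (𝓝[>] 0) (𝓝 (Real.pi * S0 t)) := by
  rw [S0_eq hRH ht hz, mul_div_cancel₀ _ Real.pi_ne_zero]
  have h1 := (edge_cont hRH ht hz 0 (le_refl (0:ℝ))).tendsto.mono_left
      (nhdsWithin_mono _ (Ioi_subset_Ici_self : Ioi (0:ℝ) ⊆ Ici 0))
  exact (Complex.continuous_im.tendsto _).comp h1

end Pool.Agent.X111.BF
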