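import Pool.Agent.X111.BF.Zet10

set_option autoImplicit false

namespace Pool.Agent.X111.BF

open Complex Filter Topology Set MeasureTheory
open Pool.Agent.W188.GLR (Lam gr_hasDeriv gr_ne lam_bounds Cd)

lemma notOrd_of (hRH : RiemannHypothesis) {t : ℝ} (ht : 0 < t)
    (hz : riemannZeta (((1 / 2 : ℝ) : ℂ) + t * I) ≠ 0) : NotOrd t := by
  intro σ h0
  have h1 := hRH _ h0 (by
    rintro ⟨n, hn⟩
    have := congrArg Complex.im hn
    simp at this
    linarith) (s0_ne_one ht σ)
  have h2 : σ = 1 / 2 := by simpa using h1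
  rw [h2] at h0
  exact hz h0

lemma S_eq (hRH : RiemannHypothesis) {t : ℝ} (ht : 0 < t)
    (hz : riemannZeta (((1 / 2 : ℝ) : ℂ) + t * I) ≠ 0) : S t = S0 t := by
  unfold S
  rw [if_pos (notOrd_of hRH ht hz)]

lemma zeros_finite (T : ℝ) :
    {x : ℝ | x ∈ Icc 0 T ∧ riemannZeta (((1 / 2 : ℝ) : ℂ) + x * I) = 0}.Finite := by
  have hK : IsCompact ((fun x : ℝ => ((1 / 2 : ℝ) : ℂ) + x * I) '' Icc 0 T) :=
    isCompact_Icc.image (by fun_prop)
  have h1 := hK.inter_riemannZetaZeros_finite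
  have hinj : Function.Injective (fun x : ℝ => ((1 / 2 : ℝ) : ℂ) + x * I) := by
    intro x y h
    have := congrArg Complex.im h
    simpa using this
  have h2 := h1.preimage hinj.injOn
  refine h2.subset ?_
  rintro x ⟨hx, hz⟩
  exact ⟨⟨x, hx, rfl⟩, hz⟩

lemma ae_nonord (T : ℝ) : ∀ᵐ x ∂(volume : Measure ℝ), x ∈ Ioc 0 T →
    riemannZeta (((1 / 2 : ℝ) : ℂ) + x * I) ≠ 0 := by
  have h1 := (zeros_finite T).measure_zero (volume : Measure ℝ)
  rw [ae_iff]
  refine measure_mono_null ?_ h1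
  intro x hx
  simp only [mem_ofPred_eq, Classical.not_imp, not_not] at hx
  exact ⟨⟨hx.1.1.le, hx.1.2⟩, hx.2⟩

lemma exists_nonord {T : ℝ} (hT : 0 < T) : ∃ T' : ℝ, T ≤ T' ∧
    riemannZeta (((1 / 2 : ℝ) : ℂ) + T' * I) ≠ 0 := by
  by_contra hcon
  push Not at hcon
  have h1 : Icc T (T + 1) ⊆ {x : ℝ | x ∈ Icc 0 (T + 1) ∧ riemannZeta (((1 / 2 : ℝ) : ℂ) + x * I) = 0} :=
    fun x hx => ⟨⟨by linarith [hx.1], hx.2⟩, hcon x hx.1⟩
  exact (Icc_infinite (by linarith : T < T + 1)) ((zeros_finite (T + 1)).subset h1)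

/-- local boundedness of the argument, uniformly up to the critical line -/
lemma bA (hRH : RiemannHypothesis) {T : ℝ} (hT : 0 < T) : ∃ B : ℝ, ∀ a τ : ℝ, 0 < a → a ≤ 1 / 4 →
    0 < τ → τ ≤ T → |(F 0 (((1 / 2 : ℝ) : ℂ) + a + τ * I)).im| ≤ B := by
  obtain ⟨ε, h0, h1, hpos, hthin⟩ := thin hRH
  obtain ⟨T', hT', hz'⟩ := exists_nonord hT
  have hT'0 : 0 < T' := by linarith
  -- bound at T'
  have hc := (Complex.continuous_im.comp_continuousOn (edge_cont hRH hT'0 hz')).mono
    (Icc_subset_Ici_self : Icc (0:ℝ) 1 ⊆ Ici 0)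
  obtain ⟨B1, hB1⟩ := isCompact_Icc.exists_bound_of_continuousOn hc
  -- bound for Hz
  set CH : ℝ := 2 / ε + (Real.log (4 + T') / 2 + Cd (1 / 4)) with hCH
  have hHz : ∀ a y : ℝ, 0 < a → a ≤ 1 / 4 → ε ≤ y → y ≤ T' → ‖Hz ((a : ℂ) + y * I)‖ ≤ CH := by
    intro a y ha0 ha1 hy0 hy1
    set z : ℂ := (a : ℂ) + y * I with hzdef
    have hre : z.re = a := by simp [hzdef]
    have him : z.im = y := by simp [hzdef]
    have hypos : 0 < y := by linarith
    have hne := four_ne (z := z) (Or.inl (by rw [him]; exact hypos.ne')) (by rw [hre]; exact ha0)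
    have hm : (2 * z - 1 : ℂ) ≠ 0 := by
      intro h
      have := congrArg Complex.im h
      simp [him] at this
      linarith
    have hp : (2 * z + 1 : ℂ) ≠ 0 := by
      intro h
      have := congrArg Complex.im h
      simp [him] at this
      linarith
    have e : 8 * z / (4 * z ^ 2 - 1) = 2 / (2 * z - 1) + 2 / (2 * z + 1) := by
      rw [div_add_div _ _ hm hp, div_eq_div_iff hne (mul_ne_zero hm hp)]
      ring
    have hi1 : 2 * ε ≤ ‖2 * z - 1‖ := by
      refine le_trans ?_ (Complex.abs_im_le_norm _)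
      simp [him]
      rw [abs_of_pos hypos]
      linarith
    have hi2 : 2 * ε ≤ ‖2 * z + 1‖ := by
      refine le_trans ?_ (Complex.abs_im_le_norm _)
      simp [him]
      rw [abs_of_pos hypos]
      linarith
    have hA : ‖8 * z / (4 * z ^ 2 - 1)‖ ≤ 2 / ε := by
      rw [e]
      refine (norm_add_le _ _).trans ?_
      rw [norm_div, norm_div]
      have h2 : ‖(2:ℂ)‖ = 2 := by simp
      rw [h2]
      have h4 : 2 / ‖2 * z - 1‖ ≤ 1 / ε := by
        rw [div_le_div_iff₀ (by linarith) h0]; linarith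
      have h5 : 2 / ‖2 * z + 1‖ ≤ 1 / ε := by
        rw [div_le_div_iff₀ (by linarith) h0]; linarith
      have : 2 / ε = 1 / ε + 1 / ε := by ring
      linarith
    have hB := (lam_bounds (w := 1 / 2 + z) (a := 1 / 4) (by norm_num)
      (by simp [hre]; linarith)).2
    have hn : ‖(1 / 2 + z) / 2 + 2‖ ≤ 4 + T' := by
      refine (Complex.norm_le_abs_re_add_abs_im _).trans ?_
      have e1 : ((1 / 2 + z) / 2 + 2 : ℂ).re = (1 / 2 + z.re) / 2 + 2 := by simp
      have e2 : ((1 / 2 + z) / 2 + 2 : ℂ).im = z.im / 2 := by simp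
      rw [e1, e2, hre, him, abs_of_pos (by linarith), abs_of_pos (by linarith)]
      linarith
    have hpos' : 0 < ‖(1 / 2 + z) / 2 + 2‖ := by
      refine lt_of_lt_of_le ?_ (Complex.abs_im_le_norm _)
      have e2 : ((1 / 2 + z) / 2 + 2 : ℂ).im = z.im / 2 := by simp
      rw [e2, him, abs_of_pos (by linarith)]
      linarith
    have hlog : Real.log ‖(1 / 2 + z) / 2 + 2‖ ≤ Real.log (4 + T') := Real.log_le_log hpos' hn
    unfold Hz
    calc _ ≤ _ := norm_add_le _ _
      _ ≤ 2 / ε + (Real.log ‖(1 / 2 + z) / 2 + 2‖ / 2 + Cd (1 / 4)) := add_le_add hA hB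
      _ ≤ _ := by rw [hCH]; linarith
  refine ⟨2 * Real.pi + |B1| + |CH| * (T' + 1), fun a τ ha0 ha1 hτ0 hτT => ?_⟩
  have hsmall : ∀ y : ℝ, 0 < y → y ≤ ε → |(F 0 (((1 / 2 : ℝ) : ℂ) + a + y * I)).im| ≤ 2 * Real.pi := by
    intro y hy0 hy1
    have hr : (((1 / 2 : ℝ) : ℂ) + a + y * I).re = 1 / 2 + a := by simp
    have hi : (((1 / 2 : ℝ) : ℂ) + a + y * I).im = y := by simp
    rw [hthin _ (by rw [hr]; linarith) (by rw [hr]; linarith) (by rw [hi]; exact hy0)
      (by rw [hi]; exact hy1), Complex.sub_im, Complex.log_im, Complex.log_im]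
    have h2 := Complex.abs_arg_le_pi (riemannZeta₁ (((1 / 2 : ℝ) : ℂ) + a + y * I))
    have h3 := Complex.abs_arg_le_pi (((1 / 2 : ℝ) : ℂ) + a + y * I - 1)
    refine (abs_sub _ _).trans ?_
    linarith
  rcases le_total τ ε with hle | hle
  · refine (hsmall τ hτ0 hle).trans ?_
    have : 0 ≤ |CH| * (T' + 1) := by positivity
    linarith [abs_nonneg B1]
  · -- monotonicity
    set M : ℝ → ℝ := fun y => (F 0 (((1 / 2 : ℝ) : ℂ) + a + y * I)).im + |CH| * y with hM
    have hmem : ∀ y : ℝ, ε ≤ y → (((1 / 2 : ℝ) : ℂ) + a + y * I) ∈ Om := by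
      intro y hy
      refine ⟨by simpa using ha0, Or.inl ?_⟩
      have : 0 < y := by linarith
      simpa using this
    have hMd : ∀ y : ℝ, ε ≤ y → HasDerivAt M ((Lz (((1 / 2 : ℝ) : ℂ) + a + y * I)).re + |CH|) y := by
      intro y hy
      have d1 : HasDerivAt (fun w : ℂ => ((1 / 2 : ℝ) : ℂ) + a + w * I) I (y : ℂ) := by
        have := ((hasDerivAt_id (y : ℂ)).mul_const I).const_add (((1 / 2 : ℝ) : ℂ) + a)
        simpa using this
      have d2 := ((F_deriv0 hRH (hmem y hy)).comp (y : ℂ) d1).comp_ofReal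
      have d3 := (Complex.imCLM.hasFDerivAt.comp_hasDerivAt y d2)
      have d4 : HasDerivAt (fun y : ℝ => |CH| * y) |CH| y := by
        simpa using (hasDerivAt_id y).const_mul |CH|
      have d5 := d3.add d4
      refine (d5.congr_deriv ?_).congr_of_eventuallyEq (Eventually.of_forall fun v => rfl)
      simp [Complex.mul_im]
    have hmono : MonotoneOn M (Icc ε T') := by
      apply monotoneOn_of_deriv_nonneg (convex_Icc _ _)
      · exact fun y hy => (hMd y hy.1).continuousAt.continuousWithinAt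
      · rw [interior_Icc]
        exact fun y hy => (hMd y hy.1.le).differentiableAt.differentiableWithinAt
      · rw [interior_Icc]
        intro y hy
        rw [(hMd y hy.1.le).deriv]
        have hy0 : 0 < y := by linarith [hy.1]
        have h2 := logder_XX hRH (z := (a : ℂ) + y * I) (by simpa using ha0) (by simpa using hy0)
        have h3 := herg hRH (z := (a : ℂ) + y * I) (by simpa using ha0)
        rw [h2, Complex.add_re] at h3
        have h4 := (Complex.abs_re_le_norm _).trans (hHz a y ha0 ha1 hy.1.le hy.2.le)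
        have e : (1 / 2 + ((a : ℂ) + y * I)) = ((1 / 2 : ℝ) : ℂ) + a + y * I := by push_cast; ring
        rw [e] at h3
        have h5 := le_abs_self (Hz ((a : ℂ) + y * I)).re
        have h6 := le_abs_self CH
        linarith
    have hτmem : τ ∈ Icc ε T' := ⟨hle, by linarith⟩
    have l1 := hmono (left_mem_Icc.2 (by linarith : ε ≤ T')) hτmem hle
    have l2 := hmono hτmem (right_mem_Icc.2 (by linarith : ε ≤ T')) (by linarith : τ ≤ T')
    simp only [hM] at l1 l2
    have b1 := hsmall ε h0 le_rfl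
    have b2 := hB1 a ⟨ha0.le, by linarith⟩
    simp only [Function.comp_apply, Real.norm_eq_abs] at b2
    rw [abs_le] at b1
    have b3 := abs_le.1 (b2.trans (le_abs_self B1))
    have hc0 := abs_nonneg CH
    rw [abs_le]
    constructor
    · have : |CH| * ε - |CH| * τ ≥ -(|CH| * (T' + 1)) := by nlinarith
      linarith [b1.1, abs_nonneg B1]
    · have : |CH| * T' - |CH| * τ ≤ |CH| * (T' + 1) := by nlinarith
      linarith [b3.2, Real.pi_pos]

end Pool.Agent.X111.BF
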