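import Pool.Agent.X111.BF.Zet11

set_option autoImplicit false

namespace Pool.Agent.X111.BF

open Complex Filter Topology Set MeasureTheory

/-- `π S_n` shifted to the right of the critical line -/
noncomputable def mm (n : ℕ) (a t : ℝ) : ℝ := (I ^ n * F n (((1 / 2 : ℝ) : ℂ) + a + t * I)).im

lemma mem_Om2 {a t : ℝ} (ha : 0 < a) (ht : 0 < t) : (((1 / 2 : ℝ) : ℂ) + a + t * I) ∈ Om :=
  ⟨by simpa using ha, Or.inl (by simpa using ht)⟩

lemma line_deriv (a t : ℝ) : HasDerivAt (fun w : ℂ => ((1 / 2 : ℝ) : ℂ) + a + w * I) I (t : ℂ) := by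
  have := ((hasDerivAt_id (t : ℂ)).mul_const I).const_add (((1 / 2 : ℝ) : ℂ) + a)
  simpa using this

lemma mm_deriv (hRH : RiemannHypothesis) (n : ℕ) {a t : ℝ} (ha : 0 < a) (ht : 0 < t) :
    HasDerivAt (mm (n + 1) a) (mm n a t) t := by
  have d2 := (((F_deriv hRH n (mem_Om2 ha ht)).comp (t : ℂ) (line_deriv a t)).const_mul
    (I ^ (n + 1))).comp_ofReal
  have d3 := (Complex.imCLM.hasFDerivAt.comp_hasDerivAt t d2)
  refine (d3.congr_deriv ?_).congr_of_eventuallyEq (Eventually.of_forall fun v => rfl)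
  simp only [Complex.imCLM_apply]
  unfold mm
  congr 1
  rw [pow_succ]
  linear_combination (-(I ^ n * F n (((1 / 2 : ℝ) : ℂ) + a + t * I))) * Complex.I_mul_I

lemma mm_cont (hRH : RiemannHypothesis) (n : ℕ) {a : ℝ} (ha : 0 < a) :
    ContinuousOn (mm n a) (Ioi 0) := by
  intro t ht
  have ht0 : (0:ℝ) < t := ht
  have h1 : ContinuousAt (fun w : ℂ => F n (((1 / 2 : ℝ) : ℂ) + a + w * I)) (t : ℂ) := by
    have h2 : DifferentiableAt ℂ (F n) (((1 / 2 : ℝ) : ℂ) + a + t * I) :=
      (F_nice hRH n).diff.differentiableAt (Om_open.mem_nhds (mem_Om2 ha ht0))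
    exact ContinuousAt.comp (f := fun w : ℂ => (((1 / 2 : ℝ) : ℂ) + a + w * I)) h2.continuousAt (by fun_prop)
  have h3 : ContinuousAt (fun t : ℝ => F n (((1 / 2 : ℝ) : ℂ) + a + t * I)) t :=
    ContinuousAt.comp (f := fun t : ℝ => (t : ℂ)) h1 Complex.continuous_ofReal.continuousAt
  exact (Complex.continuous_im.continuousAt.comp (continuousAt_const.mul h3)).continuousWithinAt

lemma mm_zero (hRH : RiemannHypothesis) (n : ℕ) {a : ℝ} (ha : 0 < a) (ha1 : a ≤ 1 / 4) :
    Tendsto (mm n a) (𝓝[>] 0) (𝓝 (I ^ n * Phi n (1 / 2 + a)).im) := by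
  have h1 := (limn hRH n).1 (1 / 2 + a) (by linarith) (by linarith)
  have h2 := (Complex.continuous_im.tendsto _).comp (h1.const_mul (I ^ n))
  refine h2.congr fun t => ?_
  unfold mm
  simp only [Function.comp_apply]
  congr 4
  push_cast
  ring

/-- the antiderivative identity on the shifted line -/
lemma mm_int (hRH : RiemannHypothesis) (n : ℕ) {a t B : ℝ} (ha : 0 < a) (ha1 : a ≤ 1 / 4) (ht : 0 < t)
    (hB : ∀ τ : ℝ, 0 < τ → τ ≤ t → |mm n a τ| ≤ B) :
    IntervalIntegrable (mm n a) volume 0 t ∧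
    mm (n + 1) a t = (I ^ (n + 1) * Phi (n + 1) (1 / 2 + a)).im + ∫ τ in (0:ℝ)..t, mm n a τ := by
  have hint : IntervalIntegrable (mm n a) volume 0 t := by
    rw [intervalIntegrable_iff_integrableOn_Ioc_of_le ht.le]
    refine Integrable.mono' (g := fun _ => B) (by simp) ?_ ?_
    · exact ((mm_cont hRH n ha).mono (fun x hx => hx.1)).aestronglyMeasurable measurableSet_Ioc
    · exact (ae_restrict_iff' measurableSet_Ioc).2 (Eventually.of_forall fun τ hτ => hB τ hτ.1 hτ.2)
  refine ⟨hint, ?_⟩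
  have h1 : ∀ e ∈ Ioc 0 t, mm (n + 1) a t = mm (n + 1) a e + ∫ τ in e..t, mm n a τ := by
    intro e he
    have h2 := intervalIntegral.integral_eq_sub_of_hasDerivAt (a := e) (b := t)
      (f := mm (n + 1) a) (f' := mm n a) (fun τ hτ => mm_deriv hRH n ha (by
        rw [Set.uIcc_of_le he.2] at hτ
        exact lt_of_lt_of_le he.1 hτ.1)) (hint.mono_set (by
        rw [Set.uIcc_of_le he.2, Set.uIcc_of_le ht.le]
        exact Icc_subset_Icc_left he.1.le))
    rw [h2]
    ring
  have h2 : Tendsto (fun e : ℝ => ∫ τ in e..t, mm n a τ) (𝓝[>] 0) (𝓝 (∫ τ in (0:ℝ)..t, mm n a τ)) := by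
    have h3 : ContinuousOn (fun x => ∫ τ in x..t, mm n a τ) (uIcc 0 t) :=
      intervalIntegral.continuousOn_primitive_interval_left
        (by
          have := (intervalIntegrable_iff_integrableOn_Icc_of_le ht.le).1 hint
          rw [Set.uIcc_of_le ht.le]
          exact this)
    have h4 := h3 0 left_mem_uIcc
    refine h4.tendsto.mono_left ?_
    rw [nhdsWithin_le_iff, Set.uIcc_of_le ht.le]
    filter_upwards [Ioc_mem_nhdsGT ht] with e he
    exact ⟨he.1.le, he.2⟩
  have h3 := (mm_zero hRH (n + 1) ha ha1).add h2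
  have h4 : Tendsto (fun _ : ℝ => mm (n + 1) a t) (𝓝[>] 0) (𝓝 ((I ^ (n + 1) * Phi (n + 1) (1 / 2 + a)).im +
      ∫ τ in (0:ℝ)..t, mm n a τ)) := by
    refine h3.congr' ?_
    filter_upwards [Ioc_mem_nhdsGT ht] with e he
    exact (h1 e he).symm
  exact tendsto_nhds_unique tendsto_const_nhds h4

lemma Phi_bound (hRH : RiemannHypothesis) (n : ℕ) : ∃ D : ℝ, ∀ a : ℝ, 0 < a → a ≤ 1 / 4 →
    |(I ^ (n + 1) * Phi (n + 1) (1 / 2 + a)).im| ≤ D := by
  refine ⟨∫ u in Ioi (1 / 2 : ℝ), ‖Phi n u‖, fun a ha ha1 => ?_⟩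
  refine (Complex.abs_im_le_norm _).trans ?_
  rw [norm_mul, norm_pow, Complex.norm_I, one_pow, one_mul]
  show ‖∫ u in Ioi (1 / 2 + a), Phi n u‖ ≤ _
  refine (norm_integral_le_integral_norm _).trans ?_
  exact setIntegral_mono_set (limn hRH n).2.norm (Eventually.of_forall fun x => norm_nonneg _)
    (Ioi_subset_Ioi (by linarith)).eventuallyLE

/-- identification of the problem's functions -/
lemma ident (hRH : RiemannHypothesis) (n : ℕ) :
    (∀ T : ℝ, 0 < T → ∃ B : ℝ, ∀ a τ : ℝ, 0 < a → a ≤ 1 / 4 → 0 < τ → τ ≤ T → |mm n a τ| ≤ B) ∧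
    (∀ t : ℝ, 0 < t → (n = 0 → riemannZeta (((1 / 2 : ℝ) : ℂ) + t * I) ≠ 0) →
      Tendsto (fun a => mm n a t) (𝓝[>] 0) (𝓝 (Real.pi * Sn n t))) := by
  induction n with
  | zero =>
    constructor
    · intro T hT
      obtain ⟨B, hB⟩ := bA hRH hT
      refine ⟨B, fun a τ h1 h2 h3 h4 => ?_⟩
      unfold mm
      rw [pow_zero, one_mul]
      exact hB a τ h1 h2 h3 h4
    · intro t ht hz
      have hz' := hz rfl
      have h1 := S0_lim hRH ht hz'
      have h2 : Sn 0 t = S0 t := S_eq hRH ht hz'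
      rw [h2]
      refine h1.congr fun a => ?_
      unfold mm
      rw [pow_zero, one_mul]
  | succ n ih =>
    obtain ⟨ihB, ihL⟩ := ih
    obtain ⟨D, hD⟩ := Phi_bound hRH n
    constructor
    · intro T hT
      obtain ⟨B, hB⟩ := ihB T hT
      refine ⟨D + |B| * T, fun a τ h1 h2 h3 h4 => ?_⟩
      obtain ⟨hi, he⟩ := mm_int hRH n (t := τ) h1 h2 h3 (fun x hx hx2 => hB a x h1 h2 hx (by linarith))
      rw [he]
      refine (abs_add_le _ _).trans (add_le_add (hD a h1 h2) ?_)
      have h5 := intervalIntegral.norm_integral_le_of_norm_le_const (a := 0) (b := τ) (C := |B|)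
        (f := mm n a) (fun x hx => by
          rw [uIoc_of_le h3.le] at hx
          exact (hB a x h1 h2 hx.1 (by linarith [hx.2])).trans (le_abs_self B))
      rw [Real.norm_eq_abs, sub_zero, abs_of_pos h3] at h5
      refine h5.trans ?_
      exact mul_le_mul_of_nonneg_left h4 (abs_nonneg B)
    · intro t ht _
      obtain ⟨B, hB⟩ := ihB t ht
      have hlim : Tendsto (fun a => ∫ τ in (0:ℝ)..t, mm n a τ) (𝓝[>] 0)
          (𝓝 (∫ τ in (0:ℝ)..t, Real.pi * Sn n τ)) := by
        refine intervalIntegral.tendsto_integral_filter_of_dominated_convergence (fun _ => B) ?_ ?_ ?_ ?_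
        · filter_upwards [self_mem_nhdsWithin] with a ha
          rw [uIoc_of_le ht.le]
          exact ((mm_cont hRH n ha).mono (fun x hx => hx.1)).aestronglyMeasurable measurableSet_Ioc
        · filter_upwards [Ioc_mem_nhdsGT (show (0:ℝ) < 1 / 4 by norm_num)] with a ha
          refine Eventually.of_forall fun τ hτ => ?_
          rw [uIoc_of_le ht.le] at hτ
          exact hB a τ ha.1 ha.2 hτ.1 hτ.2
        · exact intervalIntegrable_const
        · filter_upwards [ae_nonord t] with τ hτ hτ2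
          rw [uIoc_of_le ht.le] at hτ2
          exact ihL τ hτ2.1 (fun _ => hτ hτ2)
      have h2 := (d_lim hRH n).add hlim
      have h3 : Real.pi * Sn (n + 1) t = Real.pi * delta (n + 1) + ∫ τ in (0:ℝ)..t, Real.pi * Sn n τ := by
        rw [intervalIntegral.integral_const_mul]
        show Real.pi * ((∫ τ in (0:ℝ)..t, Sn n τ) + delta (n + 1)) = _
        ring
      rw [h3]
      refine h2.congr' ?_
      filter_upwards [Ioc_mem_nhdsGT (show (0:ℝ) < 1 / 4 by norm_num)] with a ha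
      exact (mm_int hRH n ha.1 ha.2 ht (fun x hx hx2 => hB a x ha.1 ha.2 hx hx2)).2.symm

/-- the shift costs little -/
lemma shift_cost (hRH : RiemannHypothesis) (n : ℕ) : ∃ C : ℝ, 0 < C ∧ ∀ t a : ℝ, 2 ≤ t → 0 < a →
    |mm (n + 2) a t - Real.pi * Sn (n + 2) t| ≤ C * Real.log t * a := by
  obtain ⟨C, hC0, hC⟩ := B1 hRH n
  refine ⟨C, hC0, fun t a ht ha => ?_⟩
  have ht0 : 0 < t := by linarith
  have hb : ∀ b : ℝ, 0 < b → b ≤ a → |mm (n + 2) a t - mm (n + 2) b t| ≤ C * Real.log t * a := by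
    intro b hb hba
    have hd : ∀ v ∈ uIcc b a, HasDerivAt (fun v : ℝ => F (n + 2) (((1 / 2 : ℝ) : ℂ) + v + t * I))
        (-F (n + 1) (((1 / 2 : ℝ) : ℂ) + v + t * I)) v := by
      intro v hv
      rw [Set.uIcc_of_le hba] at hv
      have hv0 : 0 < v := lt_of_lt_of_le hb hv.1
      have d1 : HasDerivAt (fun w : ℂ => ((1 / 2 : ℝ) : ℂ) + w + t * I) 1 (v : ℂ) := by
        have := ((hasDerivAt_id (v : ℂ)).const_add ((1 / 2 : ℝ) : ℂ)).add_const (t * I)
        simpa using this
      have d2 := ((F_deriv hRH (n + 1) (mem_Om2 hv0 ht0)).comp (v : ℂ) d1).comp_ofReal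
      rw [mul_one] at d2
      exact d2
    have h1 := intervalIntegral.integral_eq_sub_of_hasDerivAt hd (by
      apply ContinuousOn.intervalIntegrable
      intro v hv
      rw [Set.uIcc_of_le hba] at hv
      have hv0 : 0 < v := lt_of_lt_of_le hb hv.1
      have h2 : ContinuousAt (F (n + 1)) (((1 / 2 : ℝ) : ℂ) + v + t * I) :=
        (F_deriv hRH n (mem_Om2 hv0 ht0)).continuousAt
      exact (ContinuousAt.comp (f := fun v : ℝ => ((1 / 2 : ℝ) : ℂ) + v + t * I) h2
        (by fun_prop)).neg.continuousWithinAt)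
    have h3 := intervalIntegral.norm_integral_le_of_norm_le_const (a := b) (b := a)
      (C := C * Real.log t) (f := fun v : ℝ => -F (n + 1) (((1 / 2 : ℝ) : ℂ) + v + t * I)) (fun v hv => by
        rw [uIoc_of_le hba] at hv
        rw [norm_neg]
        exact (hC v t (lt_trans hb hv.1) ht).2 n le_rfl)
    rw [h1, abs_of_nonneg (by linarith)] at h3
    have h4 : mm (n + 2) a t - mm (n + 2) b t = (I ^ (n + 2) *
        (F (n + 2) (((1 / 2 : ℝ) : ℂ) + a + t * I) - F (n + 2) (((1 / 2 : ℝ) : ℂ) + b + t * I))).im := by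
      unfold mm
      rw [mul_sub, Complex.sub_im]
    rw [h4]
    refine (Complex.abs_im_le_norm _).trans ?_
    rw [norm_mul, norm_pow, Complex.norm_I, one_pow, one_mul]
    refine h3.trans ?_
    have hlog : 0 ≤ Real.log t := Real.log_nonneg (by linarith)
    apply mul_le_mul_of_nonneg_left _ (by positivity)
    linarith
  have hl := (ident hRH (n + 2)).2 t ht0 (fun h => by omega)
  have h5 := (hl.const_sub (mm (n + 2) a t)).abs
  refine le_of_tendsto h5 ?_
  filter_upwards [Ioc_mem_nhdsGT ha] with b hb'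
  exact hb b hb'.1 hb'.2

end Pool.Agent.X111.BF
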