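import Pool.Agent.X111.BF.Zet1

set_option autoImplicit false

namespace Pool.Agent.X111.BF

open Complex Filter Topology Set
open Pool.Agent.H24R2.JP (XX HH)
open Pool.Agent.H24R2.JP.B1h (XX_diff)
open Pool.Agent.W188.GLR (Lam gr_hasDeriv gr_ne lam_bounds Cd)

lemma Hz_bound : ∃ C : ℝ, 0 < C ∧ ∀ z : ℂ, 0 < z.re → z.re ≤ 3 → 1 ≤ z.im →
    ‖Hz z‖ ≤ Real.log z.im / 2 + C := by
  refine ⟨2 + Real.log 5 / 2 + |Cd (1 / 4)|, by positivity, fun z h0 h3 h1 => ?_⟩
  have hne := four_ne (z := z) (Or.inl (by linarith)) h0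
  have hA : ‖8 * z / (4 * z ^ 2 - 1)‖ ≤ 2 := by
    have hm : (2 * z - 1 : ℂ) ≠ 0 := by
      intro h
      have := congrArg Complex.im h
      simp at this
      linarith
    have hp : (2 * z + 1 : ℂ) ≠ 0 := by
      intro h
      have := congrArg Complex.im h
      simp at this
      linarith
    have e : 8 * z / (4 * z ^ 2 - 1) = 2 / (2 * z - 1) + 2 / (2 * z + 1) := by
      rw [div_add_div _ _ hm hp, div_eq_div_iff hne (mul_ne_zero hm hp)]
      ring
    rw [e]
    have hi1 : 2 ≤ ‖2 * z - 1‖ := by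
      refine le_trans ?_ (Complex.abs_im_le_norm _)
      simp
      rw [abs_of_pos (by linarith)]
      linarith
    have hi2 : 2 ≤ ‖2 * z + 1‖ := by
      refine le_trans ?_ (Complex.abs_im_le_norm _)
      simp
      rw [abs_of_pos (by linarith)]
      linarith
    refine (norm_add_le _ _).trans ?_
    rw [norm_div, norm_div]
    have h2 : ‖(2:ℂ)‖ = 2 := by simp
    rw [h2]
    have h4 : 2 / ‖2 * z - 1‖ ≤ 1 := by rw [div_le_one (by linarith)]; exact hi1
    have h5 : 2 / ‖2 * z + 1‖ ≤ 1 := by rw [div_le_one (by linarith)]; exact hi2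
    linarith
  have hB := (lam_bounds (w := 1 / 2 + z) (a := 1 / 4) (by norm_num) (by simp; linarith)).2
  have hn : ‖(1 / 2 + z) / 2 + 2‖ ≤ 5 * z.im := by
    refine (Complex.norm_le_abs_re_add_abs_im _).trans ?_
    have e1 : ((1 / 2 + z) / 2 + 2 : ℂ).re = (1 / 2 + z.re) / 2 + 2 := by simp
    have e2 : ((1 / 2 + z) / 2 + 2 : ℂ).im = z.im / 2 := by simp
    rw [e1, e2, abs_of_pos (by linarith), abs_of_pos (by linarith)]
    linarith
  have hpos : 0 < ‖(1 / 2 + z) / 2 + 2‖ := by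
    refine lt_of_lt_of_le ?_ (Complex.abs_im_le_norm _)
    have e2 : ((1 / 2 + z) / 2 + 2 : ℂ).im = z.im / 2 := by simp
    rw [e2, abs_of_pos (by linarith)]
    linarith
  have hlog : Real.log ‖(1 / 2 + z) / 2 + 2‖ ≤ Real.log 5 + Real.log z.im := by
    rw [← Real.log_mul (by norm_num) (by linarith)]
    exact Real.log_le_log hpos hn
  unfold Hz
  calc _ ≤ _ := norm_add_le _ _
    _ ≤ 2 + (Real.log ‖(1 / 2 + z) / 2 + 2‖ / 2 + Cd (1 / 4)) := add_le_add hA hB
    _ ≤ _ := by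
      have := le_abs_self (Cd (1 / 4))
      linarith

/-- `ΣΛ(n) n^{-σ}` bounds the logarithmic derivative -/
lemma Lz_le {s : ℂ} (hs : 1 < s.re) : ‖Lz s‖ ≤ ∑' n : ℕ, ArithmeticFunction.vonMangoldt n * (n:ℝ) ^ (-s.re) ∧
    Summable (fun n : ℕ => ArithmeticFunction.vonMangoldt n * (n:ℝ) ^ (-s.re)) := by
  have h1 := ArithmeticFunction.LSeries_vonMangoldt_eq_deriv_riemannZeta_div hs
  have h2 := ArithmeticFunction.LSeriesSummable_vonMangoldt hs
  have e : ∀ n : ℕ, ‖LSeries.term (fun n => ((ArithmeticFunction.vonMangoldt n : ℝ) : ℂ)) s n‖ =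
      ArithmeticFunction.vonMangoldt n * (n:ℝ) ^ (-s.re) := by
    intro n
    rcases Nat.eq_zero_or_pos n with hn | hn
    · subst hn
      simp
    · rw [LSeries.norm_term_eq, if_neg hn.ne', Complex.norm_real, Real.norm_eq_abs,
        abs_of_nonneg ArithmeticFunction.vonMangoldt_nonneg, Real.rpow_neg (Nat.cast_nonneg n),
        div_eq_mul_inv]
  have h3 : Summable (fun n : ℕ => ArithmeticFunction.vonMangoldt n * (n:ℝ) ^ (-s.re)) := by
    have := h2.norm
    exact this.congr e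
  refine ⟨?_, h3⟩
  have h4 : Lz s = -LSeries (fun n => ((ArithmeticFunction.vonMangoldt n : ℝ) : ℂ)) s := by
    rw [h1]
    unfold Lz
    ring
  rw [h4, norm_neg]
  unfold LSeries
  refine (norm_tsum_le_tsum_norm h2.norm).trans (le_of_eq ?_)
  exact tsum_congr e

lemma vM_eq {σ : ℝ} (hσ : 1 < σ) : Lz (σ : ℂ) =
    ((-(∑' n : ℕ, ArithmeticFunction.vonMangoldt n * (n:ℝ) ^ (-σ)) : ℝ) : ℂ) := by
  have hs : 1 < (σ : ℂ).re := by simpa using hσ
  have h1 := ArithmeticFunction.LSeries_vonMangoldt_eq_deriv_riemannZeta_div hs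
  have h4 : Lz (σ : ℂ) = -LSeries (fun n => ((ArithmeticFunction.vonMangoldt n : ℝ) : ℂ)) σ := by
    rw [h1]
    unfold Lz
    ring
  rw [h4]
  push_cast
  congr 1
  unfold LSeries
  refine tsum_congr fun n => ?_
  rcases Nat.eq_zero_or_pos n with hn | hn
  · subst hn
    simp
  · rw [LSeries.term_of_ne_zero hn.ne', Complex.ofReal_cpow (Nat.cast_nonneg n)]
    push_cast
    rw [Complex.cpow_neg, div_eq_mul_inv]

/-- bound of the logarithmic derivative to the right of `1` -/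
lemma Z3 : ∃ C : ℝ, 0 < C ∧ ∀ s : ℂ, 1 < s.re →
    ‖Lz s‖ ≤ C * ((s.re - 1)⁻¹ * Real.exp (-(s.re - 1) / 2)) := by
  -- near 1
  have hz1 : ∀ x ∈ Icc (1:ℝ) 2, riemannZeta₁ (x : ℂ) ≠ 0 := by
    intro x hx
    rcases eq_or_lt_of_le hx.1 with h | h
    · rw [← h]
      simp [riemannZeta₁_one]
    · have h1 : (x : ℂ) ≠ 1 := by
        intro h2
        have : x = 1 := by exact_mod_cast h2
        linarith
      have h2 : riemannZeta (x : ℂ) = ((x : ℂ) - 1)⁻¹ * riemannZeta₁ x :=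
        riemannZeta_eq_inv_sub_mul h1
      intro h3
      rw [h3, mul_zero] at h2
      exact riemannZeta_ne_zero_of_one_lt_re (by simpa using h) h2
  have hcont : ContinuousOn (fun x : ℝ => deriv riemannZeta₁ (x : ℂ) / riemannZeta₁ (x : ℂ)) (Icc 1 2) := by
    have hd : Differentiable ℂ (deriv riemannZeta₁) := differentiable_riemannZeta₁.deriv
    refine ContinuousOn.div ?_ ?_ hz1
    · exact (hd.continuous.comp Complex.continuous_ofReal).continuousOn
    · exact (differentiable_riemannZeta₁.continuous.comp Complex.continuous_ofReal).continuousOn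
  obtain ⟨C0, hC0⟩ := isCompact_Icc.exists_bound_of_continuousOn hcont
  -- the sum at σ
  set G : ℝ → ℝ := fun σ => ∑' n : ℕ, ArithmeticFunction.vonMangoldt n * (n:ℝ) ^ (-σ) with hG
  have hG0 : ∀ σ, 0 ≤ G σ := fun σ => tsum_nonneg fun n =>
    mul_nonneg ArithmeticFunction.vonMangoldt_nonneg (Real.rpow_nonneg (Nat.cast_nonneg n) _)
  have hnear : ∀ σ : ℝ, 1 < σ → σ ≤ 2 → G σ ≤ (1 + |C0|) * (σ - 1)⁻¹ := by
    intro σ h1 h2
    have hne : (σ : ℂ) ≠ 1 := by
      intro h3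
      have : σ = 1 := by exact_mod_cast h3
      linarith
    have hmem : σ ∈ Icc (1:ℝ) 2 := ⟨h1.le, h2⟩
    have hd : HasDerivAt riemannZeta (-((σ : ℂ) - 1)⁻¹ ^ 2 * riemannZeta₁ σ +
        ((σ : ℂ) - 1)⁻¹ * deriv riemannZeta₁ σ) σ := by
      have e1 : (fun s : ℂ => (s - 1)⁻¹ * riemannZeta₁ s) =ᶠ[𝓝 (σ : ℂ)] riemannZeta := by
        filter_upwards [isOpen_ne.mem_nhds hne] with s hs
        exact (riemannZeta_eq_inv_sub_mul hs).symm
      have e2 : HasDerivAt (fun s : ℂ => (s - 1)⁻¹) (-((σ : ℂ) - 1)⁻¹ ^ 2) σ := by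
        have := ((hasDerivAt_id (σ : ℂ)).sub_const 1).fun_inv (sub_ne_zero.2 hne)
        refine this.congr_deriv ?_
        simp only [id]
        rw [inv_pow]
        ring
      exact (e2.mul (differentiable_riemannZeta₁ (σ : ℂ)).hasDerivAt).congr_of_eventuallyEq e1.symm
    have hL : Lz (σ : ℂ) = -((σ : ℂ) - 1)⁻¹ + deriv riemannZeta₁ σ / riemannZeta₁ σ := by
      unfold Lz
      rw [hd.deriv, riemannZeta_eq_inv_sub_mul hne]
      have h5 := hz1 σ hmem
      have h6 : ((σ : ℂ) - 1) ≠ 0 := sub_ne_zero.2 hne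
      field_simp
    have hv := vM_eq h1
    have hv2 : G σ = ‖Lz (σ : ℂ)‖ := by
      rw [hv, Complex.norm_real, Real.norm_eq_abs, abs_neg, abs_of_nonneg (hG0 σ)]
    rw [hv2, hL]
    have h7 : ‖-((σ : ℂ) - 1)⁻¹‖ = (σ - 1)⁻¹ := by
      rw [norm_neg, norm_inv]
      have : ((σ : ℂ) - 1) = ((σ - 1 : ℝ) : ℂ) := by push_cast; ring
      rw [this, Complex.norm_real, Real.norm_eq_abs, abs_of_pos (by linarith)]
    refine (norm_add_le _ _).trans ?_
    rw [h7]
    have h8 := hC0 σ hmem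
    have h9 : 1 ≤ (σ - 1)⁻¹ := (one_le_inv₀ (by linarith)).2 (by linarith)
    nlinarith [abs_nonneg C0, le_abs_self C0]
  have hfar : ∀ σ : ℝ, 2 ≤ σ → G σ ≤ G 2 * Real.exp (-(Real.log 2) * (σ - 2)) := by
    intro σ h2
    have hs1 := (Lz_le (s := ((σ:ℝ) : ℂ)) (by simp; linarith)).2
    have hs2 := (Lz_le (s := ((2:ℝ) : ℂ)) (by simp)).2
    simp only [Complex.ofReal_re] at hs1 hs2
    simp only [hG]
    rw [← tsum_mul_right]
    refine hs1.tsum_le_tsum (fun n => ?_) (hs2.mul_right _)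
    rcases Nat.lt_or_ge n 2 with hn | hn
    · interval_cases n <;> simp
    · have hn2 : (2:ℝ) ≤ n := by exact_mod_cast hn
      rw [mul_assoc]
      apply mul_le_mul_of_nonneg_left _ ArithmeticFunction.vonMangoldt_nonneg
      have e : -σ = -2 + -(σ - 2) := by ring
      rw [e, Real.rpow_add (by linarith)]
      apply mul_le_mul_of_nonneg_left _ (Real.rpow_nonneg (by linarith) _)
      rw [Real.rpow_def_of_pos (by linarith)]
      apply Real.exp_le_exp.2
      have : Real.log 2 ≤ Real.log n := Real.log_le_log (by norm_num) hn2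
      nlinarith
  refine ⟨(1 + |C0|) * Real.exp (1 / 2) + G 2 * (4 * Real.exp (1 / 2)) * 3, by
    have := hG0 2
    positivity, fun s hs => ?_⟩
  obtain ⟨h1, -⟩ := Lz_le hs
  refine h1.trans ?_
  change G s.re ≤ _
  have hx : 0 < s.re - 1 := by linarith
  have hpos : 0 ≤ (s.re - 1)⁻¹ * Real.exp (-(s.re - 1) / 2) := by positivity
  rcases le_total s.re 2 with h2 | h2
  · have h3 := hnear s.re hs h2
    have h4 : Real.exp (-(1:ℝ) / 2) ≤ Real.exp (-(s.re - 1) / 2) := by
      apply Real.exp_le_exp.2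
      linarith
    have h5 : Real.exp (1 / 2) * Real.exp (-(1:ℝ) / 2) = 1 := by
      rw [← Real.exp_add]
      norm_num
    calc G s.re ≤ (1 + |C0|) * (s.re - 1)⁻¹ := h3
      _ = (1 + |C0|) * (s.re - 1)⁻¹ * (Real.exp (1 / 2) * Real.exp (-(1:ℝ) / 2)) := by rw [h5, mul_one]
      _ ≤ (1 + |C0|) * (s.re - 1)⁻¹ * (Real.exp (1 / 2) * Real.exp (-(s.re - 1) / 2)) := by gcongr
      _ = (1 + |C0|) * Real.exp (1 / 2) * ((s.re - 1)⁻¹ * Real.exp (-(s.re - 1) / 2)) := by ring
      _ ≤ _ := by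
        apply mul_le_mul_of_nonneg_right _ hpos
        have := hG0 2
        have : 0 ≤ G 2 * (4 * Real.exp (1 / 2)) * 3 := by positivity
        linarith
  · have h3 := hfar s.re h2
    set x := s.re - 1 with hxdef
    have hx1 : 1 ≤ x := by rw [hxdef]; linarith
    have h6 : Real.exp (-(Real.log 2) * (s.re - 2)) ≤ (4 * Real.exp (1 / 2)) * 3 * (x⁻¹ * Real.exp (-x / 2)) := by
      have e1 : -(Real.log 2) * (s.re - 2) = Real.log 2 + -(Real.log 2 - 1 / 2) * x + -x / 2 := by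
        rw [hxdef]; ring
      rw [e1, Real.exp_add, Real.exp_add, Real.exp_log (by norm_num)]
      have h7 : 0.69 < Real.log 2 := by
        have := Real.log_two_gt_d9
        linarith
      have h8 : Real.exp (-(Real.log 2 - 1 / 2) * x) ≤ 6 * x⁻¹ := by
        have h9 : Real.exp (-(Real.log 2 - 1 / 2) * x) ≤ Real.exp (-(0.19 * x)) := by
          apply Real.exp_le_exp.2
          nlinarith
        have h10 : Real.exp (-(0.19 * x)) ≤ (0.19 * x)⁻¹ := by
          rw [Real.exp_neg]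
          apply inv_anti₀ (by positivity)
          linarith [Real.add_one_le_exp (0.19 * x)]
        refine h9.trans (h10.trans ?_)
        rw [mul_inv]
        apply mul_le_mul_of_nonneg_right _ (by positivity)
        norm_num
      have h11 : 1 ≤ Real.exp (1 / 2) := Real.one_le_exp (by norm_num)
      calc 2 * Real.exp (-(Real.log 2 - 1 / 2) * x) * Real.exp (-x / 2)
          ≤ 2 * (6 * x⁻¹) * Real.exp (-x / 2) := by gcongr
        _ = (4 * 1) * 3 * (x⁻¹ * Real.exp (-x / 2)) := by ring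
        _ ≤ _ := by gcongr
    calc G s.re ≤ G 2 * Real.exp (-(Real.log 2) * (s.re - 2)) := h3
      _ ≤ G 2 * ((4 * Real.exp (1 / 2)) * 3 * (x⁻¹ * Real.exp (-x / 2))) := by
          have := hG0 2
          gcongr
      _ = (G 2 * (4 * Real.exp (1 / 2)) * 3) * (x⁻¹ * Real.exp (-x / 2)) := by ring
      _ ≤ _ := by
          apply mul_le_mul_of_nonneg_right _ hpos
          have : 0 ≤ (1 + |C0|) * Real.exp (1 / 2) := by positivity
          linarith

end Pool.Agent.X111.BF
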