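import Pool.Agent.X111.BF.Zet2

set_option autoImplicit false

namespace Pool.Agent.X111.BF

open Complex Filter Topology Set
open Pool.Agent.H24R2.JP (XX HH)
open Pool.Agent.H24R2.JP.B1h (XX_diff)

/-- the logarithmic derivative of `XX` -/
noncomputable def fX (z : ℂ) : ℂ := deriv XX z / XX z

lemma fX_diff (hRH : RiemannHypothesis) {z : ℂ} (hz : 0 < z.re) : DifferentiableAt ℂ fX z :=
  (XX_diff.deriv z).div (XX_diff z) (XX_ne_rh hRH hz)

lemma fX_harnack (hRH : RiemannHypothesis) {x y : ℝ} (hx : 0 < x) (hx3 : x ≤ 3) :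
    ‖fX (x + y * I)‖ ≤ (6 + 6 * ‖fX ((3:ℝ) + y * I)‖) / x := by
  set z0 : ℂ := ((3:ℝ) : ℂ) + y * I with hz0
  have hre : z0.re = 3 := by simp [hz0]
  have hball : ∀ v ∈ Metric.ball (0:ℂ) 3, 0 < (z0 + v).re := by
    intro v hv
    have h1 : ‖v‖ < 3 := by simpa using hv
    have h2 := Complex.abs_re_le_norm v
    rw [Complex.add_re, hre]
    linarith [neg_abs_le v.re]
  have hb := Complex.borelCaratheodory (f := fun v => -fX (z0 + v)) (M := 1) (R := 3)
    (z := ((x - 3 : ℝ) : ℂ)) one_pos ?_ ?_ (by norm_num) ?_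
  · have hn : ‖((x - 3 : ℝ) : ℂ)‖ = 3 - x := by
      rw [Complex.norm_real, Real.norm_eq_abs, abs_of_nonpos (by linarith)]
      ring
    rw [hn, norm_neg, norm_neg, add_zero] at hb
    have e1 : z0 + ((x - 3 : ℝ) : ℂ) = x + y * I := by
      rw [hz0]
      push_cast
      ring
    rw [e1, show (3:ℝ) - (3 - x) = x by ring] at hb
    refine hb.trans ?_
    rw [← add_div]
    apply div_le_div_of_nonneg_right _ hx.le
    nlinarith [norm_nonneg (fX z0)]
  · intro v hv
    apply DifferentiableAt.differentiableWithinAt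
    apply DifferentiableAt.neg
    exact (fX_diff hRH (hball v hv)).comp v (by fun_prop)
  · intro v hv
    have := herg hRH (hball v hv)
    simp only [Set.mem_setOf_eq, Complex.neg_re]
    change 0 ≤ (fX (z0 + v)).re at this
    linarith
  · rw [mem_ball_zero_iff, Complex.norm_real, Real.norm_eq_abs, abs_of_nonpos (by linarith)]
    linarith

lemma Z1 (hRH : RiemannHypothesis) : ∃ C : ℝ, 0 < C ∧ ∀ x y : ℝ, 0 < x → x ≤ 3 → 2 ≤ y →
    ‖Lz (1 / 2 + (x + y * I))‖ ≤ C * Real.log y / x := by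
  obtain ⟨C1, h10, h1⟩ := Hz_bound
  obtain ⟨C2, h20, h2⟩ := Z3
  refine ⟨18 * (C1 + C2 + 2), by positivity, fun x y hx hx3 hy => ?_⟩
  have hlog : 0.69 < Real.log y := by
    have h3 := Real.log_two_gt_d9
    have h4 := Real.log_le_log (by norm_num) hy
    linarith
  have hH0 : ‖Hz ((3:ℝ) + y * I)‖ ≤ Real.log y / 2 + C1 := by
    have := h1 ((3:ℝ) + y * I) (by simp) (by simp) (by simp; linarith)
    simpa using this
  have hHx : ‖Hz (x + y * I)‖ ≤ Real.log y / 2 + C1 := by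
    have := h1 (x + y * I) (by simpa using hx) (by simpa using hx3) (by simp; linarith)
    simpa using this
  have hL0 : ‖Lz (1 / 2 + ((3:ℝ) + y * I))‖ ≤ C2 := by
    have hre : (1 / 2 + (((3:ℝ) : ℂ) + y * I)).re = 7 / 2 := by
      simp
      norm_num
    have := h2 (1 / 2 + ((3:ℝ) + y * I)) (by rw [hre]; norm_num)
    rw [hre] at this
    refine this.trans ?_
    have h5 : Real.exp (-(7 / 2 - 1) / 2) ≤ 1 := Real.exp_le_one_iff.2 (by norm_num)
    have h6 : ((7:ℝ) / 2 - 1)⁻¹ ≤ 1 := by norm_num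
    calc C2 * (((7:ℝ) / 2 - 1)⁻¹ * Real.exp (-(7 / 2 - 1) / 2)) ≤ C2 * (1 * 1) := by gcongr
      _ = C2 := by ring
  have e0 := logder_XX hRH (z := (3:ℝ) + y * I) (by simp) (by simp; linarith)
  have ex := logder_XX hRH (z := x + y * I) (by simpa using hx) (by simp; linarith)
  have hf0 : ‖fX ((3:ℝ) + y * I)‖ ≤ Real.log y / 2 + C1 + C2 := by
    unfold fX
    rw [e0]
    exact (norm_add_le _ _).trans (add_le_add hH0 hL0)
  have hfx := fX_harnack hRH (y := y) hx hx3
  have hLx : Lz (1 / 2 + (x + y * I)) = fX (x + y * I) - Hz (x + y * I) := by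
    unfold fX
    rw [ex]
    ring
  rw [hLx]
  calc ‖fX (x + y * I) - Hz (x + y * I)‖ ≤ ‖fX (x + y * I)‖ + ‖Hz (x + y * I)‖ := norm_sub_le _ _
    _ ≤ (6 + 6 * (Real.log y / 2 + C1 + C2)) / x + (Real.log y / 2 + C1) := by
        apply add_le_add _ hHx
        refine hfx.trans ?_
        gcongr
    _ ≤ (6 + 6 * (Real.log y / 2 + C1 + C2)) / x + 3 * (Real.log y / 2 + C1) / x := by
        gcongr
        rw [le_div_iff₀ hx]
        have : 0 ≤ Real.log y / 2 + C1 := by linarith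
        nlinarith
    _ = (6 + 6 * (Real.log y / 2 + C1 + C2) + 3 * (Real.log y / 2 + C1)) / x := by ring
    _ ≤ _ := by
        apply div_le_div_of_nonneg_right _ hx.le
        nlinarith

lemma Z2 (hRH : RiemannHypothesis) : ∃ C : ℝ, 0 < C ∧ ∀ x y : ℝ, 0 < x → x ≤ 3 → 2 ≤ y →
    -(Real.log y / 2 + C) ≤ (Lz (1 / 2 + (x + y * I))).re := by
  obtain ⟨C1, h10, h1⟩ := Hz_bound
  refine ⟨C1, h10, fun x y hx hx3 hy => ?_⟩
  have hHx : ‖Hz (x + y * I)‖ ≤ Real.log y / 2 + C1 := by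
    have := h1 (x + y * I) (by simpa using hx) (by simpa using hx3) (by simp; linarith)
    simpa using this
  have ex := logder_XX hRH (z := x + y * I) (by simpa using hx) (by simp; linarith)
  have hh := herg hRH (z := x + y * I) (by simpa using hx)
  rw [ex, Complex.add_re] at hh
  have := (Complex.abs_re_le_norm (Hz (x + y * I))).trans hHx
  linarith [le_abs_self (Hz (x + y * I)).re]

/-- the size of the logarithmic derivative along horizontal lines -/
lemma Z1' (hRH : RiemannHypothesis) : ∃ C : ℝ, 0 < C ∧ ∀ u t : ℝ, 0 < u → 2 ≤ t →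
    ‖Lz ((1 / 2 : ℝ) + u + t * I)‖ ≤ C * Real.log t * (u⁻¹ * Real.exp (-u / 2)) := by
  obtain ⟨C1, h10, h1⟩ := Z1 hRH
  obtain ⟨C2, h20, h2⟩ := Z3
  refine ⟨C1 * Real.exp (3 / 2) + C2 * (2 * Real.exp (1 / 4)) * 2, by positivity, fun u t hu ht => ?_⟩
  have hlog : 0.69 < Real.log t := by
    have h3 := Real.log_two_gt_d9
    have h4 := Real.log_le_log (by norm_num) ht
    linarith
  have hpos : 0 ≤ Real.log t * (u⁻¹ * Real.exp (-u / 2)) := by positivity
  rcases le_total u 3 with h | h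
  · have h3 := h1 u t hu h ht
    have e : (((1 / 2 : ℝ) : ℂ) + u + t * I) = 1 / 2 + (u + t * I) := by push_cast; ring
    rw [e]
    refine h3.trans ?_
    have h5 : Real.exp (3 / 2) * Real.exp (-(3:ℝ) / 2) = 1 := by
      rw [← Real.exp_add]
      norm_num
    have h4 : Real.exp (-(3:ℝ) / 2) ≤ Real.exp (-u / 2) := by
      apply Real.exp_le_exp.2
      linarith
    calc C1 * Real.log t / u = C1 * Real.log t * u⁻¹ * (Real.exp (3 / 2) * Real.exp (-(3:ℝ) / 2)) := by
          rw [h5, mul_one]; rfl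
      _ ≤ C1 * Real.log t * u⁻¹ * (Real.exp (3 / 2) * Real.exp (-u / 2)) := by gcongr
      _ = C1 * Real.exp (3 / 2) * (Real.log t * (u⁻¹ * Real.exp (-u / 2))) := by ring
      _ ≤ (C1 * Real.exp (3 / 2) + C2 * (2 * Real.exp (1 / 4)) * 2) *
          (Real.log t * (u⁻¹ * Real.exp (-u / 2))) := by
          apply mul_le_mul_of_nonneg_right _ hpos
          have : 0 ≤ C2 * (2 * Real.exp (1 / 4)) * 2 := by positivity
          linarith
      _ = _ := by ring
  · have hre : (((1 / 2 : ℝ) : ℂ) + u + t * I).re = 1 / 2 + u := by simp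
    have h3 := h2 (((1 / 2 : ℝ) : ℂ) + u + t * I) (by rw [hre]; linarith)
    rw [hre] at h3
    refine h3.trans ?_
    have h4 : (1 / 2 + u - 1)⁻¹ ≤ 2 * u⁻¹ := by
      rw [inv_eq_one_div, inv_eq_one_div, mul_one_div, div_le_div_iff₀ (by linarith) hu]
      linarith
    have h5 : Real.exp (-(1 / 2 + u - 1) / 2) = Real.exp (1 / 4) * Real.exp (-u / 2) := by
      rw [← Real.exp_add]
      congr 1
      ring
    rw [h5]
    calc C2 * ((1 / 2 + u - 1)⁻¹ * (Real.exp (1 / 4) * Real.exp (-u / 2)))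
        ≤ C2 * ((2 * u⁻¹) * (Real.exp (1 / 4) * Real.exp (-u / 2))) := by gcongr
      _ = C2 * (2 * Real.exp (1 / 4)) * (1 * (u⁻¹ * Real.exp (-u / 2))) := by ring
      _ ≤ C2 * (2 * Real.exp (1 / 4)) * ((2 * Real.log t) * (u⁻¹ * Real.exp (-u / 2))) := by
          gcongr
          linarith
      _ = C2 * (2 * Real.exp (1 / 4)) * 2 * (Real.log t * (u⁻¹ * Real.exp (-u / 2))) := by ring
      _ ≤ (C1 * Real.exp (3 / 2) + C2 * (2 * Real.exp (1 / 4)) * 2) *
          (Real.log t * (u⁻¹ * Real.exp (-u / 2))) := by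
          apply mul_le_mul_of_nonneg_right _ hpos
          have : 0 ≤ C1 * Real.exp (3 / 2) := by positivity
          linarith
      _ = _ := by ring

end Pool.Agent.X111.BF
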