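import Pool.Agent.X111.BF.Zet3

set_option autoImplicit false

namespace Pool.Agent.X111.BF

open Complex Filter Topology Set MeasureTheory

/-- the domain -/
def Om : Set ℂ := {s | 1 / 2 < s.re ∧ (0 < s.im ∨ 1 < s.re)}

lemma Om_open : IsOpen Om := by
  apply IsOpen.inter (isOpen_lt continuous_const Complex.continuous_re)
  exact (isOpen_lt continuous_const Complex.continuous_im).union
    (isOpen_lt continuous_const Complex.continuous_re)

lemma Om_add {s : ℂ} (hs : s ∈ Om) {u : ℝ} (hu : 0 ≤ u) : s + u ∈ Om := by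
  obtain ⟨h1, h2⟩ := hs
  refine ⟨by simp; linarith, ?_⟩
  rcases h2 with h | h
  · left; simpa using h
  · right; simp; linarith

lemma Om_ne_one {s : ℂ} (hs : s ∈ Om) : s ≠ 1 := by
  rintro rfl
  rcases hs.2 with h | h <;> simp at h

/-- holomorphic with exponential decay to the right -/
structure Nice (f : ℂ → ℂ) : Prop where
  diff : DifferentiableOn ℂ f Om
  bd : ∀ s ∈ Om, ∃ r > 0, ∃ C ≥ 0, Metric.ball s r ⊆ Om ∧
    ∀ w ∈ Metric.ball s r, ∀ u : ℝ, 0 ≤ u → ‖f (w + u)‖ ≤ C * Real.exp (-u / 2)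

/-- horizontal integral -/
noncomputable def hI (f : ℂ → ℂ) (s : ℂ) : ℂ := ∫ u in Ioi (0:ℝ), f (s + u)

lemma exp_half : IntegrableOn (fun u : ℝ => Real.exp (-u / 2)) (Ioi 0) ∧
    ∫ u in Ioi (0:ℝ), Real.exp (-u / 2) = 2 := by
  have hd : ∀ u ∈ Ici (0:ℝ), HasDerivAt (fun u : ℝ => -2 * Real.exp (-u / 2))
      (Real.exp (-u / 2)) u := by
    intro u _
    have h1 : HasDerivAt (fun u : ℝ => -u / 2) (-1 / 2) u := by
      simpa using (hasDerivAt_id u).neg.div_const 2
    refine (h1.exp.const_mul (-2)).congr_deriv ?_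
    ring
  have hl : Tendsto (fun u : ℝ => -2 * Real.exp (-u / 2)) atTop (𝓝 0) := by
    have h1 : Tendsto (fun u : ℝ => -u / 2) atTop atBot := by
      apply Tendsto.atBot_div_const (by norm_num)
      exact tendsto_neg_atTop_atBot
    simpa using (Real.tendsto_exp_atBot.comp h1).const_mul (-2)
  have hpos : ∀ u ∈ Ioi (0:ℝ), 0 ≤ Real.exp (-u / 2) := fun u _ => (Real.exp_pos _).le
  refine ⟨integrableOn_Ioi_deriv_of_nonneg' hd hpos hl, ?_⟩
  rw [integral_Ioi_of_hasDerivAt_of_nonneg' hd hpos hl]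
  simp

lemma Nice.cont_line {f : ℂ → ℂ} (hf : Nice f) {s : ℂ} (hs : s ∈ Om) :
    ContinuousOn (fun u : ℝ => f (s + u)) (Ici 0) :=
  hf.diff.continuousOn.comp (by fun_prop) (fun u hu => Om_add hs hu)

lemma Nice.meas {f : ℂ → ℂ} (hf : Nice f) {s : ℂ} (hs : s ∈ Om) :
    AEStronglyMeasurable (fun u : ℝ => f (s + u)) (volume.restrict (Ioi 0)) :=
  ((hf.cont_line hs).mono Ioi_subset_Ici_self).aestronglyMeasurable measurableSet_Ioi

lemma Nice.bound_self {f : ℂ → ℂ} (hf : Nice f) {s : ℂ} (hs : s ∈ Om) : ∃ C ≥ 0,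
    ∀ u : ℝ, 0 ≤ u → ‖f (s + u)‖ ≤ C * Real.exp (-u / 2) := by
  obtain ⟨r, hr, C, hC0, _, hC⟩ := hf.bd s hs
  exact ⟨C, hC0, fun u hu => hC s (Metric.mem_ball_self hr) u hu⟩

lemma Nice.int {f : ℂ → ℂ} (hf : Nice f) {s : ℂ} (hs : s ∈ Om) :
    IntegrableOn (fun u : ℝ => f (s + u)) (Ioi 0) := by
  obtain ⟨C, _, hC⟩ := hf.bound_self hs
  refine Integrable.mono' (exp_half.1.const_mul C) (hf.meas hs) ?_
  exact (ae_restrict_iff' measurableSet_Ioi).2 (Eventually.of_forall fun u hu => hC u (le_of_lt hu))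

lemma hI_bound {f : ℂ → ℂ} {s : ℂ} {C : ℝ}
    (h : ∀ u : ℝ, 0 ≤ u → ‖f (s + u)‖ ≤ C * Real.exp (-u / 2)) : ‖hI f s‖ ≤ 2 * C := by
  unfold hI
  refine (norm_integral_le_of_norm_le (exp_half.1.const_mul C) ?_).trans (le_of_eq ?_)
  · exact (ae_restrict_iff' measurableSet_Ioi).2 (Eventually.of_forall fun u hu => h u (le_of_lt hu))
  · rw [integral_const_mul, exp_half.2]
    ring

lemma Nice.hasDeriv {f : ℂ → ℂ} (hf : Nice f) {s : ℂ} (hs : s ∈ Om) :
    HasDerivAt (hI f) (-f s) s := by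
  obtain ⟨r, hr, C, hC0, hball, hC⟩ := hf.bd s hs
  have hsub : ∀ w ∈ Metric.ball s (r / 2), ∀ u : ℝ, 0 ≤ u →
      Metric.closedBall (w + u) (r / 4) ⊆ Om ∧
      ∀ v ∈ Metric.closedBall (w + (u : ℂ)) (r / 4), ‖f v‖ ≤ C * Real.exp (-u / 2) := by
    intro w hw u hu
    have hw' : dist w s < r / 2 := hw
    have key : ∀ v ∈ Metric.closedBall (w + (u : ℂ)) (r / 4), v - u ∈ Metric.ball s r := by
      intro v hv
      have hv' : dist v (w + u) ≤ r / 4 := hv
      rw [Metric.mem_ball]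
      rw [dist_eq_norm] at hv' hw' ⊢
      have e : v - u - s = (v - (w + u)) + (w - s) := by ring
      rw [e]
      refine lt_of_le_of_lt (norm_add_le _ _) ?_
      linarith
    constructor
    · intro v hv
      have h1 := Om_add (hball (key v hv)) hu
      simpa using h1
    · intro v hv
      have h1 := hC _ (key v hv) u hu
      simpa using h1
  have hder : ∀ w ∈ Metric.ball s (r / 2), ∀ u : ℝ, 0 ≤ u →
      ‖deriv f (w + u)‖ ≤ (C * Real.exp (-u / 2)) / (r / 4) := by
    intro w hw u hu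
    obtain ⟨h1, h2⟩ := hsub w hw u hu
    refine Complex.norm_deriv_le_of_forall_mem_sphere_norm_le (by positivity)
      (hf.diff.diffContOnCl_ball h1) ?_
    intro v hv
    exact h2 v (Metric.sphere_subset_closedBall hv)
  have hmemOm : ∀ w ∈ Metric.ball s (r / 2), w ∈ Om := fun w hw =>
    hball (Metric.ball_subset_ball (by linarith) hw)
  have hfd : ∀ v ∈ Om, HasDerivAt f (deriv f v) v := fun v hv =>
    (hf.diff.differentiableAt (Om_open.mem_nhds hv)).hasDerivAt
  have hint' : IntegrableOn (fun u : ℝ => (C * Real.exp (-u / 2)) / (r / 4)) (Ioi 0) :=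
    (exp_half.1.const_mul C).div_const _
  have hcontd : ContinuousOn (fun u : ℝ => deriv f (s + u)) (Ici 0) := by
    have h1 : ContinuousOn (deriv f) Om := (hf.diff.deriv Om_open).continuousOn
    exact h1.comp (by fun_prop) (fun u hu => Om_add hs hu)
  have hkey := hasDerivAt_integral_of_dominated_loc_of_deriv_le (μ := volume.restrict (Ioi (0:ℝ)))
    (F := fun (w : ℂ) (u : ℝ) => f (w + u)) (F' := fun (w : ℂ) (u : ℝ) => deriv f (w + u))
    (x₀ := s) (s := Metric.ball s (r / 2)) (bound := fun u : ℝ => (C * Real.exp (-u / 2)) / (r / 4))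
    (Metric.ball_mem_nhds s (by positivity))
    (by
      filter_upwards [Metric.ball_mem_nhds s (by positivity : 0 < r / 2)] with w hw
      exact hf.meas (hmemOm w hw))
    (hf.int hs)
    ((hcontd.mono Ioi_subset_Ici_self).aestronglyMeasurable measurableSet_Ioi)
    ((ae_restrict_iff' measurableSet_Ioi).2 (Eventually.of_forall fun u hu w hw =>
      hder w hw u (le_of_lt hu)))
    hint'
    ((ae_restrict_iff' measurableSet_Ioi).2 (Eventually.of_forall fun u hu w hw => by
      have h1 := hfd (w + u) (Om_add (hmemOm w hw) (le_of_lt hu))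
      exact h1.comp_add_const w u))
  have hval : ∫ u in Ioi (0:ℝ), deriv f (s + u) = -f s := by
    have h1 : ∀ u ∈ Ici (0:ℝ), HasDerivAt (fun u : ℝ => f (s + u)) (deriv f (s + u)) u := by
      intro u hu
      have h2 : HasDerivAt (fun v : ℂ => f (s + v)) (deriv f (s + u)) (u : ℂ) :=
        (hfd (s + u) (Om_add hs hu)).comp_const_add s u
      exact h2.comp_ofReal
    have h3 : Tendsto (fun u : ℝ => f (s + u)) atTop (𝓝 0) := by
      refine squeeze_zero_norm' (a := fun u : ℝ => C * Real.exp (-u / 2)) ?_ ?_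
      · filter_upwards [eventually_ge_atTop 0] with u hu
        exact hC s (Metric.mem_ball_self hr) u hu
      · have h1 : Tendsto (fun u : ℝ => -u / 2) atTop atBot := by
          apply Tendsto.atBot_div_const (by norm_num)
          exact tendsto_neg_atTop_atBot
        simpa using (Real.tendsto_exp_atBot.comp h1).const_mul C
    have h4 := integral_Ioi_of_hasDerivAt_of_tendsto' h1 hkey.1 h3
    rw [h4]
    simp
  rw [← hval]
  exact hkey.2

lemma Nice.hI {f : ℂ → ℂ} (hf : Nice f) : Nice (hI f) := by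
  refine ⟨fun s hs => (hf.hasDeriv hs).differentiableAt.differentiableWithinAt, fun s hs => ?_⟩
  obtain ⟨r, hr, C, hC0, hball, hC⟩ := hf.bd s hs
  refine ⟨r, hr, 2 * C, by positivity, hball, fun w hw u hu => ?_⟩
  have := hI_bound (f := f) (s := w + u) (C := C * Real.exp (-u / 2)) (fun v hv => by
    have h1 := hC w hw (u + v) (by positivity)
    push_cast at h1
    rw [← add_assoc] at h1
    refine h1.trans (le_of_eq ?_)
    rw [mul_assoc, ← Real.exp_add]
    congr 2
    ring)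
  linarith

lemma Nice.neg {f : ℂ → ℂ} (hf : Nice f) : Nice (fun s => -f s) := by
  refine ⟨hf.diff.neg, fun s hs => ?_⟩
  obtain ⟨r, hr, C, hC0, hball, hC⟩ := hf.bd s hs
  exact ⟨r, hr, C, hC0, hball, fun w hw u hu => by rw [norm_neg]; exact hC w hw u hu⟩

lemma Lz_diffAt (hRH : RiemannHypothesis) {s : ℂ} (hs : 1 / 2 < s.re) (h1 : s ≠ 1) :
    DifferentiableAt ℂ Lz s := by
  unfold Lz
  refine DifferentiableAt.div ?_ (differentiableAt_riemannZeta h1) (zeta_ne hRH hs h1)
  have : DifferentiableOn ℂ (deriv riemannZeta) {1}ᶜ :=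
    DifferentiableOn.deriv (fun z hz => (differentiableAt_riemannZeta hz).differentiableWithinAt)
      isOpen_compl_singleton
  exact this.differentiableAt (isOpen_compl_singleton.mem_nhds h1)

lemma Lz_nice (hRH : RiemannHypothesis) : Nice Lz := by
  refine ⟨fun s hs => (Lz_diffAt hRH hs.1 (Om_ne_one hs)).differentiableWithinAt, fun s hs => ?_⟩
  obtain ⟨r, hr, hball⟩ := Metric.isOpen_iff.1 Om_open s hs
  obtain ⟨C2, h20, h2⟩ := Z3
  have hK : IsCompact ((fun p : ℂ × ℝ => p.1 + (p.2 : ℂ)) '' (Metric.closedBall s (r / 2) ×ˢ Icc (0:ℝ) 2)) :=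
    ((isCompact_closedBall s (r / 2)).prod isCompact_Icc).image (by fun_prop)
  have hKsub : ((fun p : ℂ × ℝ => p.1 + (p.2 : ℂ)) '' (Metric.closedBall s (r / 2) ×ˢ Icc (0:ℝ) 2)) ⊆ Om := by
    rintro _ ⟨⟨w, u⟩, ⟨hw, hu⟩, rfl⟩
    apply Om_add _ hu.1
    apply hball
    exact Metric.closedBall_subset_ball (by linarith) hw
  have hLc : ContinuousOn Lz Om := fun s hs =>
    (Lz_diffAt hRH hs.1 (Om_ne_one hs)).continuousAt.continuousWithinAt
  obtain ⟨C1, hC1⟩ := hK.exists_bound_of_continuousOn (hLc.mono hKsub)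
  refine ⟨r / 2, by positivity, |C1| * Real.exp 1 + C2 * Real.exp (1 / 2), by positivity,
    (Metric.ball_subset_ball (by linarith)).trans hball, fun w hw u hu => ?_⟩
  have hwOm : w ∈ Om := hball (Metric.ball_subset_ball (by linarith) hw)
  have hexp : 0 < Real.exp (-u / 2) := Real.exp_pos _
  rcases le_total u 2 with h | h
  · have h3 := hC1 (w + u) ⟨(w, u), ⟨Metric.ball_subset_closedBall hw, hu, h⟩, rfl⟩
    have h4 : 1 ≤ Real.exp 1 * Real.exp (-u / 2) := by
      rw [← Real.exp_add]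
      apply Real.one_le_exp
      linarith
    calc ‖Lz (w + u)‖ ≤ |C1| * 1 := by rw [mul_one]; exact h3.trans (le_abs_self _)
      _ ≤ |C1| * (Real.exp 1 * Real.exp (-u / 2)) := by gcongr
      _ ≤ _ := by
        have : 0 ≤ C2 * Real.exp (1 / 2) * Real.exp (-u / 2) := by positivity
        nlinarith
  · have hre : (w + u : ℂ).re = w.re + u := by simp
    have hw12 := hwOm.1
    have h3 := h2 (w + u) (by rw [hre]; linarith)
    rw [hre] at h3
    have h5 : (w.re + u - 1)⁻¹ ≤ 1 := inv_le_one_of_one_le₀ (by linarith)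
    have h6 : Real.exp (-(w.re + u - 1) / 2) ≤ Real.exp (1 / 2) * Real.exp (-u / 2) := by
      rw [← Real.exp_add]
      apply Real.exp_le_exp.2
      linarith
    calc ‖Lz (w + u)‖ ≤ C2 * ((w.re + u - 1)⁻¹ * Real.exp (-(w.re + u - 1) / 2)) := h3
      _ ≤ C2 * (1 * (Real.exp (1 / 2) * Real.exp (-u / 2))) := by
          have : 0 ≤ (w.re + u - 1)⁻¹ := inv_nonneg.2 (by linarith)
          gcongr
      _ ≤ _ := by
        have : 0 ≤ |C1| * Real.exp 1 * Real.exp (-u / 2) := by positivity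
        nlinarith

/-- the iterated horizontal primitives of the logarithm of zeta -/
noncomputable def F : ℕ → ℂ → ℂ
  | 0 => hI (fun s => -Lz s)
  | (n + 1) => hI (F n)

lemma F_nice (hRH : RiemannHypothesis) (n : ℕ) : Nice (F n) := by
  induction n with
  | zero => exact (Lz_nice hRH).neg.hI
  | succ n ih => exact ih.hI

lemma F_deriv0 (hRH : RiemannHypothesis) {s : ℂ} (hs : s ∈ Om) : HasDerivAt (F 0) (Lz s) s := by
  have := (Lz_nice hRH).neg.hasDeriv hs
  rw [neg_neg] at this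
  exact this

lemma F_deriv (hRH : RiemannHypothesis) (n : ℕ) {s : ℂ} (hs : s ∈ Om) :
    HasDerivAt (F (n + 1)) (-F n s) s := (F_nice hRH n).hasDeriv hs

end Pool.Agent.X111.BF
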