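import Pool.Agent.X111.BF.Zet4

set_option autoImplicit false

namespace Pool.Agent.X111.BF

open Complex Filter Topology Set MeasureTheory

lemma zeta_tendsto_one (s : ℂ) : Tendsto (fun u : ℝ => riemannZeta (s + u)) atTop (𝓝 1) := by
  have h1 : Tendsto (fun u : ℝ => ∑' n : ℕ, 1 / ((n : ℂ) + 1) ^ (s + u)) atTop
      (𝓝 (∑' n : ℕ, if n = 0 then (1:ℂ) else 0)) := by
    refine tendsto_tsum_of_dominated_convergence (bound := fun n : ℕ => 1 / ((n : ℝ) + 1) ^ 2) ?_ ?_ ?_
    · have h := (summable_nat_add_iff (f := fun n : ℕ => 1 / (n : ℝ) ^ 2) 1).2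
        (Real.summable_one_div_nat_pow.2 (by norm_num))
      simpa using h
    · intro n
      rcases Nat.eq_zero_or_pos n with hn | hn
      · subst hn
        simp
      · rw [if_neg hn.ne', tendsto_zero_iff_norm_tendsto_zero]
        have hn1 : (1:ℝ) < (n : ℝ) + 1 := by
          have : (1:ℝ) ≤ n := by exact_mod_cast hn
          linarith
        have e : ∀ u : ℝ, ‖1 / ((n : ℂ) + 1) ^ (s + u)‖ =
            ((n : ℝ) + 1) ^ (-s.re) * Real.exp (-(Real.log ((n:ℝ) + 1) * u)) := by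
          intro u
          rw [norm_div, norm_one]
          have e1 : ((n : ℂ) + 1) = (((n : ℝ) + 1 : ℝ) : ℂ) := by push_cast; ring
          rw [e1, Complex.norm_cpow_eq_rpow_re_of_pos (by positivity)]
          have e2 : (s + u : ℂ).re = s.re + u := by simp
          rw [e2, Real.rpow_add (by positivity), one_div, mul_inv, Real.rpow_neg (by positivity),
            Real.exp_neg, ← Real.rpow_def_of_pos (by positivity)]
        simp_rw [e]
        have h2 : Tendsto (fun u : ℝ => -(Real.log ((n:ℝ) + 1) * u)) atTop atBot := by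
          apply tendsto_neg_atTop_atBot.comp
          exact Tendsto.const_mul_atTop (Real.log_pos hn1) tendsto_id
        simpa using (Real.tendsto_exp_atBot.comp h2).const_mul (((n : ℝ) + 1) ^ (-s.re))
    · filter_upwards [eventually_ge_atTop (2 - s.re)] with u hu n
      rw [norm_div, norm_one]
      have e1 : ((n : ℂ) + 1) = (((n : ℝ) + 1 : ℝ) : ℂ) := by push_cast; ring
      rw [e1, Complex.norm_cpow_eq_rpow_re_of_pos (by positivity)]
      have e2 : (s + u : ℂ).re = s.re + u := by simp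
      rw [e2]
      apply one_div_le_one_div_of_le (by positivity)
      rw [← Real.rpow_natCast]
      apply Real.rpow_le_rpow_of_exponent_le
      · have : (0:ℝ) ≤ n := Nat.cast_nonneg n
        linarith
      · push_cast
        linarith
  have h2 : (∑' n : ℕ, if n = 0 then (1:ℂ) else 0) = 1 := by
    rw [tsum_ite_eq]
  rw [h2] at h1
  refine h1.congr' ?_
  filter_upwards [eventually_gt_atTop (1 - s.re)] with u hu
  rw [zeta_eq_tsum_one_div_nat_add_one_cpow (by
    have e2 : (s + u : ℂ).re = s.re + u := by simp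
    rw [e2]; linarith)]

lemma Nice.tendsto {f : ℂ → ℂ} (hf : Nice f) {s : ℂ} (hs : s ∈ Om) :
    Tendsto (fun u : ℝ => f (s + u)) atTop (𝓝 0) := by
  obtain ⟨C, _, hC⟩ := hf.bound_self hs
  refine squeeze_zero_norm' (a := fun u : ℝ => C * Real.exp (-u / 2)) ?_ ?_
  · filter_upwards [eventually_ge_atTop 0] with u hu using hC u hu
  · have h1 : Tendsto (fun u : ℝ => -u / 2) atTop atBot := by
      apply Tendsto.atBot_div_const (by norm_num)
      exact tendsto_neg_atTop_atBot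
    simpa using (Real.tendsto_exp_atBot.comp h1).const_mul C

/-- `F 0` is a logarithm of zeta -/
lemma exp_F0 (hRH : RiemannHypothesis) {s : ℂ} (hs : s ∈ Om) : Complex.exp (F 0 s) = riemannZeta s := by
  have hder : ∀ u ∈ Ici (0:ℝ), HasDerivAt (fun u : ℝ => Complex.exp (-F 0 (s + u)) * riemannZeta (s + u))
      0 u := by
    intro u hu
    have hm := Om_add hs hu
    have h1 := (F_deriv0 hRH hm).neg.cexp
    have h2 := (differentiableAt_riemannZeta (Om_ne_one hm)).hasDerivAt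
    have h3 := (h1.mul h2).comp_const_add s u
    have h4 := h3.comp_ofReal
    refine (h4.congr_deriv ?_).congr_of_eventuallyEq (Eventually.of_forall fun v => rfl)
    unfold Lz
    have hz := zeta_ne hRH hm.1 (Om_ne_one hm)
    simp only [Pi.neg_apply]
    field_simp
    ring
  have hconst : ∀ U : ℝ, 0 ≤ U → Complex.exp (-F 0 (s + U)) * riemannZeta (s + U) =
      Complex.exp (-F 0 s) * riemannZeta s := by
    intro U hU
    have := constant_of_has_deriv_right_zero (a := 0) (b := U)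
      (f := fun u : ℝ => Complex.exp (-F 0 (s + u)) * riemannZeta (s + u))
      (fun u hu => (hder u hu.1).continuousAt.continuousWithinAt)
      (fun u hu => (hder u hu.1).hasDerivWithinAt) U ⟨hU, le_rfl⟩
    simpa using this
  have h1 := ((F_nice hRH 0).tendsto hs).neg
  rw [neg_zero] at h1
  have h2 := ((Complex.continuous_exp.tendsto 0).comp h1).mul (zeta_tendsto_one s)
  rw [Complex.exp_zero, mul_one] at h2
  have h3 : Tendsto (fun _ : ℝ => Complex.exp (-F 0 s) * riemannZeta s) atTop (𝓝 1) := by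
    refine h2.congr' ?_
    filter_upwards [eventually_ge_atTop 0] with U hU
    exact hconst U hU
  have h4 := tendsto_nhds_unique tendsto_const_nhds h3
  rw [Complex.exp_neg, inv_mul_eq_one₀ (Complex.exp_ne_zero _)] at h4
  exact h4

lemma re_F0 (hRH : RiemannHypothesis) {s : ℂ} (hs : s ∈ Om) : (F 0 s).re = Real.log ‖riemannZeta s‖ := by
  rw [← exp_F0 hRH hs, Complex.norm_exp, Real.log_exp]

lemma real_F0 {σ : ℝ} (hσ : 1 < σ) : (F 0 (σ : ℂ)).im = 0 := by
  unfold F hI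
  have h : ∀ u ∈ Ioi (0:ℝ), -Lz ((σ : ℂ) + u) = ((‖Lz ((σ : ℂ) + u)‖ : ℝ) : ℂ) := by
    intro u hu
    have hu0 : (0:ℝ) < u := hu
    have e : ((σ : ℂ) + u) = ((σ + u : ℝ) : ℂ) := by push_cast; ring
    rw [e, vM_eq (by linarith), Complex.norm_real, Real.norm_eq_abs, abs_neg, abs_of_nonneg]
    · push_cast; ring
    · exact tsum_nonneg fun n => mul_nonneg ArithmeticFunction.vonMangoldt_nonneg
        (Real.rpow_nonneg (Nat.cast_nonneg n) _)
  rw [setIntegral_congr_fun measurableSet_Ioi h, integral_complex_ofReal, Complex.ofReal_im]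

/-! ### Bounds -/

lemma sqrt_int : IntegrableOn (fun v : ℝ => (Real.sqrt v)⁻¹ * Real.exp (-v / 2)) (Ioi 0) := by
  have h := Real.GammaIntegral_convergent (s := 1 / 2) (by norm_num)
  have h2 := (integrableOn_Ioi_comp_mul_left_iff (fun x : ℝ => Real.exp (-x) * x ^ ((1:ℝ) / 2 - 1)) 0
    (a := 1 / 2) (by norm_num)).2 (by simpa using h)
  have h3 := h2.const_mul ((1 / 2 : ℝ) ^ ((1:ℝ) / 2))
  refine (integrableOn_congr_fun (fun v hv => ?_) measurableSet_Ioi).1 h3
  have hv0 : (0:ℝ) < v := hv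
  rw [Real.mul_rpow (by norm_num) hv0.le, Real.sqrt_eq_rpow, ← Real.rpow_neg hv0.le]
  have e1 : (1 / 2 : ℝ) ^ ((1:ℝ) / 2) * (1 / 2 : ℝ) ^ ((1:ℝ) / 2 - 1) = 1 := by
    rw [← Real.rpow_add (by norm_num)]
    norm_num
  have e2 : (1:ℝ) / 2 - 1 = -(1 / 2) := by norm_num
  rw [e2] at e1 ⊢
  have e3 : -(1 / 2 * v) = -v / 2 := by ring
  rw [e3]
  linear_combination (Real.exp (-v / 2) * v ^ (-(1 / 2 : ℝ))) * e1

lemma line_add (x0 u v t : ℝ) : ((x0 : ℂ) + u + t * I) + v = (x0 : ℂ) + ((u + v : ℝ) : ℂ) + t * I := by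
  push_cast; ring

lemma Hb1 {f : ℂ → ℂ} {x0 t B : ℝ} (hB : 0 ≤ B)
    (h : ∀ u : ℝ, 0 < u → ‖f ((x0 : ℂ) + u + t * I)‖ ≤ B * (u⁻¹ * Real.exp (-u / 2)))
    {u : ℝ} (hu : 0 < u) :
    ‖hI f ((x0 : ℂ) + u + t * I)‖ ≤ B * ((Real.sqrt u)⁻¹ * Real.exp (-u / 2)) := by
  have hd : ∀ v ∈ Ici (0:ℝ), HasDerivAt (fun v : ℝ => -((Real.sqrt (u + v))⁻¹ * Real.exp (-(u + v) / 2)))
      (1 / 2 * ((Real.sqrt (u + v))⁻¹ * (u + v)⁻¹ + (Real.sqrt (u + v))⁻¹) *
        Real.exp (-(u + v) / 2)) v := by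
    intro v hv
    have hv0 : (0:ℝ) ≤ v := hv
    have hpos : 0 < u + v := by linarith
    have h1 : HasDerivAt (fun v : ℝ => u + v) 1 v := by simpa using (hasDerivAt_id v).const_add u
    have h2 : HasDerivAt (fun v : ℝ => Real.sqrt (u + v)) (1 / (2 * Real.sqrt (u + v))) v :=
      h1.sqrt hpos.ne'
    have h3 := h2.fun_inv (Real.sqrt_pos.2 hpos).ne'
    have h4 : HasDerivAt (fun v : ℝ => -(u + v) / 2) (-1 / 2) v := by
      exact h1.neg.div_const 2
    refine ((h3.mul h4.exp).neg.congr_deriv ?_)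
    have hs : 0 < Real.sqrt (u + v) := Real.sqrt_pos.2 hpos
    have hs2 : Real.sqrt (u + v) ^ 2 = u + v := Real.sq_sqrt hpos.le
    rw [← hs2]
    field_simp
    rw [Real.sqrt_sq hs.le]
    ring
  have hpos : ∀ v ∈ Ioi (0:ℝ), 0 ≤ 1 / 2 * ((Real.sqrt (u + v))⁻¹ * (u + v)⁻¹ + (Real.sqrt (u + v))⁻¹) *
        Real.exp (-(u + v) / 2) := by
    intro v hv
    have hv0 : (0:ℝ) < v := hv
    positivity
  have hl : Tendsto (fun v : ℝ => -((Real.sqrt (u + v))⁻¹ * Real.exp (-(u + v) / 2))) atTop (𝓝 0) := by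
    have h1 : Tendsto (fun v : ℝ => u + v) atTop atTop := tendsto_atTop_add_const_left _ _ tendsto_id
    have h2 : Tendsto (fun v : ℝ => (Real.sqrt (u + v))⁻¹) atTop (𝓝 0) :=
      tendsto_inv_atTop_zero.comp (Real.tendsto_sqrt_atTop.comp h1)
    have h3 : Tendsto (fun v : ℝ => -(u + v) / 2) atTop atBot := by
      apply Tendsto.atBot_div_const (by norm_num)
      exact tendsto_neg_atTop_atBot.comp h1
    simpa using (h2.mul (Real.tendsto_exp_atBot.comp h3)).neg
  have hint := integrableOn_Ioi_deriv_of_nonneg' hd hpos hl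
  have hval := integral_Ioi_of_hasDerivAt_of_nonneg' hd hpos hl
  unfold hI
  refine (norm_integral_le_of_norm_le (hint.const_mul B) ?_).trans (le_of_eq ?_)
  · refine (ae_restrict_iff' measurableSet_Ioi).2 (Eventually.of_forall fun v hv => ?_)
    have hv0 : (0:ℝ) < v := hv
    rw [line_add]
    refine (h (u + v) (by linarith)).trans ?_
    apply mul_le_mul_of_nonneg_left _ hB
    apply mul_le_mul_of_nonneg_right _ (Real.exp_pos _).le
    have hp : 0 < u + v := by linarith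
    have hs : 0 < Real.sqrt (u + v) := Real.sqrt_pos.2 hp
    have hs2 : Real.sqrt (u + v) ^ 2 = u + v := Real.sq_sqrt hp.le
    rw [← hs2]
    rw [Real.sqrt_sq hs.le]
    have : (Real.sqrt (u + v) ^ 2)⁻¹ = (Real.sqrt (u + v))⁻¹ ^ 2 := by rw [inv_pow]
    rw [this]
    have hi : 0 < (Real.sqrt (u + v))⁻¹ := inv_pos.2 hs
    nlinarith [mul_nonneg hi.le (sq_nonneg ((Real.sqrt (u + v))⁻¹ - 1))]
  · rw [integral_const_mul, hval]
    simp

/-- the constant of the second bound -/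
noncomputable def C0 : ℝ := ∫ v in Ioi (0:ℝ), (Real.sqrt v)⁻¹ * Real.exp (-v / 2)

lemma C0_nonneg : 0 ≤ C0 := by
  unfold C0
  apply setIntegral_nonneg measurableSet_Ioi
  intro v _
  positivity

lemma Hb2 {f : ℂ → ℂ} {x0 t B : ℝ} (hB : 0 ≤ B)
    (h : ∀ u : ℝ, 0 < u → ‖f ((x0 : ℂ) + u + t * I)‖ ≤ B * ((Real.sqrt u)⁻¹ * Real.exp (-u / 2)))
    {u : ℝ} (hu : 0 < u) :
    ‖hI f ((x0 : ℂ) + u + t * I)‖ ≤ (B * C0) * Real.exp (-u / 2) := by
  unfold hI
  refine (norm_integral_le_of_norm_le ((sqrt_int).const_mul (B * Real.exp (-u / 2))) ?_).trans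
    (le_of_eq ?_)
  · refine (ae_restrict_iff' measurableSet_Ioi).2 (Eventually.of_forall fun v hv => ?_)
    have hv0 : (0:ℝ) < v := hv
    rw [line_add]
    refine (h (u + v) (by linarith)).trans ?_
    rw [mul_assoc]
    apply mul_le_mul_of_nonneg_left _ hB
    have e : Real.exp (-(u + v) / 2) = Real.exp (-u / 2) * Real.exp (-v / 2) := by
      rw [← Real.exp_add]; congr 1; ring
    rw [e]
    have hs : (Real.sqrt (u + v))⁻¹ ≤ (Real.sqrt v)⁻¹ :=
      inv_anti₀ (Real.sqrt_pos.2 hv0) (Real.sqrt_le_sqrt (by linarith))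
    calc (Real.sqrt (u + v))⁻¹ * (Real.exp (-u / 2) * Real.exp (-v / 2))
        ≤ (Real.sqrt v)⁻¹ * (Real.exp (-u / 2) * Real.exp (-v / 2)) := by gcongr
      _ = _ := by ring
  · rw [integral_const_mul]
    unfold C0
    ring

lemma Hb3 {f : ℂ → ℂ} {x0 t B : ℝ}
    (h : ∀ u : ℝ, 0 < u → ‖f ((x0 : ℂ) + u + t * I)‖ ≤ B * Real.exp (-u / 2))
    {u : ℝ} (hu : 0 < u) :
    ‖hI f ((x0 : ℂ) + u + t * I)‖ ≤ (2 * B) * Real.exp (-u / 2) := by
  have := hI_bound (f := f) (s := (x0 : ℂ) + u + t * I) (C := B * Real.exp (-u / 2)) (fun v hv => by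
    rw [line_add]
    refine (h (u + v) (by linarith)).trans (le_of_eq ?_)
    rw [mul_assoc, ← Real.exp_add]
    congr 2
    ring)
  linarith

/-- general chain bound -/
lemma chain_bound {x0 t B : ℝ} (hB : 0 ≤ B)
    (h : ∀ u : ℝ, 0 < u → ‖Lz ((x0 : ℂ) + u + t * I)‖ ≤ B * (u⁻¹ * Real.exp (-u / 2))) :
    (∀ u : ℝ, 0 < u → ‖F 0 ((x0 : ℂ) + u + t * I)‖ ≤ B * ((Real.sqrt u)⁻¹ * Real.exp (-u / 2))) ∧
    ∀ n : ℕ, ∀ u : ℝ, 0 < u → ‖F (n + 1) ((x0 : ℂ) + u + t * I)‖ ≤
      (2 ^ n * (B * C0)) * Real.exp (-u / 2) := by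
  have h0 : ∀ u : ℝ, 0 < u → ‖F 0 ((x0 : ℂ) + u + t * I)‖ ≤ B * ((Real.sqrt u)⁻¹ * Real.exp (-u / 2)) :=
    fun u hu => Hb1 hB (fun u hu => by rw [norm_neg]; exact h u hu) hu
  refine ⟨h0, fun n => ?_⟩
  induction n with
  | zero =>
    intro u hu
    have := Hb2 hB h0 hu
    rw [pow_zero, one_mul]
    exact this
  | succ n ih =>
    intro u hu
    have := Hb3 ih hu
    refine this.trans (le_of_eq ?_)
    ring

end Pool.Agent.X111.BF
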