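import Pool.Agent.X111.BF.Zet5
import Pool.Agent.X111.BF.Ker8

set_option autoImplicit false

namespace Pool.Agent.X111.BF

open Complex Filter Topology Set MeasureTheory

/-- bounds near the critical line -/
lemma B1 (hRH : RiemannHypothesis) (n : ℕ) : ∃ C : ℝ, 0 < C ∧ ∀ u t : ℝ, 0 < u → 2 ≤ t →
    ‖F 0 (((1 / 2 : ℝ) : ℂ) + u + t * I)‖ ≤ C * Real.log t * (Real.sqrt u)⁻¹ ∧
    ∀ k ≤ n, ‖F (k + 1) (((1 / 2 : ℝ) : ℂ) + u + t * I)‖ ≤ C * Real.log t := by
  obtain ⟨C, hC0, hC⟩ := Z1' hRH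
  have hC0' := C0_nonneg
  refine ⟨C + 2 ^ n * (C * C0), by positivity, fun u t hu ht => ?_⟩
  have hlog : 0 < Real.log t := Real.log_pos (by linarith)
  obtain ⟨h1, h2⟩ := chain_bound (x0 := 1 / 2) (t := t) (B := C * Real.log t) (by positivity)
    (fun u hu => hC u t hu ht)
  have hexp : Real.exp (-u / 2) ≤ 1 := Real.exp_le_one_iff.2 (by linarith)
  constructor
  · refine (h1 u hu).trans ?_
    calc C * Real.log t * ((Real.sqrt u)⁻¹ * Real.exp (-u / 2)) ≤
          C * Real.log t * ((Real.sqrt u)⁻¹ * 1) := by gcongr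
      _ = C * (Real.log t * (Real.sqrt u)⁻¹) := by ring
      _ ≤ (C + 2 ^ n * (C * C0)) * (Real.log t * (Real.sqrt u)⁻¹) := by
          apply mul_le_mul_of_nonneg_right _ (by positivity)
          have : 0 ≤ 2 ^ n * (C * C0) := by positivity
          linarith
      _ = _ := by ring
  · intro k hk
    refine (h2 k u hu).trans ?_
    calc (2 ^ k * (C * Real.log t * C0)) * Real.exp (-u / 2) ≤
          (2 ^ n * (C * Real.log t * C0)) * 1 := by
            gcongr
            norm_num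
      _ = (2 ^ n * (C * C0)) * Real.log t := by ring
      _ ≤ _ := by
          apply mul_le_mul_of_nonneg_right _ hlog.le
          linarith

/-- bounds to the right of one -/
lemma B2 (n : ℕ) : ∃ C : ℝ, 0 < C ∧ ∀ u t : ℝ, 0 < u →
    ‖F (n + 1) (((1 : ℝ) : ℂ) + u + t * I)‖ ≤ C := by
  obtain ⟨C, hC0, hC⟩ := Z3
  have hC0' := C0_nonneg
  refine ⟨2 ^ n * (C * C0) + 1, by positivity, fun u t hu => ?_⟩
  obtain ⟨-, h2⟩ := chain_bound (x0 := 1) (t := t) (B := C) hC0.le
    (fun u hu => by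
      have hre : ((((1 : ℝ) : ℂ) + u + t * I)).re = 1 + u := by simp
      have := hC (((1 : ℝ) : ℂ) + u + t * I) (by rw [hre]; linarith)
      rw [hre, show 1 + u - 1 = u by ring] at this
      exact this)
  refine (h2 n u hu).trans ?_
  have hexp : Real.exp (-u / 2) ≤ 1 := Real.exp_le_one_iff.2 (by linarith)
  have : 0 ≤ 2 ^ n * (C * C0) := by positivity
  calc (2 ^ n * (C * C0)) * Real.exp (-u / 2) ≤ (2 ^ n * (C * C0)) * 1 := by gcongr
    _ ≤ _ := by linarith

/-- the moving point -/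
noncomputable def ww (a t : ℝ) (z : ℂ) : ℂ := ((1 / 2 : ℝ) : ℂ) + a + (t - z) * I

lemma ww_re (a t : ℝ) (z : ℂ) : (ww a t z).re = 1 / 2 + a + z.im := by
  simp [ww]

lemma ww_im (a t : ℝ) (z : ℂ) : (ww a t z).im = t - z.re := by
  simp [ww]

lemma ww_Om {a t : ℝ} {z : ℂ} (h1 : 0 < a + z.im) (h2 : z.re < t) : ww a t z ∈ Om := by
  refine ⟨?_, Or.inl ?_⟩
  · rw [ww_re]; linarith
  · rw [ww_im]; linarith

lemma ww_deriv (a t : ℝ) (z : ℂ) : HasDerivAt (ww a t) (-I) z := by
  have h1 : HasDerivAt (fun z : ℂ => (t : ℂ) - z) (-1) z := by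
    simpa using (hasDerivAt_id z).const_sub (t : ℂ)
  have h2 := (h1.mul_const I).const_add (((1 / 2 : ℝ) : ℂ) + a)
  refine h2.congr_deriv ?_
  ring

/-- the chain of functions -/
noncomputable def ff (n : ℕ) (a t : ℝ) (j : ℕ) (z : ℂ) : ℂ :=
  if j ≤ n then I ^ j * F (n - j) (ww a t z) else -(I ^ (n + 1) * Lz (ww a t z))

lemma ff_deriv (hRH : RiemannHypothesis) {n : ℕ} {a t : ℝ} {j : ℕ} (hj : j < n + 1) {u : ℝ}
    (hz : ww a t u ∈ Om) : HasDerivAt (fun v : ℝ => ff n a t j v) (ff n a t (j + 1) u) u := by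
  have hw := ww_deriv a t u
  rcases Nat.lt_or_ge j n with h | h
  · obtain ⟨k, hk⟩ : ∃ k, n - j = k + 1 := ⟨n - j - 1, by omega⟩
    have h1 := (((F_deriv hRH k hz).comp (u : ℂ) hw).const_mul (I ^ j)).comp_ofReal
    have e1 : (fun v : ℝ => ff n a t j v) = fun v : ℝ => I ^ j * (F (k + 1) ∘ ww a t) (v : ℂ) := by
      funext v
      unfold ff
      rw [if_pos h.le, hk]
      rfl
    rw [e1]
    refine h1.congr_deriv ?_
    unfold ff
    rw [if_pos (by omega), show n - (j + 1) = k by omega]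
    ring
  · have hjn : j = n := by omega
    subst hjn
    have h1 := (((F_deriv0 hRH hz).comp (u : ℂ) hw).const_mul (I ^ j)).comp_ofReal
    have e1 : (fun v : ℝ => ff j a t j v) = fun v : ℝ => I ^ j * (F 0 ∘ ww a t) (v : ℂ) := by
      funext v
      unfold ff
      rw [if_pos le_rfl, Nat.sub_self]
      rfl
    rw [e1]
    refine h1.congr_deriv ?_
    unfold ff
    rw [if_neg (by omega)]
    ring

/-- **the inequality for the shifted functions** -/
theorem shifted_ineq (hRH : RiemannHypothesis) {n : ℕ} {α : ℝ} (h : Par n α) {s : ℝ} (hs : |s| = 1)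
    (hD : ∀ x, 0 ≤ s * (Dc n α x).re) : ∃ C : ℝ, 0 < C ∧ ∀ t Δ : ℝ, 4 ≤ t → 1 ≤ Δ →
    s * (I ^ n * F n (((1 / 2 : ℝ) : ℂ) + ((1 / t : ℝ) : ℂ) + t * I)).im ≤
      (Real.log (3 * t / 2) / 2 + C) * (1 / Δ) ^ (n + 1) *
        (s * (-(bernoulliFun (n + 1) α) / (n + 1).factorial)) + C * Real.exp (Real.pi * Δ) := by
  obtain ⟨CK, hCK0, hCK⟩ := kernel_ineq h hs hD
  obtain ⟨C1, hC10, hC1⟩ := B1 hRH n
  obtain ⟨m, hmn⟩ : ∃ m, n = m + 1 := ⟨n - 1, by have := h.two; omega⟩
  obtain ⟨C2, hC20, hC2⟩ := B2 m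
  obtain ⟨C3, hC30, hC3⟩ := Z2 hRH
  refine ⟨C3 + CK * (C2 + 6 * C1), by positivity, fun t Δ ht hΔ => ?_⟩
  have ht0 : 0 < t := by linarith
  set a : ℝ := 1 / t with ha
  have ha0 : 0 < a := by positivity
  have ha1 : a ≤ 1 := by rw [ha, div_le_one ht0]; linarith
  set X : ℝ := t / 2 with hX
  have hlogpos : 0 < Real.log (3 * t / 2) := Real.log_pos (by linarith)
  set E : ℝ := C1 * Real.log (3 * t / 2) * (Real.sqrt a)⁻¹ with hE
  have hsa : 0 < Real.sqrt a := Real.sqrt_pos.2 ha0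
  have hsa1 : 1 ≤ (Real.sqrt a)⁻¹ := by
    rw [one_le_inv₀ hsa]
    exact Real.sqrt_le_one.2 ha1
  have hIn : ∀ j : ℕ, ‖I ^ j‖ = 1 := by intro j; simp
  have hE0 : 0 ≤ E := by positivity
  have hmemOm : ∀ u ∈ Icc (-X) X, ww a t ((u : ℝ) : ℂ) ∈ Om := by
    intro u hu
    apply ww_Om
    · simpa using ha0
    · have : ((u : ℝ) : ℂ).re = u := Complex.ofReal_re u
      rw [this]
      have := hu.2
      rw [hX] at this
      linarith
  have hwre : ∀ (x y : ℝ), ww a t ((x : ℂ) + y * I) = ((1 / 2 : ℝ) : ℂ) + ((a + y : ℝ) : ℂ) + ((t - x : ℝ) : ℂ) * I := by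
    intro x y
    unfold ww
    push_cast
    linear_combination (-(y : ℂ)) * Complex.I_mul_I
  have hlogle : ∀ y : ℝ, 2 ≤ y → y ≤ 3 * t / 2 → Real.log y ≤ Real.log (3 * t / 2) := fun y h1 h2 =>
    Real.log_le_log (by linarith) h2
  have hbF : ∀ k ≤ n, ∀ u y : ℝ, 0 < u → 2 ≤ y → y ≤ 3 * t / 2 → a ≤ u →
      ‖F k (((1 / 2 : ℝ) : ℂ) + (u : ℂ) + (y : ℂ) * I)‖ ≤ E := by
    intro k hk u y hu hy hy2 hau
    obtain ⟨b1, b2⟩ := hC1 u y hu hy
    have hl := hlogle y hy hy2
    have hl0 : 0 ≤ Real.log y := Real.log_nonneg (by linarith)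
    rcases Nat.eq_zero_or_pos k with h0 | h0
    · subst h0
      refine b1.trans ?_
      rw [hE]
      have : (Real.sqrt u)⁻¹ ≤ (Real.sqrt a)⁻¹ := inv_anti₀ hsa (Real.sqrt_le_sqrt hau)
      gcongr
    · obtain ⟨k', rfl⟩ : ∃ k', k = k' + 1 := ⟨k - 1, by omega⟩
      refine (b2 k' (by omega)).trans ?_
      rw [hE]
      calc C1 * Real.log y ≤ C1 * Real.log (3 * t / 2) * 1 := by rw [mul_one]; gcongr
        _ ≤ _ := by gcongr
  have hmain := hCK Δ X C2 E (Real.log (3 * t / 2) / 2 + C3) (I ^ n) (ff n a t) hΔ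
    (by rw [hX]; linarith) hC20.le hE0 (by positivity) (by rw [hIn])
    (fun u hu j hj => ff_deriv hRH hj (hmemOm u hu))
    ?_ ?_ ?_ ?_ ?_ ?_ ?_ ?_
  · have e1 : ff n a t 0 0 = F n (((1 / 2 : ℝ) : ℂ) + (a : ℂ) + t * I) := by
      unfold ff ww
      simp
    rw [e1] at hmain
    refine hmain.trans ?_
    have hEX : E / X ^ 2 ≤ 6 * C1 := by
      have hX0 : 0 < X := by rw [hX]; linarith
      rw [div_le_iff₀ (by positivity), hE, hX]
      have h1 : (Real.sqrt a)⁻¹ = Real.sqrt t := by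
        rw [ha, one_div, Real.sqrt_inv, inv_inv]
      rw [h1]
      have h2 : Real.log (3 * t / 2) ≤ 3 * t / 2 := by
        have := Real.log_le_sub_one_of_pos (x := 3 * t / 2) (by linarith)
        linarith
      have h3 : Real.sqrt t ≤ t := by
        rw [Real.sqrt_le_left ht0.le]
        nlinarith
      calc C1 * Real.log (3 * t / 2) * Real.sqrt t ≤ C1 * (3 * t / 2) * t := by gcongr
        _ = 6 * C1 * (t / 2) ^ 2 := by ring
    have hκ : 0 ≤ s * (-(bernoulliFun (n + 1) α) / (n + 1).factorial) := by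
      -- the mass of the kernel has the right sign
      have h1 := Dc_re_mass h
      have h2 : 0 ≤ ∫ x : ℝ, s * (Dc n α x).re := integral_nonneg hD
      rw [integral_const_mul, h1] at h2
      have h3 : s * (-(bernoulliFun (n + 1) α) / (n + 1).factorial) =
          (s * -(bernoulliFun (n + 1) α / (n + 1))) / n.factorial := by
        rw [Nat.factorial_succ]
        push_cast
        field_simp
      rw [h3]
      positivity
    have hexp : 0 < Real.exp (Real.pi * Δ) := Real.exp_pos _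
    have hΔ0 : 0 < Δ := by linarith
    have hp1 : 0 ≤ (1 / Δ) ^ (n + 1) := by positivity
    have h5 : (Real.log (3 * t / 2) / 2 + C3) * (1 / Δ) ^ (n + 1) *
        (s * (-(bernoulliFun (n + 1) α) / (n + 1).factorial)) ≤
        (Real.log (3 * t / 2) / 2 + (C3 + CK * (C2 + 6 * C1))) * (1 / Δ) ^ (n + 1) *
        (s * (-(bernoulliFun (n + 1) α) / (n + 1).factorial)) := by
      have : 0 ≤ CK * (C2 + 6 * C1) := by positivity
      gcongr
      linarith
    have h6 : CK * Real.exp (Real.pi * Δ) * (C2 + E / X ^ 2) ≤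
        (C3 + CK * (C2 + 6 * C1)) * Real.exp (Real.pi * Δ) := by
      calc CK * Real.exp (Real.pi * Δ) * (C2 + E / X ^ 2) ≤
            CK * Real.exp (Real.pi * Δ) * (C2 + 6 * C1) := by gcongr
        _ = (CK * (C2 + 6 * C1)) * Real.exp (Real.pi * Δ) := by ring
        _ ≤ _ := by
            gcongr
            linarith
    linarith
  · -- continuity of the last function
    intro u hu
    have hm := hmemOm u hu
    have h1 : ContinuousAt (fun v : ℝ => Lz (ww a t v)) u := by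
      have h2 : ContinuousAt Lz (ww a t u) := (Lz_diffAt hRH hm.1 (Om_ne_one hm)).continuousAt
      have h3 : ContinuousAt (fun v : ℝ => ww a t v) u := (ww_deriv a t u).comp_ofReal.continuousAt
      exact ContinuousAt.comp (f := fun v : ℝ => ww a t v) h2 h3
    have h4 : (fun v : ℝ => ff n a t (n + 1) v) = fun v : ℝ => -(I ^ (n + 1) * Lz (ww a t v)) := by
      funext v
      unfold ff
      rw [if_neg (by omega)]
    rw [h4]
    exact (continuousAt_const.mul h1).neg.continuousWithinAt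
  · -- differentiability
    intro z hz
    rw [Complex.mem_reProdIm] at hz
    have hm : ww a t z ∈ Om := by
      apply ww_Om
      · linarith [hz.2.1]
      · have := hz.1.2
        rw [hX] at this
        linarith
    have h1 : DifferentiableAt ℂ (F n) (ww a t z) := by
      rw [hmn]
      exact (F_deriv hRH m hm).differentiableAt
    have h4 : (ff n a t 0) = fun v : ℂ => F n (ww a t v) := by
      funext v
      unfold ff
      simp
    rw [h4]
    exact (h1.comp z (ww_deriv a t z).differentiableAt).differentiableWithinAt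
  · -- top
    intro x hx
    have e : ff n a t 0 ((x : ℂ) + ((1 / 2 : ℝ) : ℂ) * I) =
        F (m + 1) (((1 : ℝ) : ℂ) + (a : ℂ) + ((t - x : ℝ) : ℂ) * I) := by
      unfold ff
      rw [if_pos (Nat.zero_le _), pow_zero, one_mul, Nat.sub_zero, hmn, hwre]
      congr 1
      push_cast
      ring
    rw [e]
    exact hC2 a (t - x) ha0
  · intro y hy
    have e : ff n a t 0 ((X : ℂ) + (y : ℂ) * I) = F n (((1 / 2 : ℝ) : ℂ) + ((a + y : ℝ) : ℂ) + ((t - X : ℝ) : ℂ) * I) := by
      unfold ff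
      rw [if_pos (Nat.zero_le _), pow_zero, one_mul, Nat.sub_zero, hwre]
    rw [e]
    exact hbF n le_rfl _ _ (by linarith [hy.1]) (by rw [hX]; linarith) (by rw [hX]; linarith)
      (by linarith [hy.1])
  · intro y hy
    have e : ff n a t 0 (-(X : ℂ) + (y : ℂ) * I) = F n (((1 / 2 : ℝ) : ℂ) + ((a + y : ℝ) : ℂ) + ((t - -X : ℝ) : ℂ) * I) := by
      unfold ff
      rw [if_pos (Nat.zero_le _), pow_zero, one_mul, Nat.sub_zero, ← hwre]
      push_cast
      rfl
    rw [e]
    exact hbF n le_rfl _ _ (by linarith [hy.1]) (by rw [hX]; linarith) (by rw [hX]; linarith)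
      (by linarith [hy.1])
  · intro j hj
    have e : ff n a t j (X : ℂ) = I ^ j * F (n - j) (((1 / 2 : ℝ) : ℂ) + (a : ℂ) + ((t - X : ℝ) : ℂ) * I) := by
      unfold ff ww
      rw [if_pos hj]
      push_cast
      rfl
    rw [e, norm_mul, hIn, one_mul]
    exact hbF (n - j) (by omega) _ _ ha0 (by rw [hX]; linarith) (by rw [hX]; linarith) le_rfl
  · intro j hj
    have e : ff n a t j (-(X : ℂ)) = I ^ j * F (n - j) (((1 / 2 : ℝ) : ℂ) + (a : ℂ) + ((t - -X : ℝ) : ℂ) * I) := by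
      unfold ff ww
      rw [if_pos hj]
      push_cast
      rfl
    rw [e, norm_mul, hIn, one_mul]
    exact hbF (n - j) (by omega) _ _ ha0 (by rw [hX]; linarith) (by rw [hX]; linarith) le_rfl
  · intro u hu
    have hu1 := hu.1
    have hu2 := hu.2
    rw [hX] at hu1 hu2
    have e : I ^ n * ff n a t (n + 1) (u : ℂ) = -(I * Lz (1 / 2 + (a + ((t - u : ℝ) : ℂ) * I))) := by
      unfold ff ww
      rw [if_neg (by omega)]
      have h1 : I ^ n * I ^ (n + 1) = I := by
        rw [← pow_add, show n + (n + 1) = 2 * n + 1 by ring, pow_succ, pow_mul, Complex.I_sq,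
          h.even.neg_one_pow, one_mul]
      have h2 : (((1 / 2 : ℝ) : ℂ) + (a : ℂ) + ((t : ℂ) - (u : ℂ)) * I) =
          (1 / 2 + (a + ((t - u : ℝ) : ℂ) * I)) := by push_cast; ring
      rw [h2]
      linear_combination (-Lz (1 / 2 + (a + ((t - u : ℝ) : ℂ) * I))) * h1
    rw [e]
    have h3 := hC3 a (t - u) ha0 (by linarith) (by linarith)
    have h4 : (-(I * Lz (1 / 2 + (a + ((t - u : ℝ) : ℂ) * I)))).im =
        -(Lz (1 / 2 + (a + ((t - u : ℝ) : ℂ) * I))).re := by
      simp [Complex.mul_im]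
    rw [h4]
    have h5 := hlogle (t - u) (by linarith) (by linarith)
    linarith

end Pool.Agent.X111.BF
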