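import Pool.Agent.X111.BF.Zet6
import Pool.Agent.H307R2.LU

set_option autoImplicit false

namespace Pool.Agent.X111.BF

open Complex Filter Topology Set MeasureTheory

/-- `ζ(1/2) ≠ 0` -/
lemma zeta_half_ne : riemannZeta (1 / 2 : ℂ) ≠ 0 := by
  have hne : (((1 / 2 : ℝ)) : ℂ) ≠ 1 := by
    intro h
    have : (1 / 2 : ℝ) = 1 := by exact_mod_cast h
    norm_num at this
  have e0 := Pool.Agent.H307R2.zeta_eq (N := 1) le_rfl (s := ((1 / 2 : ℝ) : ℂ)) (by simp) hne
  have e1 : Pool.Agent.H307R2.TM 1 Pool.Agent.H307R2.Ez ((1 / 2 : ℝ) : ℂ) =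
      ((∫ t in Ioi ((1 : ℕ) : ℝ), (-(Int.fract t)) * t ^ (-((1 / 2 : ℝ) + 1)) : ℝ) : ℂ) := by
    unfold Pool.Agent.H307R2.TM
    rw [← integral_complex_ofReal]
    refine MeasureTheory.setIntegral_congr_fun measurableSet_Ioi fun t ht => ?_
    have ht' : (1 : ℝ) < t := by simpa using ht
    have ht0 : 0 ≤ t := by linarith
    simp only [Pool.Agent.H307R2.Ez]
    rw [Complex.ofReal_mul, Complex.ofReal_cpow ht0]
    push_cast
    rfl
  have e2 : (∫ t in Ioi ((1 : ℕ) : ℝ), (-(Int.fract t)) * t ^ (-((1 / 2 : ℝ) + 1)) : ℝ) ≤ 0 := by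
    apply MeasureTheory.setIntegral_nonpos measurableSet_Ioi
    intro t ht
    have ht' : (1 : ℝ) < t := by simpa using ht
    have : 0 ≤ Int.fract t * t ^ (-((1 / 2 : ℝ) + 1)) :=
      mul_nonneg (Int.fract_nonneg t) (Real.rpow_nonneg (by linarith) _)
    linarith
  rw [e1] at e0
  set I0 := (∫ t in Ioi ((1 : ℕ) : ℝ), (-(Int.fract t)) * t ^ (-((1 / 2 : ℝ) + 1)) : ℝ) with hI
  have e3 : riemannZeta (1 / 2 : ℂ) = ((1 + 1 / ((1 / 2 : ℝ) - 1) + (1 / 2) * I0 : ℝ) : ℂ) := by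
    have e4 : (((1 / 2 : ℝ)) : ℂ) = (1 / 2 : ℂ) := by push_cast; rfl
    rw [e4] at e0
    rw [e0]
    push_cast
    simp
  rw [e3]
  intro h
  have h2 : (1 + 1 / ((1 / 2 : ℝ) - 1) + (1 / 2) * I0 : ℝ) = 0 := by exact_mod_cast h
  norm_num at h2
  linarith

lemma z1_real (x : ℝ) : (riemannZeta₁ (x : ℂ)).im = 0 := by
  rcases eq_or_ne x 1 with h | h
  · rw [h]
    simp
  · have h1 : (x : ℂ) ≠ 1 := by exact_mod_cast h
    have h2 := riemannZeta_eq_inv_sub_mul h1
    have h3 : riemannZeta₁ (x : ℂ) = ((x - 1 : ℝ) : ℂ) * riemannZeta x := by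
      rw [h2]
      have : (x : ℂ) - 1 ≠ 0 := sub_ne_zero.2 h1
      push_cast
      field_simp
    have h4 := riemannZeta_conj (x : ℂ)
    rw [Complex.conj_ofReal] at h4
    have h5 : (riemannZeta (x : ℂ)).im = 0 := Complex.conj_eq_iff_im.1 h4.symm
    rw [h3, Complex.im_ofReal_mul, h5, mul_zero]

lemma z1_ne (hRH : RiemannHypothesis) {x : ℝ} (hx : 1 / 2 ≤ x) : riemannZeta₁ (x : ℂ) ≠ 0 := by
  rcases eq_or_ne x 1 with h | h
  · rw [h]
    simp
  · have h1 : (x : ℂ) ≠ 1 := by exact_mod_cast h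
    have h2 := riemannZeta_eq_inv_sub_mul h1
    intro h3
    rw [h3, mul_zero] at h2
    rcases eq_or_lt_of_le hx with h4 | h4
    · have : (x : ℂ) = 1 / 2 := by rw [← h4]; push_cast; rfl
      rw [this] at h2
      exact zeta_half_ne h2
    · exact zeta_ne hRH (by simpa using h4) h1 h2

lemma z1_pos (hRH : RiemannHypothesis) {x : ℝ} (hx : 1 / 2 ≤ x) : 0 < (riemannZeta₁ (x : ℂ)).re := by
  have hc : Continuous fun y : ℝ => (riemannZeta₁ (y : ℂ)).re :=
    Complex.continuous_re.comp (differentiable_riemannZeta₁.continuous.comp Complex.continuous_ofReal)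
  have hne : ∀ y : ℝ, 1 / 2 ≤ y → (riemannZeta₁ (y : ℂ)).re ≠ 0 := by
    intro y hy h
    apply z1_ne hRH hy
    apply Complex.ext
    · simpa using h
    · simpa using z1_real y
  by_contra hneg
  have hneg' : (riemannZeta₁ (x : ℂ)).re ≤ 0 := not_lt.1 hneg
  have h1 : (riemannZeta₁ ((1:ℝ) : ℂ)).re = 1 := by simp
  have hpre : IsPreconnected (Ici (1 / 2 : ℝ)) := isPreconnected_Ici
  obtain ⟨y, hy, hy0⟩ := hpre.intermediate_value (a := x) (b := 1) hx (by norm_num [mem_Ici])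
    hc.continuousOn ⟨hneg', by rw [h1]; exact zero_le_one⟩
  exact hne y hy hy0

/-- near the real axis `ζ₁` has positive real part -/
lemma z1_near (hRH : RiemannHypothesis) : ∃ ε : ℝ, 0 < ε ∧ ε ≤ 1 ∧ ∀ s : ℂ, 1 / 2 ≤ s.re → s.re ≤ 2 →
    0 ≤ s.im → s.im ≤ ε → 0 < (riemannZeta₁ s).re := by
  set K : Set ℂ := (fun x : ℝ => (x : ℂ)) '' Icc (1 / 2 : ℝ) 2 with hK
  have hKc : IsCompact K := isCompact_Icc.image Complex.continuous_ofReal
  have hU : IsOpen {s : ℂ | 0 < (riemannZeta₁ s).re} :=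
    isOpen_lt continuous_const (Complex.continuous_re.comp differentiable_riemannZeta₁.continuous)
  have hsub : K ⊆ {s : ℂ | 0 < (riemannZeta₁ s).re} := by
    rintro _ ⟨x, hx, rfl⟩
    exact z1_pos hRH hx.1
  obtain ⟨δ, hδ, hth⟩ := hKc.exists_thickening_subset_open hU hsub
  refine ⟨min (δ / 2) 1, by positivity, min_le_right _ _, fun s h1 h2 h3 h4 => ?_⟩
  apply hth
  rw [Metric.mem_thickening_iff]
  refine ⟨(s.re : ℂ), ⟨s.re, ⟨h1, h2⟩, rfl⟩, ?_⟩
  rw [dist_eq_norm]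
  have e : s - (s.re : ℂ) = (s.im : ℂ) * I := by
    apply Complex.ext <;> simp
  rw [e, norm_mul, Complex.norm_I, mul_one, Complex.norm_real, Real.norm_eq_abs, abs_of_nonneg h3]
  have := h4.trans (min_le_left _ _)
  linarith

/-- a continuous function on an interval which starts at `0` and stays in `2πℤ` vanishes -/
lemma lift_zero {g : ℝ → ℝ} {b : ℝ} (hb : 0 ≤ b) (hc : ContinuousOn g (Icc 0 b)) (h0 : g 0 = 0)
    (h : ∀ x ∈ Icc 0 b, Real.cos (g x) = 1) : g b = 0 := by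
  by_contra hne
  have hcb := h b ⟨hb, le_rfl⟩
  rw [Real.cos_eq_one_iff] at hcb
  obtain ⟨k, hk⟩ := hcb
  have hk0 : k ≠ 0 := by
    rintro rfl
    apply hne
    rw [← hk]
    simp
  have hbig : Real.pi ≤ |g b| := by
    rw [← hk, abs_mul, abs_of_pos (by positivity : (0:ℝ) < 2 * Real.pi)]
    have : (1:ℝ) ≤ |(k:ℝ)| := by exact_mod_cast Int.one_le_abs hk0
    nlinarith [Real.pi_pos]
  have hca : ContinuousOn (fun x => |g x|) (Icc 0 b) := hc.abs
  have hivt := intermediate_value_Icc hb hca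
  have hmem : Real.pi ∈ Icc (|g 0|) (|g b|) := by
    rw [h0, abs_zero]
    exact ⟨Real.pi_pos.le, hbig⟩
  obtain ⟨y, hy, hy2⟩ := hivt hmem
  have h1 := h y hy
  rw [← Real.cos_abs] at h1
  simp only at hy2
  rw [hy2, Real.cos_pi] at h1
  norm_num at h1

lemma zeta_eq_z1 {s : ℂ} (hs : s ≠ 1) : (s - 1) * riemannZeta s = riemannZeta₁ s := by
  rw [riemannZeta_eq_inv_sub_mul hs]
  have : s - 1 ≠ 0 := sub_ne_zero.2 hs
  field_simp

/-- the formula for `F 0` in a thin rectangle above the real axis -/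
lemma thin (hRH : RiemannHypothesis) : ∃ ε : ℝ, 0 < ε ∧ ε ≤ 1 ∧
    (∀ s : ℂ, 1 / 2 ≤ s.re → s.re ≤ 2 → 0 ≤ s.im → s.im ≤ ε → 0 < (riemannZeta₁ s).re) ∧
    ∀ s : ℂ, 1 / 2 < s.re → s.re ≤ 2 → 0 < s.im → s.im ≤ ε →
      F 0 s = Complex.log (riemannZeta₁ s) - Complex.log (s - 1) := by
  obtain ⟨ε, h0, h1, hε⟩ := z1_near hRH
  refine ⟨ε, h0, h1, hε, fun s hs1 hs2 hs3 hs4 => ?_⟩
  -- the segment from 2 to s
  set p : ℝ → ℂ := fun l => 2 + l * (s - 2) with hp
  have hre : ∀ l, (p l).re = 2 + l * (s.re - 2) := by intro l; simp [hp]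
  have him : ∀ l, (p l).im = l * s.im := by intro l; simp [hp]
  have hmem : ∀ l ∈ Icc (0:ℝ) 1, p l ∈ Om ∧ 0 < (riemannZeta₁ (p l)).re ∧ p l - 1 ∈ slitPlane := by
    intro l hl
    have hr1 : 1 / 2 < (p l).re := by rw [hre]; nlinarith [hl.1, hl.2]
    have hr2 : (p l).re ≤ 2 := by rw [hre]; nlinarith [hl.1, hl.2]
    have hi1 : 0 ≤ (p l).im := by rw [him]; exact mul_nonneg hl.1 hs3.le
    have hi2 : (p l).im ≤ ε := by rw [him]; nlinarith [hl.1, hl.2]
    rcases eq_or_lt_of_le hl.1 with h | h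
    · have hp2 : p l = 2 := by rw [hp, ← h]; simp
      refine ⟨?_, hε _ hr1.le hr2 hi1 hi2, ?_⟩
      · rw [hp2]
        exact ⟨by norm_num, Or.inr (by norm_num)⟩
      · rw [hp2]
        norm_num
    · have hi3 : 0 < (p l).im := by rw [him]; exact mul_pos h hs3
      refine ⟨⟨hr1, Or.inl hi3⟩, hε _ hr1.le hr2 hi1 hi2, ?_⟩
      rw [Complex.mem_slitPlane_iff]
      right
      simp only [Complex.sub_im, Complex.one_im, sub_zero]
      exact hi3.ne'
  set g : ℝ → ℂ := fun l => F 0 (p l) + Complex.log (p l - 1) - Complex.log (riemannZeta₁ (p l)) with hg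
  have hpc : Continuous p := by simp only [hp]; fun_prop
  have hgc : ContinuousOn g (Icc 0 1) := by
    intro l hl
    obtain ⟨m1, m2, m3⟩ := hmem l hl
    have c1 : ContinuousAt (fun l => F 0 (p l)) l :=
      ContinuousAt.comp (f := p) (F_deriv0 hRH m1).continuousAt hpc.continuousAt
    have c2 : ContinuousAt (fun l => Complex.log (p l - 1)) l :=
      ContinuousAt.clog (hpc.continuousAt.sub continuousAt_const) m3
    have c3 : ContinuousAt (fun l => Complex.log (riemannZeta₁ (p l))) l :=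
      ContinuousAt.clog (differentiable_riemannZeta₁.continuous.continuousAt.comp
        (f := p) hpc.continuousAt) (Or.inl m2)
    exact ((c1.add c2).sub c3).continuousWithinAt
  have hexp : ∀ l ∈ Icc (0:ℝ) 1, Complex.exp (g l) = 1 := by
    intro l hl
    obtain ⟨m1, m2, m3⟩ := hmem l hl
    have hz1 : riemannZeta₁ (p l) ≠ 0 := by
      intro h
      rw [h] at m2
      simp at m2
    simp only [hg]
    rw [Complex.exp_sub, Complex.exp_add, exp_F0 hRH m1, Complex.exp_log (slitPlane_ne_zero m3),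
      Complex.exp_log hz1, mul_comm, zeta_eq_z1 (Om_ne_one m1), div_self hz1]
  have him0 : (g 0).im = 0 := by
    have hp0 : p 0 = ((2:ℝ) : ℂ) := by simp [hp]
    simp only [hg]
    rw [hp0]
    have e1 : (F 0 ((2:ℝ) : ℂ)).im = 0 := real_F0 (by norm_num)
    have e2 : (Complex.log (((2:ℝ) : ℂ) - 1)).im = 0 := by
      have : (((2:ℝ) : ℂ) - 1) = 1 := by push_cast; norm_num
      rw [this]
      simp
    have e3 : (Complex.log (riemannZeta₁ ((2:ℝ) : ℂ))).im = 0 := by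
      rw [Complex.log_im, Complex.arg_eq_zero_iff]
      exact ⟨(z1_pos hRH (by norm_num)).le, z1_real 2⟩
    rw [Complex.sub_im, Complex.add_im, e1, e2, e3]
    norm_num
  have hcos : ∀ l ∈ Icc (0:ℝ) 1, Real.cos ((g l).im) = 1 := by
    intro l hl
    have h2 := hexp l hl
    have h3 : ‖Complex.exp (g l)‖ = 1 := by rw [h2, norm_one]
    rw [Complex.norm_exp] at h3
    have h4 := congrArg Complex.re h2
    rw [Complex.exp_re, h3, one_mul, Complex.one_re] at h4
    exact h4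
  have hfin := lift_zero (g := fun l => (g l).im) zero_le_one
    (Complex.continuous_im.comp_continuousOn hgc) him0 hcos
  have h5 := hexp 1 ⟨zero_le_one, le_rfl⟩
  have h6 : ‖Complex.exp (g 1)‖ = 1 := by rw [h5, norm_one]
  rw [Complex.norm_exp, Real.exp_eq_one_iff] at h6
  have h7 : g 1 = 0 := Complex.ext h6 hfin
  have hp1 : p 1 = s := by simp [hp]
  simp only [hg] at h7
  rw [hp1] at h7
  linear_combination h7

end Pool.Agent.X111.BF
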