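import Pool.Agent.X111.BF.Zet7
import Pool.Agent.X111.BF.Defs

set_option autoImplicit false

namespace Pool.Agent.X111.BF

open Complex Filter Topology Set MeasureTheory

/-- boundary values on the real axis, from above -/
noncomputable def Phi : ℕ → ℝ → ℂ
  | 0 => fun x => ((Real.log ‖riemannZeta (x : ℂ)‖ : ℝ) : ℂ) - (if x < 1 then (Real.pi : ℂ) * I else 0)
  | (n + 1) => fun σ => ∫ u in Ioi σ, Phi n u

/-- dominating function -/
noncomputable def g0 (x : ℝ) : ℝ := (Real.sqrt |x - 1|)⁻¹ * Real.exp (-|x - 1| / 2)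

lemma g0_nonneg (x : ℝ) : 0 ≤ g0 x := by
  unfold g0
  positivity

lemma g0_int : Integrable g0 := by
  have h1 : Integrable (indicator (Ioi (0:ℝ)) (fun v : ℝ => (Real.sqrt v)⁻¹ * Real.exp (-v / 2))) :=
    (integrable_indicator_iff measurableSet_Ioi).2 sqrt_int
  have h2 := (h1.add h1.comp_neg).comp_sub_right 1
  refine h2.congr (Eventually.of_forall fun x => ?_)
  simp only [Pi.add_apply]
  unfold g0
  rcases lt_trichotomy (x - 1) 0 with h | h | h
  · rw [indicator_of_notMem (by simp only [mem_Ioi, not_lt]; exact h.le : x - 1 ∉ Ioi (0:ℝ)),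
      indicator_of_mem (by simpa using h : -(x - 1) ∈ Ioi (0:ℝ)), zero_add, abs_of_neg h]
  · rw [h]
    simp
  · rw [indicator_of_mem (by simpa using h : x - 1 ∈ Ioi (0:ℝ)),
      indicator_of_notMem (by simp only [mem_Ioi, not_lt]; linarith : -(x - 1) ∉ Ioi (0:ℝ)), add_zero, abs_of_pos h]

lemma tendsto_pt (x : ℝ) : Tendsto (fun e : ℝ => (x : ℂ) + e * I) (𝓝[>] 0) (𝓝 (x : ℂ)) := by
  have h : Continuous fun e : ℝ => (x : ℂ) + e * I := by fun_prop
  have h2 := (h.tendsto 0).mono_left (nhdsWithin_le_nhds (s := Ioi 0))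
  simpa using h2

lemma lim0 (hRH : RiemannHypothesis) {x : ℝ} (hx : 1 / 2 < x) (h1 : x ≠ 1) :
    Tendsto (fun e : ℝ => F 0 ((x : ℂ) + e * I)) (𝓝[>] 0) (𝓝 (Phi 0 x)) := by
  rcases lt_or_gt_of_ne h1 with h | h
  · obtain ⟨ε, h0, hε1, hpos, hthin⟩ := thin hRH
    have hz : riemannZeta₁ (x : ℂ) ≠ 0 := z1_ne hRH hx.le
    have hxc : (x : ℂ) ≠ 1 := by exact_mod_cast h1
    have e1 : Tendsto (fun e : ℝ => Complex.log (riemannZeta₁ ((x : ℂ) + e * I))) (𝓝[>] 0)
        (𝓝 (Complex.log (riemannZeta₁ (x : ℂ)))) := by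
      have h2 : ContinuousAt (fun s => Complex.log (riemannZeta₁ s)) (x : ℂ) :=
        ContinuousAt.clog differentiable_riemannZeta₁.continuous.continuousAt
          (Or.inl (z1_pos hRH hx.le))
      exact h2.tendsto.comp (tendsto_pt x)
    have e2 : Tendsto (fun e : ℝ => Complex.log ((x : ℂ) + e * I - 1)) (𝓝[>] 0)
        (𝓝 (Real.log ‖(x : ℂ) - 1‖ + Real.pi * I)) := by
      have h2 := Complex.tendsto_log_nhdsWithin_im_nonneg_of_re_neg_of_im_zero (z := (x : ℂ) - 1)
        (by simpa using h) (by simp)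
      refine h2.comp (tendsto_nhdsWithin_iff.2 ⟨(tendsto_pt x).sub_const 1, ?_⟩)
      filter_upwards [self_mem_nhdsWithin] with e he
      have : (0:ℝ) < e := he
      simp only [Complex.sub_im, Complex.add_im, Complex.ofReal_im, Complex.mul_im,
        Complex.ofReal_re, Complex.I_im, mul_one, Complex.I_re, mul_zero, add_zero, Complex.one_im,
        sub_zero, zero_add]
      exact this.le
    have e3 := e1.sub e2
    have hval : Complex.log (riemannZeta₁ (x : ℂ)) - (Real.log ‖(x : ℂ) - 1‖ + Real.pi * I) = Phi 0 x := by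
      have hr : riemannZeta₁ (x : ℂ) = (((riemannZeta₁ (x : ℂ)).re : ℝ) : ℂ) := by
        apply Complex.ext
        · simp
        · simpa using z1_real x
      have hn : (riemannZeta₁ (x : ℂ)).re = ‖(x : ℂ) - 1‖ * ‖riemannZeta (x : ℂ)‖ := by
        rw [← norm_mul, zeta_eq_z1 hxc]
        nth_rw 2 [hr]
        rw [Complex.norm_real, Real.norm_eq_abs, abs_of_pos (z1_pos hRH hx.le)]
      have hz2 : riemannZeta (x : ℂ) ≠ 0 := zeta_ne hRH (by simpa using hx) hxc
      rw [hr, ← Complex.ofReal_log (z1_pos hRH hx.le).le, hn,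
        Real.log_mul (norm_ne_zero_iff.2 (sub_ne_zero.2 hxc)) (norm_ne_zero_iff.2 hz2)]
      simp only [Phi, if_pos h]
      push_cast
      ring
    rw [hval] at e3
    refine e3.congr' ?_
    filter_upwards [Ioc_mem_nhdsGT h0] with e he
    exact (hthin _ (by simpa using hx) (by simp; linarith) (by simpa using he.1)
      (by simpa using he.2)).symm
  · have hm : (x : ℂ) ∈ Om := ⟨by simp; linarith, Or.inr (by simpa using h)⟩
    have h2 := (F_deriv0 hRH hm).continuousAt.tendsto.comp (tendsto_pt x)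
    have hval : F 0 (x : ℂ) = Phi 0 x := by
      simp only [Phi, if_neg (not_lt.2 h.le), sub_zero]
      apply Complex.ext
      · rw [re_F0 hRH hm, Complex.ofReal_re]
      · rw [real_F0 h, Complex.ofReal_im]
    rw [hval] at h2
    exact h2

lemma dom0 (hRH : RiemannHypothesis) : ∃ ε C : ℝ, 0 < ε ∧ ε ≤ 1 ∧ 0 < C ∧
    ∀ x e : ℝ, 1 / 2 < x → x ≠ 1 → 0 < e → e ≤ ε → ‖F 0 ((x : ℂ) + e * I)‖ ≤ C * g0 x := by
  obtain ⟨ε, h0, hε1, hpos, hthin⟩ := thin hRH
  obtain ⟨C3, h30, h3⟩ := Z3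
  -- bound of log ζ₁ on the rectangle
  have hRc : IsCompact (Icc (1 / 2 : ℝ) 2 ×ℂ Icc 0 ε) := isCompact_Icc.reProdIm isCompact_Icc
  have hlc : ContinuousOn (fun s => Complex.log (riemannZeta₁ s)) (Icc (1 / 2 : ℝ) 2 ×ℂ Icc 0 ε) := by
    intro s hs
    rw [Complex.mem_reProdIm] at hs
    exact (ContinuousAt.clog differentiable_riemannZeta₁.continuous.continuousAt
      (Or.inl (hpos s hs.1.1 hs.1.2 hs.2.1 hs.2.2))).continuousWithinAt
  obtain ⟨C1, hC1⟩ := hRc.exists_bound_of_continuousOn hlc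
  refine ⟨ε, C3 + (|C1| + 7) * Real.exp (1 / 4), h0, hε1, by positivity, fun x e hx hx1 he0 heε => ?_⟩
  rcases lt_or_gt_of_ne hx1 with h | h
  · -- left of one
    have hy0 : 0 < 1 - x := by linarith
    have hy1 : 1 - x < 1 / 2 := by linarith
    have habs : |x - 1| = 1 - x := by rw [abs_of_neg (by linarith)]; ring
    set s : ℂ := (x : ℂ) + e * I with hs
    have hsre : s.re = x := by simp [hs]
    have hsim : s.im = e := by simp [hs]
    rw [hthin s (by rw [hsre]; exact hx) (by rw [hsre]; linarith) (by rw [hsim]; exact he0)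
      (by rw [hsim]; exact heε)]
    have b1 : ‖Complex.log (riemannZeta₁ s)‖ ≤ C1 := hC1 s (by
      rw [Complex.mem_reProdIm, hsre, hsim]
      exact ⟨⟨hx.le, by linarith⟩, ⟨he0.le, heε⟩⟩)
    have hn1 : 1 - x ≤ ‖s - 1‖ := by
      have := Complex.abs_re_le_norm (s - 1)
      rw [Complex.sub_re, hsre, Complex.one_re, habs] at this
      exact this
    have hn2 : ‖s - 1‖ ≤ 2 := by
      refine (Complex.norm_le_abs_re_add_abs_im _).trans ?_
      rw [Complex.sub_re, hsre, Complex.one_re, habs, Complex.sub_im, hsim, Complex.one_im, sub_zero,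
        abs_of_pos he0]
      linarith
    have hnp : 0 < ‖s - 1‖ := lt_of_lt_of_le hy0 hn1
    have hsq : 0 < Real.sqrt (1 - x) := Real.sqrt_pos.2 hy0
    have hsqi : 1 ≤ (Real.sqrt (1 - x))⁻¹ := by
      rw [one_le_inv₀ hsq]
      exact Real.sqrt_le_one.2 (by linarith)
    have b2 : |Real.log ‖s - 1‖| ≤ 3 * (Real.sqrt (1 - x))⁻¹ := by
      rw [abs_le]
      constructor
      · have h5 : Real.log (1 - x) ≤ Real.log ‖s - 1‖ := Real.log_le_log hy0 hn1
        have h6 : -Real.log (1 - x) ≤ 2 * (Real.sqrt (1 - x))⁻¹ := by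
          have h7 : Real.log ((Real.sqrt (1 - x))⁻¹) ≤ (Real.sqrt (1 - x))⁻¹ - 1 :=
            Real.log_le_sub_one_of_pos (inv_pos.2 hsq)
          rw [Real.log_inv, Real.log_sqrt hy0.le] at h7
          linarith
        linarith
      · have h5 : Real.log ‖s - 1‖ ≤ ‖s - 1‖ - 1 := Real.log_le_sub_one_of_pos hnp
        linarith
    have b3 : ‖Complex.log (s - 1)‖ ≤ 3 * (Real.sqrt (1 - x))⁻¹ + 4 := by
      refine (Complex.norm_le_abs_re_add_abs_im _).trans ?_
      rw [Complex.log_re, Complex.log_im]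
      have := Complex.abs_arg_le_pi (s - 1)
      linarith [Real.pi_lt_d2]
    have hg : (Real.sqrt (1 - x))⁻¹ ≤ Real.exp (1 / 4) * g0 x := by
      unfold g0
      rw [habs]
      have h8 : 1 ≤ Real.exp (1 / 4) * Real.exp (-(1 - x) / 2) := by
        rw [← Real.exp_add]
        apply Real.one_le_exp
        linarith
      calc (Real.sqrt (1 - x))⁻¹ = (Real.sqrt (1 - x))⁻¹ * 1 := (mul_one _).symm
        _ ≤ (Real.sqrt (1 - x))⁻¹ * (Real.exp (1 / 4) * Real.exp (-(1 - x) / 2)) := by gcongr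
        _ = _ := by ring
    calc ‖Complex.log (riemannZeta₁ s) - Complex.log (s - 1)‖ ≤ C1 + (3 * (Real.sqrt (1 - x))⁻¹ + 4) :=
          (norm_sub_le _ _).trans (add_le_add b1 b3)
      _ ≤ (|C1| + 7) * (Real.sqrt (1 - x))⁻¹ := by
          nlinarith [abs_nonneg C1, le_abs_self C1]
      _ ≤ (|C1| + 7) * (Real.exp (1 / 4) * g0 x) := by gcongr
      _ = (|C1| + 7) * Real.exp (1 / 4) * g0 x := by ring
      _ ≤ _ := by
          have := g0_nonneg x
          have : 0 ≤ C3 * g0 x := by positivity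
          linarith
  · -- right of one
    obtain ⟨h4, -⟩ := chain_bound (x0 := 1) (t := e) (B := C3) h30.le
      (fun u hu => by
        have hre : ((((1 : ℝ) : ℂ) + u + e * I)).re = 1 + u := by simp
        have := h3 (((1 : ℝ) : ℂ) + u + e * I) (by rw [hre]; linarith)
        rw [hre, show 1 + u - 1 = u by ring] at this
        exact this)
    have h5 := h4 (x - 1) (by linarith)
    have e1 : (((1 : ℝ) : ℂ) + ((x - 1 : ℝ) : ℂ) + e * I) = (x : ℂ) + e * I := by push_cast; ring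
    rw [e1] at h5
    have e2 : (Real.sqrt (x - 1))⁻¹ * Real.exp (-(x - 1) / 2) = g0 x := by
      unfold g0
      rw [abs_of_pos (by linarith)]
    rw [e2] at h5
    refine h5.trans ?_
    have := g0_nonneg x
    have : 0 ≤ (|C1| + 7) * Real.exp (1 / 4) * g0 x := by positivity
    linarith

end Pool.Agent.X111.BF
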