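import Pool.Agent.X111.BF.Zet8

set_option autoImplicit false

namespace Pool.Agent.X111.BF

open Complex Filter Topology Set MeasureTheory

lemma F_shift (n : ℕ) (x e : ℝ) : F (n + 1) ((x : ℂ) + e * I) =
    ∫ w in Ioi x, F n ((w : ℂ) + e * I) := by
  have h := shift_Ioi (fun w : ℝ => F n ((w : ℂ) + e * I)) 0 x
  rw [zero_add] at h
  rw [← h]
  show hI (F n) _ = _
  unfold hI
  refine setIntegral_congr_fun measurableSet_Ioi fun u _ => ?_
  congr 1
  push_cast
  ring

lemma ae_ne0 (c : ℝ) : ∀ᵐ x ∂(volume : Measure ℝ), x ≠ c := by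
  have : (volume : Measure ℝ) {c} = 0 := measure_singleton c
  rw [ae_iff]
  simpa using this

lemma ae_ne (s : Set ℝ) (c : ℝ) : ∀ᵐ x ∂(volume.restrict s), x ≠ c :=
  ae_restrict_of_ae (ae_ne0 c)

lemma domn (hRH : RiemannHypothesis) : ∃ ε : ℝ, 0 < ε ∧ ε ≤ 1 ∧ ∀ n : ℕ, ∃ g : ℝ → ℝ,
    IntegrableOn g (Ioi (1 / 2)) ∧ (∀ x, 0 ≤ g x) ∧ ∀ x e : ℝ, 1 / 2 < x → x ≠ 1 → 0 < e → e ≤ ε →
      ‖F n ((x : ℂ) + e * I)‖ ≤ g x := by
  obtain ⟨ε, C, h0, h1, hC0, hC⟩ := dom0 hRH
  obtain ⟨C3, h30, h3⟩ := Z3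
  refine ⟨ε, h0, h1, fun n => ?_⟩
  induction n with
  | zero => exact ⟨fun x => C * g0 x, (g0_int.const_mul C).integrableOn,
      fun x => mul_nonneg hC0.le (g0_nonneg x), hC⟩
  | succ n ih =>
    obtain ⟨g, hgi, hg0, hg⟩ := ih
    set G := ∫ x in Ioi (1 / 2 : ℝ), g x with hG
    have hG0 : 0 ≤ G := setIntegral_nonneg measurableSet_Ioi fun x _ => hg0 x
    have hC0' := C0_nonneg
    refine ⟨fun x => (G + 2 ^ n * (C3 * C0)) * Real.exp (-(x - 1) / 2), ?_, fun x => by positivity, ?_⟩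
    · have h4 : IntegrableOn (fun u : ℝ => Real.exp (-u / 2)) (Ioi 0) := exp_half.1
      have h5 : IntegrableOn (fun u : ℝ => Real.exp (-(1 / 2) * u)) (Ioi (1 / 2)) :=
        integrableOn_exp_mul_Ioi (by norm_num) _
      have h6 : (fun x : ℝ => (G + 2 ^ n * (C3 * C0)) * Real.exp (-(x - 1) / 2)) =
          fun x : ℝ => ((G + 2 ^ n * (C3 * C0)) * Real.exp (1 / 2)) * Real.exp (-(1 / 2) * x) := by
        funext x
        rw [mul_assoc, ← Real.exp_add]
        congr 2
        ring
      rw [h6]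
      exact h5.const_mul _
    · intro x e hx hx1 he0 heε
      rcases lt_or_gt_of_ne hx1 with h | h
      · rw [F_shift]
        have hsub : Ioi x ⊆ Ioi (1 / 2 : ℝ) := Ioi_subset_Ioi hx.le
        calc ‖∫ w in Ioi x, F n ((w : ℂ) + e * I)‖ ≤ ∫ w in Ioi x, g w := by
              refine norm_integral_le_of_norm_le (hgi.mono_set hsub) ?_
              have h7 := ae_restrict_mem (μ := (volume : Measure ℝ)) (s := Ioi x) measurableSet_Ioi
              filter_upwards [h7, ae_ne (Ioi x) 1] with w hw hw1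
              have : x < w := hw
              exact hg w e (by linarith) hw1 he0 heε
          _ ≤ G := setIntegral_mono_set hgi (Eventually.of_forall hg0) hsub.eventuallyLE
          _ ≤ (G + 2 ^ n * (C3 * C0)) * 1 := by
              have : 0 ≤ 2 ^ n * (C3 * C0) := by positivity
              linarith
          _ ≤ _ := by
              apply mul_le_mul_of_nonneg_left _ (by positivity)
              apply Real.one_le_exp
              linarith
      · obtain ⟨-, h4⟩ := chain_bound (x0 := 1) (t := e) (B := C3) h30.le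
          (fun u hu => by
            have hre : ((((1 : ℝ) : ℂ) + u + e * I)).re = 1 + u := by simp
            have := h3 (((1 : ℝ) : ℂ) + u + e * I) (by rw [hre]; linarith)
            rw [hre, show 1 + u - 1 = u by ring] at this
            exact this)
        have h5 := h4 n (x - 1) (by linarith)
        have e1 : (((1 : ℝ) : ℂ) + ((x - 1 : ℝ) : ℂ) + e * I) = (x : ℂ) + e * I := by push_cast; ring
        rw [e1] at h5
        refine h5.trans ?_
        apply mul_le_mul_of_nonneg_right _ (Real.exp_pos _).le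
        linarith

lemma mem_Om' {x e : ℝ} (hx : 1 / 2 < x) (he : 0 < e) : (x : ℂ) + e * I ∈ Om := by
  refine ⟨?_, Or.inl ?_⟩
  · simpa using hx
  · simpa using he

lemma F_meas (hRH : RiemannHypothesis) (n : ℕ) {e : ℝ} (he : 0 < e) :
    AEStronglyMeasurable (fun w : ℝ => F n ((w : ℂ) + e * I)) (volume.restrict (Ioi (1 / 2))) := by
  apply ContinuousOn.aestronglyMeasurable _ measurableSet_Ioi
  exact (F_nice hRH n).diff.continuousOn.comp (by fun_prop) (fun w hw => mem_Om' hw he)

/-- limits on the real axis -/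
lemma limn (hRH : RiemannHypothesis) (n : ℕ) :
    (∀ x : ℝ, 1 / 2 < x → x ≠ 1 →
      Tendsto (fun e : ℝ => F n ((x : ℂ) + e * I)) (𝓝[>] 0) (𝓝 (Phi n x))) ∧
    IntegrableOn (Phi n) (Ioi (1 / 2)) := by
  obtain ⟨ε, h0, h1, hdom⟩ := domn hRH
  have hint : ∀ n : ℕ, (∀ x : ℝ, 1 / 2 < x → x ≠ 1 →
      Tendsto (fun e : ℝ => F n ((x : ℂ) + e * I)) (𝓝[>] 0) (𝓝 (Phi n x))) →
      IntegrableOn (Phi n) (Ioi (1 / 2)) := by
    intro n hlim
    obtain ⟨g, hgi, hg0, hg⟩ := hdom n
    have hseq : Tendsto (fun k : ℕ => ε / ((k : ℝ) + 1)) atTop (𝓝[>] 0) := by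
      rw [tendsto_nhdsWithin_iff]
      refine ⟨?_, Eventually.of_forall fun k => ?_⟩
      · have := tendsto_one_div_add_atTop_nhds_zero_nat (𝕜 := ℝ)
        have h2 := this.const_mul ε
        rw [mul_zero] at h2
        refine h2.congr fun k => ?_
        rw [mul_one_div]
      · show 0 < ε / ((k : ℝ) + 1)
        positivity
    have hae : ∀ᵐ x ∂(volume.restrict (Ioi (1 / 2 : ℝ))), 1 / 2 < x ∧ x ≠ 1 := by
      filter_upwards [ae_restrict_mem (μ := (volume : Measure ℝ)) (s := Ioi (1 / 2)) measurableSet_Ioi,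
        ae_ne (Ioi (1 / 2 : ℝ)) 1] with x hx hx1
      exact ⟨hx, hx1⟩
    refine Integrable.mono' hgi ?_ ?_
    · refine aestronglyMeasurable_of_tendsto_ae atTop
        (f := fun (k : ℕ) (x : ℝ) => F n ((x : ℂ) + ((ε / ((k : ℝ) + 1) : ℝ) : ℂ) * I))
        (fun k => F_meas hRH n (by positivity)) ?_
      filter_upwards [hae] with x hx
      exact (hlim x hx.1 hx.2).comp hseq
    · filter_upwards [hae] with x hx
      refine le_of_tendsto (hlim x hx.1 hx.2).norm ?_
      filter_upwards [Ioc_mem_nhdsGT h0] with e he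
      exact hg x e hx.1 hx.2 he.1 he.2
  induction n with
  | zero =>
    have h2 : ∀ x : ℝ, 1 / 2 < x → x ≠ 1 →
      Tendsto (fun e : ℝ => F 0 ((x : ℂ) + e * I)) (𝓝[>] 0) (𝓝 (Phi 0 x)) :=
      fun x hx hx1 => lim0 hRH hx hx1
    exact ⟨h2, hint 0 h2⟩
  | succ n ih =>
    obtain ⟨g, hgi, hg0, hg⟩ := hdom n
    have h2 : ∀ x : ℝ, 1 / 2 < x → x ≠ 1 →
      Tendsto (fun e : ℝ => F (n + 1) ((x : ℂ) + e * I)) (𝓝[>] 0) (𝓝 (Phi (n + 1) x)) := by
      intro x hx hx1
      simp_rw [F_shift]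
      have hsub : Ioi x ⊆ Ioi (1 / 2 : ℝ) := Ioi_subset_Ioi hx.le
      show Tendsto _ _ (𝓝 (∫ u in Ioi x, Phi n u))
      refine tendsto_integral_filter_of_dominated_convergence g ?_ ?_ (hgi.mono_set hsub) ?_
      · filter_upwards [self_mem_nhdsWithin] with e he
        exact (F_meas hRH n he).mono_measure (Measure.restrict_mono hsub le_rfl)
      · filter_upwards [Ioc_mem_nhdsGT h0] with e he
        filter_upwards [ae_restrict_mem (μ := (volume : Measure ℝ)) (s := Ioi x) measurableSet_Ioi,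
          ae_ne (Ioi x) 1] with w hw hw1
        have : x < w := hw
        exact hg w e (by linarith) hw1 he.1 he.2
      · filter_upwards [ae_restrict_mem (μ := (volume : Measure ℝ)) (s := Ioi x) measurableSet_Ioi,
          ae_ne (Ioi x) 1] with w hw hw1
        have : x < w := hw
        exact ih.1 w (by linarith) hw1
    exact ⟨h2, hint (n + 1) h2⟩

lemma Phi_re (hRH : RiemannHypothesis) (n : ℕ) : ∀ x : ℝ, 1 / 2 ≤ x → (Phi n x).re = J n x := by
  induction n with
  | zero =>
    intro x _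
    simp only [Phi, J]
    split_ifs <;> simp
  | succ n ih =>
    intro x hx
    show (∫ u in Ioi x, Phi n u).re = ∫ u in Ioi x, J n u
    have hi := (limn hRH n).2.mono_set (Ioi_subset_Ioi hx)
    have h1 : (∫ u in Ioi x, Phi n u).re = ∫ u in Ioi x, (Phi n u).re :=
      (Complex.reCLM.integral_comp_comm hi).symm
    rw [h1]
    refine setIntegral_congr_fun measurableSet_Ioi fun u hu => ?_
    have : x < u := hu
    exact ih u (by linarith)

/-- the imaginary part on the axis -/
noncomputable def Pn (n : ℕ) (x : ℝ) : ℝ := if x < 1 then (1 - x) ^ n / n.factorial else 0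

lemma Pn_int (n : ℕ) (x : ℝ) : ∫ u in Ioi x, Pn n u = Pn (n + 1) x := by
  rcases le_or_gt 1 x with h | h
  · have h1 : Pn (n + 1) x = 0 := by unfold Pn; rw [if_neg (not_lt.2 h)]
    rw [h1]
    have h2 : ∀ u ∈ Ioi x, Pn n u = 0 := by
      intro u hu
      have : x < u := hu
      unfold Pn
      rw [if_neg (by linarith)]
    rw [setIntegral_congr_fun measurableSet_Ioi h2]
    simp
  · have h1 : ∫ u in Ioi x, Pn n u = ∫ u in Ioc x 1, Pn n u := by
      have hsub : Ioc x 1 ⊆ Ioi x := fun u hu => hu.1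
      refine setIntegral_eq_of_subset_of_forall_sdiff_eq_zero measurableSet_Ioi hsub ?_
      intro u hu
      unfold Pn
      rw [if_neg]
      intro hu1
      exact hu.2 ⟨hu.1, hu1.le⟩
    rw [h1, ← intervalIntegral.integral_of_le h.le]
    have h2 : ∫ u in x..1, Pn n u = ∫ u in x..1, (1 - u) ^ n / n.factorial := by
      refine intervalIntegral.integral_congr_ae ?_
      filter_upwards [ae_ne0 1] with u hu1 hu
      rw [uIoc_of_le h.le] at hu
      unfold Pn
      rw [if_pos (lt_of_le_of_ne hu.2 hu1)]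
    rw [h2]
    have h3 : ∀ u ∈ uIcc x 1, HasDerivAt (fun u : ℝ => -((1 - u) ^ (n + 1) / (n + 1).factorial))
        ((1 - u) ^ n / n.factorial) u := by
      intro u _
      have h4 : HasDerivAt (fun u : ℝ => 1 - u) (-1) u := by
        simpa using (hasDerivAt_id u).const_sub 1
      have h5 := ((h4.pow (n + 1)).div_const ((n + 1).factorial : ℝ)).neg
      refine h5.congr_deriv ?_
      rw [Nat.factorial_succ]
      push_cast
      have : (n.factorial : ℝ) ≠ 0 := by exact_mod_cast Nat.factorial_ne_zero n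
      have hn : (n : ℝ) + 1 ≠ 0 := by positivity
      field_simp
    rw [intervalIntegral.integral_eq_sub_of_hasDerivAt h3]
    · unfold Pn
      rw [if_pos h]
      simp
    · apply Continuous.intervalIntegrable
      fun_prop

lemma Phi_im (hRH : RiemannHypothesis) (n : ℕ) : ∀ x : ℝ, 1 / 2 ≤ x → (Phi n x).im = -Real.pi * Pn n x := by
  induction n with
  | zero =>
    intro x _
    simp only [Phi, Pn]
    split_ifs <;> simp
  | succ n ih =>
    intro x hx
    show (∫ u in Ioi x, Phi n u).im = _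
    have hi := (limn hRH n).2.mono_set (Ioi_subset_Ioi hx)
    have h1 : (∫ u in Ioi x, Phi n u).im = ∫ u in Ioi x, (Phi n u).im :=
      (Complex.imCLM.integral_comp_comm hi).symm
    rw [h1, ← Pn_int, ← integral_const_mul]
    refine setIntegral_congr_fun measurableSet_Ioi fun u hu => ?_
    have : x < u := hu
    exact ih u (by linarith)

lemma J_lim (hRH : RiemannHypothesis) (n : ℕ) :
    Tendsto (fun a : ℝ => J (n + 1) (1 / 2 + a)) (𝓝[>] 0) (𝓝 (J (n + 1) (1 / 2))) := by
  have hi : IntegrableOn (J n) (Ioi (1 / 2)) := by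
    have h1 := (limn hRH n).2.re
    refine h1.congr ?_
    filter_upwards [ae_restrict_mem (μ := (volume : Measure ℝ)) (s := Ioi (1 / 2)) measurableSet_Ioi]
      with x hx
    exact Phi_re hRH n x (le_of_lt hx)
  have h2 : ∀ a : ℝ, 0 ≤ a → J (n + 1) (1 / 2 + a) =
      J (n + 1) (1 / 2) - ∫ u in (1 / 2)..(1 / 2 + a), J n u := by
    intro a ha
    have h3 := intervalIntegral.integral_Ioi_sub_Ioi hi (by linarith : (1 / 2 : ℝ) ≤ 1 / 2 + a)
    show ∫ u in Ioi (1 / 2 + a), J n u = (∫ u in Ioi (1 / 2), J n u) - _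
    rw [← h3]
    ring
  have h4 : ContinuousOn (fun x => ∫ t in (1 / 2)..x, J n t) (uIcc (1 / 2) 2) :=
    intervalIntegral.continuousOn_primitive_interval'
      ((intervalIntegrable_iff_integrableOn_Ioc_of_le (by norm_num)).2
        (hi.mono_set (fun u hu => hu.1))) left_mem_uIcc
  have h5 : Tendsto (fun a : ℝ => ∫ t in (1 / 2)..(1 / 2 + a), J n t) (𝓝[>] 0) (𝓝 0) := by
    have h6 := h4 (1 / 2) left_mem_uIcc
    have h7 : Tendsto (fun a : ℝ => 1 / 2 + a) (𝓝[>] 0) (𝓝[uIcc (1 / 2) 2] (1 / 2)) := by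
      rw [tendsto_nhdsWithin_iff]
      constructor
      · have : Continuous fun a : ℝ => 1 / 2 + a := by fun_prop
        have h8 := (this.tendsto 0).mono_left (nhdsWithin_le_nhds (s := Ioi 0))
        simpa using h8
      · filter_upwards [Ioc_mem_nhdsGT (zero_lt_one' ℝ)] with a ha
        rw [Set.uIcc_of_le (by norm_num)]
        exact ⟨by linarith [ha.1], by linarith [ha.2]⟩
    have h9 := h6.tendsto.comp h7
    rw [intervalIntegral.integral_same] at h9
    exact h9
  have h10 := h5.const_sub (J (n + 1) (1 / 2))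
  rw [sub_zero] at h10
  refine h10.congr' ?_
  filter_upwards [self_mem_nhdsWithin] with a ha
  exact (h2 a (le_of_lt ha)).symm

lemma d_lim (hRH : RiemannHypothesis) (n : ℕ) :
    Tendsto (fun a : ℝ => (I ^ (n + 1) * Phi (n + 1) (1 / 2 + a)).im) (𝓝[>] 0)
      (𝓝 (Real.pi * delta (n + 1))) := by
  rcases Nat.even_or_odd (n + 1) with h | h
  · obtain ⟨k, hk⟩ := h
    have h1 : ∀ a : ℝ, 0 < a → (I ^ (n + 1) * Phi (n + 1) (1 / 2 + a)).im =
        (-1) ^ k * (-Real.pi * Pn (n + 1) (1 / 2 + a)) := by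
      intro a ha
      have e : I ^ (n + 1) = (((-1) ^ k : ℝ) : ℂ) := by
        rw [hk, ← two_mul, pow_mul, Complex.I_sq]
        push_cast; rfl
      rw [e, Complex.im_ofReal_mul, Phi_im hRH _ _ (by linarith)]
    have h2 : Tendsto (fun a : ℝ => (-1) ^ k * (-Real.pi * ((1 - (1 / 2 + a)) ^ (n + 1) /
        ((n + 1).factorial : ℝ)))) (𝓝[>] 0) (𝓝 (Real.pi * delta (n + 1))) := by
      have h3 : Continuous (fun a : ℝ => (-1) ^ k * (-Real.pi * ((1 - (1 / 2 + a)) ^ (n + 1) /
        ((n + 1).factorial : ℝ)))) := by fun_prop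
      have h4 := (h3.tendsto 0).mono_left (nhdsWithin_le_nhds (s := Ioi 0))
      refine h4.trans (le_of_eq ?_)
      congr 1
      unfold delta
      rw [if_pos ⟨k, hk⟩]
      have e2 : (n + 1) / 2 = k := by omega
      rw [e2]
      have e3 : (1 - (1 / 2 + (0:ℝ))) = (2:ℝ)⁻¹ := by norm_num
      rw [e3, inv_pow]
      field_simp
    refine h2.congr' ?_
    filter_upwards [Ioc_mem_nhdsGT (show (0:ℝ) < 1 / 4 by norm_num)] with a ha
    rw [h1 a ha.1]
    unfold Pn
    rw [if_pos (by linarith [ha.2])]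
  · obtain ⟨k, hk⟩ := h
    have h1 : ∀ a : ℝ, 0 < a → (I ^ (n + 1) * Phi (n + 1) (1 / 2 + a)).im =
        (-1) ^ k * J (n + 1) (1 / 2 + a) := by
      intro a ha
      have e : I ^ (n + 1) * Phi (n + 1) (1 / 2 + a) = (((-1) ^ k : ℝ) : ℂ) * (I * Phi (n + 1) (1 / 2 + a)) := by
        rw [hk, pow_succ, pow_mul, Complex.I_sq]
        push_cast
        ring
      rw [e, Complex.im_ofReal_mul, ← Phi_re hRH _ _ (by linarith : (1:ℝ) / 2 ≤ 1 / 2 + a)]
      simp [Complex.mul_im]
    have h2 := (J_lim hRH n).const_mul ((-1 : ℝ) ^ k)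
    have h3 : Real.pi * delta (n + 1) = (-1) ^ k * J (n + 1) (1 / 2) := by
      unfold delta
      rw [if_neg (Nat.not_even_iff_odd.2 ⟨k, hk⟩)]
      have e2 : (n + 1) / 2 = k := by omega
      rw [e2]
      have := Real.pi_ne_zero
      field_simp
    rw [h3]
    refine h2.congr' ?_
    filter_upwards [self_mem_nhdsWithin] with a ha
    exact (h1 a ha).symm

end Pool.Agent.X111.BF
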